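import Pool.Agent.H.MP_0ec261_nt.TypeIIb

/-!
The type II estimate.
-/

open Finset NumberTheorySymbols

namespace Pool.Agent.H.MP_0ec261_nt

/-- the set of shifts -/
noncomputable def HH (K : ℕ) : Finset ℤ := (Icc (-(K : ℤ)) K).filter (fun h => h ≠ 0)

lemma card_HH (K : ℕ) : (HH K).card ≤ 2 * K := by
  unfold HH
  have h1 : (Icc (-(K : ℤ)) K).filter (fun h => h ≠ 0) ⊆ (Icc (-(K : ℤ)) K).erase 0 := by
    intro h hh
    rw [mem_filter] at hh
    rw [mem_erase]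
    exact ⟨hh.2, hh.1⟩
  have h2 := card_le_card h1
  rw [card_erase_of_mem (by rw [mem_Icc]; omega), Int.card_Icc] at h2
  omega

structure Dat (X M R K : ℕ) (c : ℤ → ℝ) (𝒦 I : Finset ℕ) : Prop where
  hc : ∀ n, |c n| ≤ 1
  hc0 : ∀ n, c n ≠ 0 → 1 ≤ n ∧ n ≤ X ∧ Odd n
  h𝒦 : ∀ k ∈ 𝒦, Odd k ∧ k ≤ M
  hI : ∀ r ∈ I, r.Prime ∧ R ≤ r ∧ r < R + K
  hR : 3 ≤ R
  hKR : K ≤ R
  hRX : R * R ≤ X
  hK : 1 ≤ K
  hMR : M * R ≤ X

namespace Dat

variable {X M R K : ℕ} {c : ℤ → ℝ} {𝒦 I : Finset ℕ} (D : Dat X M R K c 𝒦 I)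
include D

lemma cI : I.card ≤ K := by
  have : I ⊆ Ico R (R + K) := by
    intro r hr
    have := D.hI r hr
    rw [mem_Ico]
    exact ⟨this.2.1, this.2.2⟩
  have h := card_le_card this
  rw [Nat.card_Ico] at h
  omega

lemma c𝒦 : 𝒦.card ≤ M := by
  have : 𝒦 ⊆ Icc 1 M := by
    intro k hk
    have := D.h𝒦 k hk
    rw [mem_Icc]
    exact ⟨this.1.pos, this.2⟩
  have h := card_le_card this
  rw [Nat.card_Icc] at h
  omega

lemma hX1 : (1 : ℝ) ≤ X := by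
  have h1 := D.hR
  have h2 := D.hRX
  have : 1 ≤ X := by nlinarith
  exact_mod_cast this

lemma logX : 0 ≤ Real.log X := Real.log_nonneg D.hX1

lemma hcI : ∀ n, c n ≠ 0 → n ∈ Icc (1 : ℤ) X := by
  intro n hn
  have := D.hc0 n hn
  rw [mem_Icc]
  exact ⟨this.1, this.2.1⟩

lemma sumF : ∑ p ∈ Icc (1 : ℤ) X ×ˢ Icc (1 : ℤ) X, (FF I p.1 p.2) ^ 2 ≤ 101 * K * (X : ℝ) ^ 2 := by
  refine (sum_FF_sq D.hI D.hR D.hKR D.hRX).trans ?_
  have hX := D.hX1
  have hR0 : (3 : ℝ) ≤ R := by exact_mod_cast D.hR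
  have hI : (I.card : ℝ) ≤ K := by exact_mod_cast D.cI
  have hKR : (K : ℝ) ≤ R := by exact_mod_cast D.hKR
  have hsR : 0 < Real.sqrt R := Real.sqrt_pos.2 (by linarith)
  have hsR1 : Real.sqrt R ≤ R := by
    rw [Real.sqrt_le_left (by linarith)]
    nlinarith
  have hRR : (R : ℝ) * R ≤ X := by exact_mod_cast D.hRX
  have hS : 4 * ((X : ℝ) + 1) / Real.sqrt R + 2 * R ≤ 10 * X / Real.sqrt R := by
    have e1 : 4 * ((X : ℝ) + 1) / Real.sqrt R + 2 * R = (4 * ((X : ℝ) + 1) + 2 * (R * Real.sqrt R)) / Real.sqrt R := by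
      field_simp
    rw [e1]
    apply div_le_div_of_nonneg_right _ hsR.le
    have : (R : ℝ) * Real.sqrt R ≤ X := by
      calc (R : ℝ) * Real.sqrt R ≤ R * R := by gcongr
        _ ≤ X := hRR
    linarith
  have hS0 : 0 ≤ 4 * ((X : ℝ) + 1) / Real.sqrt R + 2 * R := by positivity
  have hS2 : (4 * ((X : ℝ) + 1) / Real.sqrt R + 2 * R) ^ 2 ≤ 100 * X ^ 2 / R := by
    calc _ ≤ (10 * X / Real.sqrt R) ^ 2 := pow_le_pow_left₀ hS0 hS 2
      _ = _ := by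
        rw [div_pow, Real.sq_sqrt (by linarith)]
        ring
  have h1 : (I.card : ℝ) ^ 2 * (4 * ((X : ℝ) + 1) / Real.sqrt R + 2 * R) ^ 2 ≤ 100 * K * X ^ 2 := by
    calc _ ≤ ((K : ℝ) * R) * (100 * X ^ 2 / R) := by
          apply mul_le_mul _ hS2 (by positivity) (by positivity)
          rw [sq]
          exact mul_le_mul hI (hI.trans hKR) (by positivity) (by positivity)
      _ = _ := by
          field_simp
  have h2 : (I.card : ℝ) * (X : ℝ) ^ 2 ≤ K * X ^ 2 := by gcongr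
  linarith

lemma sumW : ∑ h ∈ HH K, ∑ r ∈ I, WW c 𝒦 X h r ≤
    40 * M * (X : ℝ) ^ 2 * (1 + Real.log X) ^ 2 * Real.sqrt K := by
  refine (sum_WW D.hc D.hcI 𝒦 I D.c𝒦 (HH K) (fun h hh => (mem_filter.1 hh).2)).trans ?_
  have hX := D.hX1
  have hL := D.logX
  have hI : (I.card : ℝ) ≤ K := by exact_mod_cast D.cI
  have h𝒦 : (𝒦.card : ℝ) ≤ M := by exact_mod_cast D.c𝒦
  have hH : ((HH K).card : ℝ) ≤ 2 * K := by exact_mod_cast card_HH K
  have hK1 : (1 : ℝ) ≤ K := by exact_mod_cast D.hK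
  have hsK : 1 ≤ Real.sqrt K := by
    rw [Real.one_le_sqrt]; exact hK1
  have hKK : (K : ℝ) * K ≤ X := by
    have h1 : K * K ≤ X := (Nat.mul_le_mul D.hKR D.hKR).trans D.hRX
    exact_mod_cast h1
  set L := 1 + Real.log X with hLd
  have hL1 : 1 ≤ L := by linarith
  have h1 : ((HH K).card : ℝ) * X * 𝒦.card * I.card ≤ 2 * M * X ^ 2 * L ^ 2 * Real.sqrt K := by
    calc ((HH K).card : ℝ) * X * 𝒦.card * I.card ≤ (2 * K) * X * M * K := by gcongr
      _ = 2 * M * X * (K * K) := by ring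
      _ ≤ 2 * M * X * X := by gcongr
      _ = 2 * M * X ^ 2 * 1 * 1 := by ring
      _ ≤ 2 * M * X ^ 2 * L ^ 2 * Real.sqrt K := by
          gcongr
          exact one_le_pow₀ hL1
  set P := (Icc (1 : ℤ) X ×ˢ Icc (1 : ℤ) X).filter (fun p => p.1 ≠ p.2) with hP
  have h2 : ∑ p ∈ P, ((2 * M : ℝ) * ((p.1 - p.2).natAbs.divisors.card : ℝ)) * |FF I p.1 p.2| ≤
      38 * M * X ^ 2 * L ^ 2 * Real.sqrt K := by
    have e1 : ∑ p ∈ P, ((2 * M : ℝ) * ((p.1 - p.2).natAbs.divisors.card : ℝ)) * |FF I p.1 p.2| =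
        (2 * M : ℝ) * ∑ p ∈ P, ((p.1 - p.2).natAbs.divisors.card : ℝ) * |FF I p.1 p.2| := by
      rw [mul_sum]
      apply sum_congr rfl
      intro p _
      ring
    rw [e1]
    have h3 : ∑ p ∈ P, ((p.1 - p.2).natAbs.divisors.card : ℝ) * |FF I p.1 p.2| ≤
        19 * X ^ 2 * L ^ 2 * Real.sqrt K := by
      apply le_of_sq_le_sq _ (by positivity)
      calc (∑ p ∈ P, ((p.1 - p.2).natAbs.divisors.card : ℝ) * |FF I p.1 p.2|) ^ 2 ≤
          (∑ p ∈ P, ((p.1 - p.2).natAbs.divisors.card : ℝ) ^ 2) * ∑ p ∈ P, |FF I p.1 p.2| ^ 2 :=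
            sum_mul_sq_le_sq_mul_sq _ _ _
        _ ≤ (2 * (X : ℝ) ^ 2 * L ^ 4) * (101 * K * (X : ℝ) ^ 2) := by
            apply mul_le_mul (sum_div_sq X) _ (sum_nonneg (fun _ _ => by positivity)) (by positivity)
            simp_rw [sq_abs]
            refine le_trans ?_ D.sumF
            apply sum_le_sum_of_subset_of_nonneg (filter_subset _ _)
            intro i _ _
            exact sq_nonneg _
        _ = 202 * (X : ℝ) ^ 4 * L ^ 4 * K := by ring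
        _ ≤ 361 * (X : ℝ) ^ 4 * L ^ 4 * K := by gcongr; norm_num
        _ = (19 * X ^ 2 * L ^ 2 * Real.sqrt K) ^ 2 := by
            have := Real.sq_sqrt (show (0 : ℝ) ≤ K by linarith)
            calc 361 * (X : ℝ) ^ 4 * L ^ 4 * K = 361 * (X : ℝ) ^ 4 * L ^ 4 * (Real.sqrt K) ^ 2 := by
                  rw [this]
              _ = _ := by ring
    calc (2 * M : ℝ) * _ ≤ (2 * M : ℝ) * (19 * X ^ 2 * L ^ 2 * Real.sqrt K) := by gcongr
      _ = _ := by ring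
  calc _ ≤ 2 * M * X ^ 2 * L ^ 2 * Real.sqrt K + 38 * M * X ^ 2 * L ^ 2 * Real.sqrt K :=
        add_le_add h1 h2
    _ = _ := by ring

/-- the pair sums -/
noncomputable def VV (c : ℤ → ℝ) (𝒦 : Finset ℕ) (X : ℕ) (r r' : ℕ) : ℝ :=
  ∑ k ∈ 𝒦, ∑ n ∈ Icc (1 : ℤ) X, gg c r n * gg c r' (n + ((r' : ℤ) - r) * k)

omit D in
lemma VV_diag (hc : ∀ n, |c n| ≤ 1) (h𝒦 : 𝒦.card ≤ M) (r r' : ℕ) : VV c 𝒦 X r r' ≤ M * X := by
  unfold VV
  calc _ ≤ ∑ k ∈ 𝒦, ∑ n ∈ Icc (1 : ℤ) X, (1 : ℝ) := by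
        apply sum_le_sum; intro k _; apply sum_le_sum; intro n _
        refine (le_abs_self _).trans ?_
        rw [abs_mul]
        exact mul_le_one₀ (abs_gg_le hc _ _) (abs_nonneg _) (abs_gg_le hc _ _)
    _ = 𝒦.card * X := by simp
    _ ≤ _ := by
        have : (𝒦.card : ℝ) ≤ M := by exact_mod_cast h𝒦
        gcongr

omit D in
lemma VV_off (hc : ∀ n, |c n| ≤ 1) (r r' : ℕ) :
    VV c 𝒦 X r r' ≤ Real.sqrt (X * WW c 𝒦 X ((r' : ℤ) - r) r') := by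
  unfold VV
  rw [sum_comm]
  have e1 : ∑ n ∈ Icc (1 : ℤ) X, ∑ k ∈ 𝒦, gg c r n * gg c r' (n + ((r' : ℤ) - r) * k) =
      ∑ n ∈ Icc (1 : ℤ) X, gg c r n * ∑ k ∈ 𝒦, gg c r' (n + ((r' : ℤ) - r) * k) := by
    apply sum_congr rfl; intro n _; rw [mul_sum]
  rw [e1]
  apply Real.le_sqrt_of_sq_le
  refine (sum_mul_sq_le_sq_mul_sq _ _ _).trans ?_
  unfold WW
  apply mul_le_mul_of_nonneg_right _ (sum_nonneg (fun _ _ => sq_nonneg _))
  calc ∑ n ∈ Icc (1 : ℤ) X, gg c r n ^ 2 ≤ ∑ n ∈ Icc (1 : ℤ) X, (1 : ℝ) := by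
        apply sum_le_sum; intro n _
        rw [← sq_abs]
        exact pow_le_one₀ (abs_nonneg _) (abs_gg_le hc _ _)
    _ = X := by simp

lemma sumV : ∑ p ∈ I ×ˢ I, VV c 𝒦 X p.1 p.2 ≤ K * (M * X) +
    Real.sqrt ((K : ℝ) ^ 2 * (X * (40 * M * (X : ℝ) ^ 2 * (1 + Real.log X) ^ 2 * Real.sqrt K))) := by
  have hI : (I.card : ℝ) ≤ K := by exact_mod_cast D.cI
  rw [← sum_filter_add_sum_filter_not (I ×ˢ I) (fun p => p.1 = p.2)]
  apply add_le_add
  · calc _ ≤ ∑ p ∈ (I ×ˢ I).filter (fun p => p.1 = p.2), ((M : ℝ) * X) :=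
          sum_le_sum (fun p _ => VV_diag D.hc D.c𝒦 _ _)
      _ = (((I ×ˢ I).filter (fun p => p.1 = p.2)).card : ℝ) * (M * X) := by
          rw [sum_const, nsmul_eq_mul]
      _ ≤ K * (M * X) := by
          apply mul_le_mul_of_nonneg_right _ (by positivity)
          refine le_trans ?_ hI
          have : ((I ×ˢ I).filter (fun p => p.1 = p.2)).card ≤ I.card := by
            apply card_le_card_of_injOn (fun p => p.1)
            · intro p hp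
              simp only [coe_filter, Set.mem_setOf_eq, mem_product] at hp
              exact hp.1.1
            · rintro ⟨a, b⟩ hp ⟨a', b'⟩ hp' he
              simp only [coe_filter, Set.mem_setOf_eq] at hp hp' he
              obtain ⟨-, rfl⟩ := hp
              obtain ⟨-, rfl⟩ := hp'
              simp only [Prod.mk.injEq]
              exact ⟨he, he⟩
          exact_mod_cast this
  · set P := (I ×ˢ I).filter (fun p => ¬ p.1 = p.2) with hP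
    calc _ ≤ ∑ p ∈ P, Real.sqrt (X * WW c 𝒦 X ((p.2 : ℤ) - p.1) p.2) :=
          sum_le_sum (fun p _ => VV_off D.hc _ _)
      _ ≤ _ := by
        apply Real.le_sqrt_of_sq_le
        refine (sq_sum_le_card_mul_sum_sq).trans ?_
        have hcard : (P.card : ℝ) ≤ (K : ℝ) ^ 2 := by
          have h1 : P.card ≤ I.card * I.card := by
            rw [← card_product]
            exact card_filter_le _ _
          have h2 : (P.card : ℝ) ≤ I.card * I.card := by exact_mod_cast h1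
          refine h2.trans ?_
          rw [sq]
          exact mul_le_mul hI hI (by positivity) (by positivity)
        apply mul_le_mul hcard _ (sum_nonneg (fun _ _ => sq_nonneg _)) (by positivity)
        calc ∑ p ∈ P, (Real.sqrt (X * WW c 𝒦 X ((p.2 : ℤ) - p.1) p.2)) ^ 2 =
            ∑ p ∈ P, X * WW c 𝒦 X ((p.2 : ℤ) - p.1) p.2 := by
              apply sum_congr rfl
              intro p _
              exact Real.sq_sqrt (mul_nonneg (by positivity) (WW_nonneg _ _ _ _ _))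
          _ = X * ∑ p ∈ P, WW c 𝒦 X ((p.2 : ℤ) - p.1) p.2 := by rw [mul_sum]
          _ ≤ _ := by
              apply mul_le_mul_of_nonneg_left _ (by positivity)
              refine le_trans ?_ D.sumW
              rw [← sum_product']
              have h1 := sum_comp_le P (HH K ×ˢ I) (fun p : ℕ × ℕ => ((p.2 : ℤ) - p.1, p.2)) ?_
                (fun _ => (1 : ℝ)) ?_ (fun y : ℤ × ℕ => WW c 𝒦 X y.1 y.2)
                (fun y => WW_nonneg _ _ _ _ _)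
              · simpa using h1
              · intro p hp
                rw [hP, mem_filter, mem_product] at hp
                rw [mem_product, HH, mem_filter, mem_Icc]
                have h1 := D.hI _ hp.1.1
                have h2 := D.hI _ hp.1.2
                refine ⟨⟨⟨by omega, by omega⟩, ?_⟩, hp.1.2⟩
                simp only
                intro he
                apply hp.2
                omega
              · intro y _
                have : (P.filter (fun p : ℕ × ℕ => ((p.2 : ℤ) - p.1, p.2) = y)).card ≤ 1 := by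
                  rw [card_le_one]
                  intro a ha b hb
                  rw [mem_filter] at ha hb
                  have h1 := ha.2.trans hb.2.symm
                  rw [Prod.mk.injEq] at h1
                  ext
                  · have := h1.1; have := h1.2; omega
                  · exact h1.2
                exact_mod_cast this

/-- the quadratic form -/
lemma sumQ {B : ℕ} (hB : ∀ r ∈ I, ∀ k ∈ 𝒦, X + r * k ≤ B) :
    ∑ k ∈ 𝒦, ∑ s ∈ Icc (-(B : ℤ)) B, (∑ r ∈ I, (J(s | r) : ℝ) * c (r * k + 2 * s)) ^ 2 =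
      ∑ p ∈ I ×ˢ I, VV c 𝒦 X p.1 p.2 := by
  have hodd : ∀ r ∈ I, Odd r := by
    intro r hr
    have h1 := D.hI r hr
    have h2 := D.hR
    exact h1.1.odd_of_ne_two (by omega)
  have e1 : ∀ k ∈ 𝒦, ∑ s ∈ Icc (-(B : ℤ)) B, (∑ r ∈ I, (J(s | r) : ℝ) * c (r * k + 2 * s)) ^ 2 =
      ∑ p ∈ I ×ˢ I, ∑ n ∈ Icc (1 : ℤ) X, gg c p.1 n * gg c p.2 (n + ((p.2 : ℤ) - p.1) * k) := by
    intro k hk
    have e2 : ∀ s : ℤ, (∑ r ∈ I, (J(s | r) : ℝ) * c (r * k + 2 * s)) ^ 2 =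
        ∑ p ∈ I ×ˢ I, ((J(s | p.1) : ℝ) * c (p.1 * k + 2 * s)) * ((J(s | p.2) : ℝ) * c (p.2 * k + 2 * s)) := by
      intro s
      rw [sq, sum_mul_sum, ← sum_product']
    simp_rw [e2]
    rw [sum_comm]
    apply sum_congr rfl
    intro p hp
    rw [mem_product] at hp
    exact change D.hc0 (hodd _ hp.1) (hodd _ hp.2) (D.h𝒦 k hk).1 (hB _ hp.1 _ hk)
  rw [sum_congr rfl e1, sum_comm]
  rfl

/-- **Type II estimate.** -/
theorem typeII {γ : ℕ → ℤ → ℝ} (hγ : ∀ k s, |γ k s| ≤ 1) :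
    (∑ k ∈ 𝒦, ∑ s ∈ Icc (1 : ℤ) X, γ k s * ∑ r ∈ I, (J(s | r) : ℝ) * c (r * k + 2 * s)) ^ 2 ≤
      8 * (Real.sqrt (Real.sqrt K)) ^ 5 * (1 + Real.log X) * (X : ℝ) ^ 4 / (Real.sqrt R) ^ 3 := by
  set B : ℕ := X + (R + K) * M with hB
  have hBb : ∀ r ∈ I, ∀ k ∈ 𝒦, X + r * k ≤ B := by
    intro r hr k hk
    rw [hB]
    have h1 := D.hI r hr
    have h2 := D.h𝒦 k hk
    have := Nat.mul_le_mul h1.2.2.le h2.2
    omega
  have hBX : (X : ℤ) ≤ B := by rw [hB]; push_cast; nlinarith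
  set G : ℕ → ℤ → ℝ := fun k s => ∑ r ∈ I, (J(s | r) : ℝ) * c (r * k + 2 * s) with hG
  -- Cauchy-Schwarz
  have h1 : (∑ k ∈ 𝒦, ∑ s ∈ Icc (1 : ℤ) X, γ k s * G k s) ^ 2 ≤
      (M * X) * ∑ k ∈ 𝒦, ∑ s ∈ Icc (-(B : ℤ)) B, (G k s) ^ 2 := by
    rw [← sum_product']
    refine (sum_mul_sq_le_sq_mul_sq _ _ _).trans ?_
    apply mul_le_mul
    · calc ∑ q ∈ 𝒦 ×ˢ Icc (1 : ℤ) X, (γ q.1 q.2) ^ 2 ≤ ∑ q ∈ 𝒦 ×ˢ Icc (1 : ℤ) X, (1 : ℝ) := by
            apply sum_le_sum; intro q _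
            rw [← sq_abs]
            exact pow_le_one₀ (abs_nonneg _) (hγ _ _)
        _ = 𝒦.card * X := by simp
        _ ≤ M * X := by
            have : (𝒦.card : ℝ) ≤ M := by exact_mod_cast D.c𝒦
            gcongr
    · rw [sum_product (f := fun q : ℕ × ℤ => (G q.1 q.2) ^ 2)]
      apply sum_le_sum
      intro k _
      apply sum_le_sum_of_subset_of_nonneg
      · apply Icc_subset_Icc
        · have : (0 : ℤ) ≤ B := by positivity
          omega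
        · exact hBX
      · intro i _ _; exact sq_nonneg _
    · exact sum_nonneg (fun _ _ => sq_nonneg _)
    · positivity
  rw [D.sumQ hBb] at h1
  have h2 := D.sumV
  have h3 : (∑ k ∈ 𝒦, ∑ s ∈ Icc (1 : ℤ) X, γ k s * G k s) ^ 2 ≤ (M * X) * (K * (M * X) +
    Real.sqrt ((K : ℝ) ^ 2 * (X * (40 * M * (X : ℝ) ^ 2 * (1 + Real.log X) ^ 2 * Real.sqrt K)))) := by
    refine h1.trans ?_
    exact mul_le_mul_of_nonneg_left h2 (by positivity)
  refine h3.trans ?_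
  -- numerics
  have hX := D.hX1
  have hLn := D.logX
  set L := 1 + Real.log X with hLd
  have hL1 : 1 ≤ L := by linarith
  have hK1 : (1 : ℝ) ≤ K := by exact_mod_cast D.hK
  have hR3 : (3 : ℝ) ≤ R := by exact_mod_cast D.hR
  have hMR : (M : ℝ) * R ≤ X := by exact_mod_cast D.hMR
  set x := Real.sqrt (Real.sqrt K) with hx
  set ρ := Real.sqrt R with hρ
  set μ := Real.sqrt M with hμ
  set ξ := Real.sqrt X with hξ
  have hsK1 : 1 ≤ Real.sqrt K := by rw [Real.one_le_sqrt]; exact hK1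
  have hx1 : 1 ≤ x := by rw [hx, Real.one_le_sqrt]; exact hsK1
  have hρ1 : 1 ≤ ρ := by rw [hρ, Real.one_le_sqrt]; linarith
  have hξ1 : 1 ≤ ξ := by rw [hξ, Real.one_le_sqrt]; linarith
  have hμ0 : 0 ≤ μ := Real.sqrt_nonneg _
  have ex2 : Real.sqrt K = x ^ 2 := (Real.sq_sqrt (Real.sqrt_nonneg _)).symm
  have ex4 : (K : ℝ) = x ^ 4 := by
    have : (K : ℝ) = (Real.sqrt K) ^ 2 := (Real.sq_sqrt (by linarith)).symm
    rw [this, ex2]; ring
  have eM : (M : ℝ) = μ ^ 2 := (Real.sq_sqrt (Nat.cast_nonneg _)).symm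
  have eX : (X : ℝ) = ξ ^ 2 := (Real.sq_sqrt (Nat.cast_nonneg _)).symm
  have eR : (R : ℝ) = ρ ^ 2 := (Real.sq_sqrt (Nat.cast_nonneg _)).symm
  have hμρ : μ * ρ ≤ ξ := by
    rw [hξ, hμ, hρ, ← Real.sqrt_mul (Nat.cast_nonneg _)]
    exact Real.sqrt_le_sqrt hMR
  have hμρ' : μ ≤ ξ / ρ := by
    rw [le_div_iff₀ (by linarith)]
    exact hμρ
  have hsq : Real.sqrt ((K : ℝ) ^ 2 * (X * (40 * M * (X : ℝ) ^ 2 * L ^ 2 * Real.sqrt K))) ≤
      7 * x ^ 5 * μ * ξ ^ 3 * L := by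
    apply Real.sqrt_le_iff.2
    refine ⟨by positivity, ?_⟩
    rw [ex2, ex4, eM, eX]
    have : (0 : ℝ) ≤ x ^ 10 * μ ^ 2 * ξ ^ 6 * L ^ 2 := by positivity
    nlinarith
  rw [ex4, eM, eX] at *
  have hfin : (μ ^ 2 * ξ ^ 2) * (x ^ 4 * (μ ^ 2 * ξ ^ 2) + 7 * x ^ 5 * μ * ξ ^ 3 * L) ≤
      8 * x ^ 5 * L * (ξ ^ 2) ^ 4 / ρ ^ 3 := by
    have e1 : (μ ^ 2 * ξ ^ 2) * (x ^ 4 * (μ ^ 2 * ξ ^ 2) + 7 * x ^ 5 * μ * ξ ^ 3 * L) =
        x ^ 4 * μ ^ 4 * ξ ^ 4 + 7 * x ^ 5 * μ ^ 3 * ξ ^ 5 * L := by ring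
    rw [e1]
    have h4 : x ^ 4 * μ ^ 4 * ξ ^ 4 ≤ x ^ 5 * L * (ξ ^ 2) ^ 4 / ρ ^ 3 := by
      calc x ^ 4 * μ ^ 4 * ξ ^ 4 ≤ x ^ 4 * (ξ / ρ) ^ 4 * ξ ^ 4 := by gcongr
        _ = x ^ 4 * 1 * (ξ ^ 2) ^ 4 / ρ ^ 4 := by field_simp
        _ ≤ x ^ 5 * L * (ξ ^ 2) ^ 4 / ρ ^ 3 := by
            gcongr
            · norm_num
            · norm_num
    have h5 : 7 * x ^ 5 * μ ^ 3 * ξ ^ 5 * L ≤ 7 * (x ^ 5 * L * (ξ ^ 2) ^ 4 / ρ ^ 3) := by
      calc 7 * x ^ 5 * μ ^ 3 * ξ ^ 5 * L ≤ 7 * x ^ 5 * (ξ / ρ) ^ 3 * ξ ^ 5 * L := by gcongr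
        _ = _ := by field_simp
    calc _ ≤ x ^ 5 * L * (ξ ^ 2) ^ 4 / ρ ^ 3 + 7 * (x ^ 5 * L * (ξ ^ 2) ^ 4 / ρ ^ 3) := add_le_add h4 h5
      _ = _ := by ring
  refine le_trans ?_ hfin
  apply mul_le_mul_of_nonneg_left _ (by positivity)
  linarith

end Dat

end Pool.Agent.H.MP_0ec261_nt
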