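import Pool.Agent.H.MP_0ec261_nt.Rough
import Pool.Agent.H.MP_0ec261_nt.TypeIIc

/-!
The sum over rough numbers and the sum over rough composite numbers.
-/

open Finset NumberTheorySymbols

namespace Pool.Agent.H.MP_0ec261_nt

lemma sum_Icc_cast (X : ℕ) (f : ℤ → ℝ) :
    ∑ s ∈ Icc (1 : ℤ) X, f s = ∑ s ∈ Icc 1 X, f (s : ℤ) := by
  symm
  apply sum_nbij' (fun n : ℕ => (n : ℤ)) (fun u : ℤ => u.toNat)
  · intro n hn
    rw [mem_Icc] at hn ⊢
    omega
  · intro u hu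
    rw [mem_Icc] at hu ⊢
    omega
  · intro n _
    simp
  · intro u hu
    rw [mem_Icc] at hu
    omega
  · intro n _
    rfl

namespace Dt
variable {X S : ℕ} {b : ℕ → ℝ} {c : ℤ → ℝ} (D : Dt X S b c)
include D

open Classical in
lemma rough_sum {C : ℝ} (hC : 0 ≤ C) (hbil : ∀ α : ℕ → ℝ, (∀ s, |α s| ≤ 1) →
    ∑ n ∈ (Icc 1 X).filter Odd, |∑ s ∈ Icc 1 X, α s * (J(s | n) : ℝ)| ≤ C) {z u : ℕ} (hz : 2 ≤ z) :
    |∑ m ∈ (Icc 1 X).filter (fun m => Odd m ∧ Rgh z m), ww X b c m| ≤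
      ((z ^ u : ℕ) : ℝ) ^ 2 * C + (X : ℝ) ^ 2 * (1 + Real.log X) ^ 4 / 2 ^ u := by
  have e1 : ∑ m ∈ (Icc 1 X).filter (fun m => Odd m ∧ Rgh z m), ww X b c m =
      ∑ m ∈ (Icc 1 X).filter Odd, (if Rgh z m then (1 : ℝ) else 0) * ww X b c m := by
    rw [← filter_filter, sum_filter (p := fun m => Rgh z m)]
    apply sum_congr rfl
    intro m _
    split_ifs <;> simp
  have e2 : ∑ m ∈ (Icc 1 X).filter Odd, (if Rgh z m then (1 : ℝ) else 0) * ww X b c m =
      ∑ m ∈ (Icc 1 X).filter Odd, (∑ d ∈ (Icc 1 (z ^ u)).filter (fun d => d ∣ m ∧ d ∣ Pr z), mu d) * ww X b c m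
      + ∑ m ∈ (Icc 1 X).filter Odd, Er z (z ^ u) m * ww X b c m := by
    rw [← sum_add_distrib]
    apply sum_congr rfl
    intro m hm
    rw [mem_filter, mem_Icc] at hm
    rw [legendre (D := z ^ u) (by omega : m ≠ 0)]
    ring
  have e3 : ∑ m ∈ (Icc 1 X).filter Odd, (∑ d ∈ (Icc 1 (z ^ u)).filter (fun d => d ∣ m ∧ d ∣ Pr z), mu d) * ww X b c m
      = ∑ d ∈ (Icc 1 (z ^ u)).filter (fun d => d ∣ Pr z),
        mu d * ∑ m ∈ (Icc 1 X).filter (fun m => Odd m ∧ d ∣ m), ww X b c m := by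
    have e4 : ∀ m, (∑ d ∈ (Icc 1 (z ^ u)).filter (fun d => d ∣ m ∧ d ∣ Pr z), mu d) * ww X b c m =
        ∑ d ∈ (Icc 1 (z ^ u)).filter (fun d => d ∣ Pr z), if d ∣ m then mu d * ww X b c m else 0 := by
      intro m
      rw [show (Icc 1 (z ^ u)).filter (fun d => d ∣ m ∧ d ∣ Pr z) =
        ((Icc 1 (z ^ u)).filter (fun d => d ∣ Pr z)).filter (fun d => d ∣ m) from by
          ext d; simp only [mem_filter]; tauto, sum_filter (p := fun d => d ∣ m), sum_mul]
      apply sum_congr rfl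
      intro d _
      split_ifs <;> simp
    rw [sum_congr rfl (fun m _ => e4 m), sum_comm]
    apply sum_congr rfl
    intro d _
    rw [← filter_filter, sum_filter (p := fun m => d ∣ m), mul_sum]
    apply sum_congr rfl
    intro m _
    split_ifs <;> simp
  rw [e1, e2, e3]
  refine (abs_add_le _ _).trans ?_
  apply add_le_add
  · calc _ ≤ ∑ d ∈ (Icc 1 (z ^ u)).filter (fun d => d ∣ Pr z),
          |mu d * ∑ m ∈ (Icc 1 X).filter (fun m => Odd m ∧ d ∣ m), ww X b c m| :=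
          abs_sum_le_sum_abs _ _
      _ ≤ ∑ d ∈ (Icc 1 (z ^ u)).filter (fun d => d ∣ Pr z), ((z ^ u : ℕ) : ℝ) * C := by
          apply sum_le_sum
          intro d hd
          rw [mem_filter, mem_Icc] at hd
          rw [abs_mul]
          have h1 := D.typeI hbil (d := d) (by omega)
          have h2 : (d : ℝ) * C ≤ ((z ^ u : ℕ) : ℝ) * C := by
            apply mul_le_mul_of_nonneg_right _ hC
            exact_mod_cast hd.1.2
          calc _ ≤ 1 * |∑ m ∈ (Icc 1 X).filter (fun m => Odd m ∧ d ∣ m), ww X b c m| :=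
                mul_le_mul_of_nonneg_right (abs_mu_le _) (abs_nonneg _)
            _ ≤ _ := by rw [one_mul]; exact h1.trans h2
      _ = (((Icc 1 (z ^ u)).filter (fun d => d ∣ Pr z)).card : ℝ) * (((z ^ u : ℕ) : ℝ) * C) := by
          rw [sum_const, nsmul_eq_mul]
      _ ≤ ((z ^ u : ℕ) : ℝ) * (((z ^ u : ℕ) : ℝ) * C) := by
          apply mul_le_mul_of_nonneg_right _ (by positivity)
          have := card_filter_le (Icc 1 (z ^ u)) (fun d => d ∣ Pr z)
          rw [Nat.card_Icc, Nat.add_sub_cancel] at this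
          exact_mod_cast this
      _ = _ := by ring
  · calc _ ≤ ∑ m ∈ (Icc 1 X).filter Odd, |Er z (z ^ u) m * ww X b c m| := abs_sum_le_sum_abs _ _
      _ ≤ ∑ m ∈ (Icc 1 X).filter Odd, (((m.divisors.card : ℝ)) ^ 2 / 2 ^ u) * X := by
          apply sum_le_sum
          intro m hm
          rw [mem_filter, mem_Icc] at hm
          rw [abs_mul]
          apply mul_le_mul (abs_Er_le hz (by omega)) (D.abs_ww m) (abs_nonneg _) (by positivity)
      _ ≤ ∑ m ∈ Icc 1 X, (((m.divisors.card : ℝ)) ^ 2 / 2 ^ u) * X := by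
          apply sum_le_sum_of_subset_of_nonneg (filter_subset _ _)
          intro i _ _
          positivity
      _ = (∑ m ∈ Icc 1 X, ((m.divisors.card : ℝ)) ^ 2) * (X / 2 ^ u) := by
          rw [sum_mul]
          apply sum_congr rfl
          intro m _
          ring
      _ ≤ (X * (1 + Real.log X) ^ 4) * (X / 2 ^ u) := by
          apply mul_le_mul_of_nonneg_right (sum_tau_sq X) (by positivity)
      _ = _ := by ring

end Dt

/-- rough composite odd numbers -/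
noncomputable def Cmp (z X : ℕ) : Finset ℕ := by
  classical
  exact (Icc 1 X).filter (fun m => Odd m ∧ Rgh z m ∧ m ≠ 1 ∧ ¬ m.Prime)

/-- the block of `m` -/
def gb (k m : ℕ) : ℕ × ℕ := (Nat.log 2 m.minFac, m.minFac / 2 ^ (Nat.log 2 m.minFac - k))

/-- primes of a block -/
def Ib (k l a : ℕ) : Finset ℕ :=
  (Ico (a * 2 ^ (l - k)) (a * 2 ^ (l - k) + 2 ^ (l - k))).filter Nat.Prime

/-- cofactors -/
noncomputable def Kb (X R : ℕ) : Finset ℕ := by
  classical
  exact (Icc 1 (X / R)).filter (fun m => Odd m ∧ m ≠ 1 ∧ Rgh R m)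

section block
variable {X k l a t : ℕ}

lemma mem_Cmp {z X m : ℕ} : m ∈ Cmp z X ↔ (1 ≤ m ∧ m ≤ X) ∧ Odd m ∧ Rgh z m ∧ m ≠ 1 ∧ ¬ m.Prime := by
  classical
  unfold Cmp
  rw [mem_filter, mem_Icc]

lemma mem_Kb {X R m : ℕ} : m ∈ Kb X R ↔ (1 ≤ m ∧ m ≤ X / R) ∧ Odd m ∧ m ≠ 1 ∧ Rgh R m := by
  classical
  unfold Kb
  rw [mem_filter, mem_Icc]

lemma mem_Ib {k l a r : ℕ} : r ∈ Ib k l a ↔
    (a * 2 ^ (l - k) ≤ r ∧ r < a * 2 ^ (l - k) + 2 ^ (l - k)) ∧ r.Prime := by
  unfold Ib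
  rw [mem_filter, mem_Ico]

/-- products lie in the block -/
lemma prod_block (hkl : k ≤ l) (htl : t ≤ l) (ha : 2 ^ k ≤ a) (ha' : a < 2 ^ (k + 1)) {r q : ℕ}
    (hr : r ∈ Ib k l a) (hq : q ∈ Kb X (a * 2 ^ (l - k))) (hX : r * q ≤ X) (hr2 : r ≠ 2) :
    r * q ∈ Cmp (2 ^ t) X ∧ gb k (r * q) = (l, a) := by
  rw [mem_Ib] at hr
  rw [mem_Kb] at hq
  set R := a * 2 ^ (l - k) with hR
  set K := 2 ^ (l - k) with hK
  have hK0 : 0 < K := by positivity
  have hlow : 2 ^ l ≤ R := by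
    calc 2 ^ l = 2 ^ k * 2 ^ (l - k) := by rw [← pow_add]; congr 1; omega
      _ ≤ a * 2 ^ (l - k) := Nat.mul_le_mul_right _ ha
  have hup : R + K ≤ 2 ^ (l + 1) := by
    calc R + K = (a + 1) * K := by rw [hR]; ring
      _ ≤ 2 ^ (k + 1) * K := Nat.mul_le_mul_right _ (by omega)
      _ = 2 ^ (l + 1) := by rw [hK, ← pow_add]; congr 1; omega
  have hrp := hr.2
  have hr1 := hrp.one_lt
  have hm1 : r * q ≠ 1 := by
    intro h
    have := Nat.eq_one_of_mul_eq_one_right h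
    omega
  have hrgh : Rgh R (r * q) := by
    intro p hp hpd
    rcases (hp.dvd_mul).1 hpd with h | h
    · rw [(Nat.prime_dvd_prime_iff_eq hp hrp).1 h]
      exact hr.1.1
    · exact hq.2.2.2 p hp h
  have hmf := Nat.minFac_prime hm1
  have hmfd := Nat.minFac_dvd (r * q)
  have h1 : R ≤ (r * q).minFac := hrgh _ hmf hmfd
  have h2 : (r * q).minFac ≤ r := Nat.minFac_le_of_dvd hrp.two_le (Dvd.intro _ rfl)
  constructor
  · rw [mem_Cmp]
    refine ⟨⟨Nat.mul_pos hrp.pos hq.1.1, hX⟩, ?_, ?_, hm1, ?_⟩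
    · exact (hrp.odd_of_ne_two hr2).mul hq.2.1
    · intro p hp hpd
      have := hrgh p hp hpd
      have h3 : 2 ^ t ≤ 2 ^ l := Nat.pow_le_pow_right (by norm_num) htl
      omega
    · intro hp
      rcases Nat.Prime.eq_one_or_self_of_dvd hp r (Dvd.intro _ rfl) with h | h
      · omega
      · have : q = 1 := by
          have h3 : r * q = r * 1 := by rw [mul_one]; exact h.symm
          exact Nat.eq_of_mul_eq_mul_left hrp.pos h3
        exact hq.2.2.1 this
  · unfold gb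
    have hlog : Nat.log 2 (r * q).minFac = l := by
      rw [Nat.log_eq_iff]
      · constructor <;> omega
      · right
        exact ⟨by norm_num, by omega⟩
    rw [hlog]
    congr 1
    apply Nat.div_eq_of_lt_le
    · exact h1
    · calc (r * q).minFac < R + K := by omega
        _ = (a + 1) * 2 ^ (l - k) := by rw [hR]; ring

/-- the least prime factor gives a representation -/
lemma rep_block (hkt : k ≤ t) {m : ℕ} (hm : m ∈ Cmp (2 ^ t) X) (hg : gb k m = (l, a)) :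
    m.minFac ∈ Ib k l a ∧ m / m.minFac ∈ Kb X (a * 2 ^ (l - k)) ∧ m.minFac * (m / m.minFac) = m ∧
      t ≤ l ∧ 2 ^ k ≤ a ∧ a < 2 ^ (k + 1) ∧ (a * 2 ^ (l - k)) * (a * 2 ^ (l - k)) ≤ X := by
  rw [mem_Cmp] at hm
  obtain ⟨⟨hm0, hmX⟩, hodd, hrgh, hm1, hnp⟩ := hm
  have hp := Nat.minFac_prime hm1
  have hpd := Nat.minFac_dvd m
  set r := m.minFac with hr
  have hrt : 2 ^ t ≤ r := hrgh _ hp hpd
  unfold gb at hg
  rw [Prod.mk.injEq] at hg
  obtain ⟨hl, ha⟩ := hg
  rw [← hr] at hl ha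
  rw [hl] at ha
  have hr0 : r ≠ 0 := hp.ne_zero
  have h2l : 2 ^ l ≤ r := by rw [← hl]; exact Nat.pow_log_le_self 2 hr0
  have h2l' : r < 2 ^ (l + 1) := by rw [← hl]; exact Nat.lt_pow_succ_log_self (by norm_num) r
  have htl : t ≤ l := by
    rw [← hl]
    exact Nat.le_log_of_pow_le (by norm_num) hrt
  have hkl : k ≤ l := hkt.trans htl
  have hK0 : 0 < 2 ^ (l - k) := by positivity
  have haR : a * 2 ^ (l - k) ≤ r := by rw [← ha]; exact Nat.div_mul_le_self _ _
  have haR' : r < a * 2 ^ (l - k) + 2 ^ (l - k) := by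
    have h1 := Nat.lt_mul_div_succ r hK0
    rw [ha] at h1
    calc r < 2 ^ (l - k) * (a + 1) := h1
      _ = _ := by ring
  have ha2 : 2 ^ k ≤ a := by
    rw [← ha, Nat.le_div_iff_mul_le hK0, ← pow_add]
    have : k + (l - k) = l := by omega
    rw [this]
    exact h2l
  have ha3 : a < 2 ^ (k + 1) := by
    rw [← ha, Nat.div_lt_iff_lt_mul hK0, ← pow_add]
    have : k + 1 + (l - k) = l + 1 := by omega
    rw [this]
    exact h2l'
  have hmul : r * (m / r) = m := Nat.mul_div_cancel' hpd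
  have hq1 : m / r ≠ 1 := by
    intro h
    rw [h, mul_one] at hmul
    rw [hmul] at hp
    exact hnp hp
  have hq0 : 0 < m / r := Nat.div_pos (Nat.le_of_dvd (by omega) hpd) hp.pos
  have hR0 : 0 < a * 2 ^ (l - k) := by
    have : 0 < 2 ^ k := by positivity
    exact Nat.mul_pos (by omega) hK0
  have hsq : r * r ≤ m := by
    have := Nat.minFac_sq_le_self (by omega : 0 < m) hnp
    rw [← hr, sq] at this
    exact this
  refine ⟨?_, ?_, hmul, htl, ha2, ha3, ?_⟩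
  · rw [mem_Ib]
    exact ⟨⟨haR, haR'⟩, hp⟩
  · rw [mem_Kb]
    refine ⟨⟨hq0, ?_⟩, ?_, hq1, ?_⟩
    · calc m / r ≤ X / r := Nat.div_le_div_right hmX
        _ ≤ X / (a * 2 ^ (l - k)) := Nat.div_le_div_left haR hR0
    · rw [← hmul] at hodd
      exact (Nat.odd_mul.1 hodd).2
    · intro p hp' hpd'
      have h1 : p ∣ m := by rw [← hmul]; exact Dvd.dvd.mul_left hpd' r
      have h2 := Nat.minFac_le_of_dvd hp'.two_le h1
      rw [← hr] at h2
      exact haR.trans h2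
  · exact (Nat.mul_le_mul haR haR).trans (hsq.trans hmX)

end block

end Pool.Agent.H.MP_0ec261_nt
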