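import Pool.Agent.H.MP_0ec261_nt.Corr
import Pool.Agent.H.MP_711652_nt.QW.DivSums

/-!
The bilinear (type II) estimate for `∑ γ(k,s) J(s | r) c(r k + 2 s)`, `r` prime in a short interval,
with an arbitrary bounded function `c`.
-/

open Finset NumberTheorySymbols

namespace Pool.Agent.H.MP_0ec261_nt

/-- the twisted function -/
noncomputable def gg (c : ℤ → ℝ) (r : ℕ) (n : ℤ) : ℝ := c n * (J(2 * n | r) : ℝ)

lemma abs_J_real (a : ℤ) (b : ℕ) : |((J(a | b) : ℤ) : ℝ)| ≤ 1 := by
  have := abs_jac_le a b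
  exact_mod_cast this

lemma abs_gg_le {c : ℤ → ℝ} (hc : ∀ n, |c n| ≤ 1) (r : ℕ) (n : ℤ) : |gg c r n| ≤ 1 := by
  unfold gg
  rw [abs_mul]
  exact mul_le_one₀ (hc n) (abs_nonneg _) (abs_J_real _ _)

lemma J_two_sq {r : ℕ} (hr : Odd r) : J(2 | r) * J(2 | r) = 1 := by
  rw [← sq]
  apply jacobiSym.sq_one
  have : (2 : ℤ).gcd r = Nat.gcd 2 r := by
    rw [← Int.gcd_natCast_natCast]; rfl
  rw [this]
  exact (Nat.coprime_two_left).2 hr

lemma J_change {r : ℕ} (hr : Odd r) (k : ℤ) (s : ℤ) : J(2 * (r * k + 2 * s) | r) = J(s | r) := by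
  have h1 : J(2 * (r * k + 2 * s) | r) = J(2 * (2 * s) | r) := by
    apply jacobiSym.mod_left'
    have : 2 * ((r : ℤ) * k + 2 * s) = 2 * (2 * s) + r * (2 * k) := by ring
    rw [this, Int.add_mul_emod_self_left]
  rw [h1, jacobiSym.mul_left, jacobiSym.mul_left, ← mul_assoc, J_two_sq hr, one_mul]

/-- change of variables -/
lemma change {X B r r' k : ℕ} {c : ℤ → ℝ} (hc0 : ∀ n, c n ≠ 0 → 1 ≤ n ∧ n ≤ X ∧ Odd n)
    (hr : Odd r) (hr' : Odd r') (hk : Odd k) (hB : X + r * k ≤ B) :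
    ∑ s ∈ Icc (-(B : ℤ)) B, ((J(s | r) : ℝ) * c (r * k + 2 * s)) * ((J(s | r') : ℝ) * c (r' * k + 2 * s)) =
      ∑ n ∈ Icc (1 : ℤ) X, gg c r n * gg c r' (n + ((r' : ℤ) - r) * k) := by
  have hrk : Odd ((r : ℤ) * k) := by exact_mod_cast hr.mul hk
  have e1 : ∑ n ∈ Icc (1 : ℤ) X, gg c r n * gg c r' (n + ((r' : ℤ) - r) * k) =
      ∑ n ∈ (Icc (1 : ℤ) X).filter Odd, gg c r n * gg c r' (n + ((r' : ℤ) - r) * k) := by
    symm
    apply sum_filter_of_ne
    intro n _ hne
    have : c n ≠ 0 := by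
      intro h
      apply hne
      unfold gg
      rw [h]; ring
    exact (hc0 n this).2.2
  rw [e1]
  symm
  apply Finset.sum_of_injOn (fun n : ℤ => (n - r * k) / 2)
  · intro a ha b hb hab
    simp only [coe_filter, Set.mem_setOf_eq] at ha hb
    simp only at hab
    have h1 : Even (a - r * k) := ha.2.sub_odd hrk
    have h2 : Even (b - r * k) := hb.2.sub_odd hrk
    obtain ⟨x, hx⟩ := h1
    obtain ⟨y, hy⟩ := h2
    omega
  · intro a ha
    simp only [coe_filter, Set.mem_setOf_eq, mem_Icc] at ha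
    simp only [coe_Icc, Set.mem_Icc]
    have h1 : ((r : ℤ) * k) ≤ B := by
      have : r * k ≤ B := by omega
      exact_mod_cast this
    have h2 : (X : ℤ) + (r : ℤ) * k ≤ B := by exact_mod_cast hB
    have h3 : (0 : ℤ) ≤ (r : ℤ) * k := by positivity
    generalize (r : ℤ) * k = w at *
    constructor <;> omega
  · intro s hs hn
    by_contra hne
    apply hn
    have hcs : c (r * k + 2 * s) ≠ 0 := by
      intro h
      apply hne
      rw [h]; ring
    obtain ⟨h1, h2, h3⟩ := hc0 _ hcs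
    refine ⟨r * k + 2 * s, ?_, ?_⟩
    · simp only [coe_filter, Set.mem_setOf_eq, mem_Icc]
      exact ⟨⟨h1, h2⟩, h3⟩
    · simp only
      omega
  · intro n hn
    rw [mem_filter] at hn
    have h1 : Even (n - r * k) := hn.2.sub_odd hrk
    obtain ⟨x, hx⟩ := h1
    have h2 : (n - r * k) / 2 = x := by omega
    have h3 : n = r * k + 2 * x := by omega
    rw [h2]
    unfold gg
    rw [h3, J_change hr]
    have h4 : (r : ℤ) * k + 2 * x + ((r' : ℤ) - r) * k = r' * k + 2 * x := by ring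
    rw [h4, J_change hr']
    ring

/-- fibres -/
lemma sum_comp_le {α β : Type*} [DecidableEq β] (s : Finset α) (t : Finset β) (g : α → β)
    (hg : ∀ x ∈ s, g x ∈ t) (C : β → ℝ) (hC : ∀ y ∈ t, ((s.filter (fun x => g x = y)).card : ℝ) ≤ C y)
    (f : β → ℝ) (hf : ∀ y, 0 ≤ f y) : ∑ x ∈ s, f (g x) ≤ ∑ y ∈ t, C y * f y := by
  rw [← sum_fiberwise_of_maps_to hg]
  apply sum_le_sum
  intro y hy
  calc ∑ x ∈ s with g x = y, f (g x) = ∑ x ∈ s with g x = y, f y := by
        apply sum_congr rfl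
        intro x hx
        rw [(mem_filter.1 hx).2]
    _ = ((s.filter (fun x => g x = y)).card : ℝ) * f y := by rw [sum_const, nsmul_eq_mul]
    _ ≤ _ := mul_le_mul_of_nonneg_right (hC y hy) (hf y)

/-- average of `d(|u-v|)²` -/
lemma sum_div_sq (X : ℕ) :
    ∑ p ∈ (Icc (1 : ℤ) X ×ˢ Icc (1 : ℤ) X).filter (fun p => p.1 ≠ p.2),
      (((p.1 - p.2).natAbs.divisors.card : ℝ)) ^ 2 ≤
      2 * (X : ℝ) ^ 2 * (1 + Real.log X) ^ 4 := by
  rcases Nat.eq_zero_or_pos X with h0 | hX0
  · subst h0; simp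
  have h1 : ∑ p ∈ (Icc (1 : ℤ) X ×ˢ Icc (1 : ℤ) X).filter (fun p => p.1 ≠ p.2),
      (((p.1 - p.2).natAbs.divisors.card : ℝ)) ^ 2 ≤
      ∑ y ∈ Icc 1 X, (2 * X : ℝ) * ((y.divisors.card : ℝ)) ^ 2 := by
    refine sum_comp_le _ (Icc 1 X) (fun p : ℤ × ℤ => (p.1 - p.2).natAbs) ?_
      (fun _ => (2 * X : ℝ)) ?_ (fun y => ((y.divisors.card : ℝ)) ^ 2) ?_
    · intro p hp
      simp only [mem_filter, mem_product, mem_Icc] at hp ⊢
      omega
    · intro y _
      have : (((Icc (1 : ℤ) X ×ˢ Icc (1 : ℤ) X).filter (fun p => p.1 ≠ p.2)).filter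
          (fun p => (p.1 - p.2).natAbs = y)) ⊆
          ((Icc (1 : ℤ) X) ×ˢ (univ : Finset Bool)).image
            (fun q => (q.1, if q.2 then q.1 - y else q.1 + y)) := by
        intro p hp
        simp only [mem_filter, mem_product, mem_Icc] at hp
        simp only [mem_image, mem_product, mem_Icc, mem_univ, and_true, Prod.exists]
        rcases le_total p.1 p.2 with h | h
        · refine ⟨p.1, false, by omega, ?_⟩
          ext
          · rfl
          · have h5 := hp.2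
            have h6 : (y : ℤ) = |p.1 - p.2| := by rw [← h5]; exact Int.natCast_natAbs _
            rw [abs_of_nonpos (by omega)] at h6
            simp only [Bool.false_eq_true, if_false, h6]; ring
        · refine ⟨p.1, true, by omega, ?_⟩
          ext
          · rfl
          · have h5 := hp.2
            have h6 : (y : ℤ) = |p.1 - p.2| := by rw [← h5]; exact Int.natCast_natAbs _
            rw [abs_of_nonneg (by omega)] at h6
            simp only [if_true, h6]; ring
      have h2 := (card_le_card this).trans card_image_le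
      rw [card_product, Int.card_Icc, card_univ, Fintype.card_bool] at h2
      have h3 : ((X : ℤ) + 1 - 1).toNat = X := by omega
      rw [h3] at h2
      have h4 : (((((Icc (1 : ℤ) X ×ˢ Icc (1 : ℤ) X).filter (fun p => p.1 ≠ p.2)).filter
          (fun p => (p.1 - p.2).natAbs = y)).card : ℕ) : ℝ) ≤ ((X * 2 : ℕ) : ℝ) := by
        exact_mod_cast h2
      push_cast at h4
      linarith
    · intro y; positivity
  refine h1.trans ?_
  rw [← mul_sum]
  have h5 : ∑ y ∈ Icc 1 X, ((y.divisors.card : ℝ)) ^ 2 ≤ X * (1 + Real.log X) ^ 4 := by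
    have h6 := Pool.Agent.H.MP_711652_nt.QW.Ts_le 2 X
    unfold Pool.Agent.H.MP_711652_nt.QW.Ts at h6
    calc ∑ y ∈ Icc 1 X, ((y.divisors.card : ℝ)) ^ 2 ≤
        ∑ y ∈ Icc 1 X, (X : ℝ) * (((y.divisors.card : ℝ) ^ 2) / y) := by
          apply sum_le_sum
          intro y hy
          rw [mem_Icc] at hy
          have hy0 : (0 : ℝ) < y := by exact_mod_cast hy.1
          have hyX : (y : ℝ) ≤ X := by exact_mod_cast hy.2
          rw [mul_div_assoc', le_div_iff₀ hy0, mul_comm]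
          exact mul_le_mul_of_nonneg_right hyX (by positivity)
      _ = X * ∑ y ∈ Icc 1 X, (((y.divisors.card : ℝ) ^ 2) / y) := by rw [mul_sum]
      _ ≤ _ := by
          apply mul_le_mul_of_nonneg_left _ (by positivity)
          have e : (2 : ℕ) ^ 2 = 4 := by norm_num
          rw [e] at h6
          exact h6
  calc (2 * X : ℝ) * ∑ y ∈ Icc 1 X, ((y.divisors.card : ℝ)) ^ 2 ≤
      (2 * X : ℝ) * (X * (1 + Real.log X) ^ 4) := by gcongr
    _ = _ := by ring

end Pool.Agent.H.MP_0ec261_nt
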