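import Pool.Agent.H.MP_0ec261_nt.Bil
import Pool.Agent.H.MP_0ec261_nt.TypeII

/-!
Rough numbers: Legendre's formula with a truncated sum, and the type I sums.
-/

open Finset NumberTheorySymbols

namespace Pool.Agent.H.MP_0ec261_nt

/-- all prime factors are at least `z` -/
def Rgh (z m : ℕ) : Prop := ∀ p, p.Prime → p ∣ m → z ≤ p

/-- the product of the primes below `z` -/
noncomputable def Pr (z : ℕ) : ℕ := ∏ p ∈ (range z).filter Nat.Prime, p

lemma Pr_ne_zero (z : ℕ) : Pr z ≠ 0 := by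
  unfold Pr
  apply prod_ne_zero_iff.2
  intro p hp
  exact (mem_filter.1 hp).2.ne_zero

lemma prime_dvd_Pr {z p : ℕ} (hp : p.Prime) : p ∣ Pr z ↔ p < z := by
  unfold Pr
  rw [hp.prime.dvd_finset_prod_iff]
  constructor
  · rintro ⟨q, hq, hpq⟩
    rw [mem_filter, mem_range] at hq
    rw [(Nat.prime_dvd_prime_iff_eq hp hq.2).1 hpq]
    exact hq.1
  · intro h
    exact ⟨p, by rw [mem_filter, mem_range]; exact ⟨h, hp⟩, dvd_refl _⟩

lemma Pr_squarefree (z : ℕ) : Squarefree (Pr z) := by
  unfold Pr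
  apply Finset.squarefree_prod_of_pairwise_isCoprime
  · intro p hp q hq hpq
    rw [Finset.mem_coe, mem_filter] at hp hq
    exact Nat.coprime_iff_isRelPrime.1 ((Nat.coprime_primes hp.2 hq.2).2 hpq)
  · intro p hp
    rw [mem_filter] at hp
    exact hp.2.prime.squarefree

lemma rgh_iff (z m : ℕ) : Rgh z m ↔ Nat.gcd m (Pr z) = 1 := by
  constructor
  · intro h
    by_contra hne
    obtain ⟨p, hp, hpd⟩ := Nat.exists_prime_and_dvd hne
    have h1 := h p hp (hpd.trans (Nat.gcd_dvd_left _ _))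
    have h2 := (prime_dvd_Pr hp).1 (hpd.trans (Nat.gcd_dvd_right _ _))
    omega
  · intro h p hp hpm
    by_contra hlt
    push Not at hlt
    have h1 := Nat.dvd_gcd hpm ((prime_dvd_Pr hp).2 hlt)
    rw [h] at h1
    exact hp.one_lt.ne' (Nat.dvd_one.1 h1)

/-- the Moebius function as a real number -/
noncomputable def mu (d : ℕ) : ℝ := ((ArithmeticFunction.moebius d : ℤ) : ℝ)

lemma abs_mu_le (d : ℕ) : |mu d| ≤ 1 := by
  unfold mu
  have := ArithmeticFunction.abs_moebius_le_one (n := d)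
  exact_mod_cast this

lemma sum_mu {n : ℕ} (hn : n ≠ 0) : ∑ d ∈ n.divisors, mu d = if n = 1 then 1 else 0 := by
  have h := congrArg (fun f => f n) (ArithmeticFunction.coe_zeta_mul_moebius)
  simp only [ArithmeticFunction.coe_zeta_mul_apply, ArithmeticFunction.one_apply] at h
  unfold mu
  have h2 : ((∑ d ∈ n.divisors, ArithmeticFunction.moebius d : ℤ) : ℝ) = ((if n = 1 then 1 else 0 : ℤ) : ℝ) := by
    rw [h]
  push_cast at h2
  exact h2

/-- the truncated part -/
noncomputable def Er (z D m : ℕ) : ℝ := ∑ d ∈ (Nat.gcd m (Pr z)).divisors.filter (fun d => D < d), mu d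

/-- Legendre's formula. -/
lemma legendre {z D m : ℕ} (hm : m ≠ 0) [Decidable (Rgh z m)] :
    (if Rgh z m then (1 : ℝ) else 0) =
      ∑ d ∈ (Icc 1 D).filter (fun d => d ∣ m ∧ d ∣ Pr z), mu d + Er z D m := by
  have hg : Nat.gcd m (Pr z) ≠ 0 := by
    intro h
    exact hm (Nat.eq_zero_of_gcd_eq_zero_left h)
  have h1 := sum_mu hg
  have h2 : (if Rgh z m then (1 : ℝ) else 0) = if Nat.gcd m (Pr z) = 1 then 1 else 0 := by
    simp only [rgh_iff]
  rw [h2, ← h1, ← sum_filter_add_sum_filter_not _ (fun d => D < d), add_comm]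
  unfold Er
  congr 1
  apply sum_congr _ (fun _ _ => rfl)
  ext d
  simp only [mem_filter, Nat.mem_divisors, mem_Icc, Nat.dvd_gcd_iff]
  constructor
  · rintro ⟨⟨⟨a, b⟩, c⟩, e⟩
    refine ⟨⟨Nat.pos_of_dvd_of_pos a (Nat.pos_of_ne_zero hm), by omega⟩, a, b⟩
  · rintro ⟨⟨a, b⟩, c, e⟩
    exact ⟨⟨⟨c, e⟩, hg⟩, by omega⟩

lemma two_pow_omega_le {m : ℕ} (hm : m ≠ 0) : 2 ^ m.primeFactors.card ≤ m.divisors.card := by
  rw [← card_powerset]
  apply card_le_card_of_injOn (fun T => ∏ p ∈ T, p)
  · intro T hT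
    simp only [coe_powerset, Set.mem_preimage, Set.mem_powerset_iff] at hT
    simp only [mem_coe, Nat.mem_divisors]
    refine ⟨?_, hm⟩
    exact (prod_dvd_prod_of_subset _ _ _ hT).trans (Nat.prod_primeFactors_dvd m)
  · intro T hT T' hT' h
    simp only [coe_powerset, Set.mem_preimage, Set.mem_powerset_iff] at hT hT'
    have hp : ∀ S : Finset ℕ, ((S : Set ℕ) ⊆ (m.primeFactors : Set ℕ)) →
        (∏ p ∈ S, p).primeFactors = S := by
      intro S hS
      exact Nat.primeFactors_prod (fun p hp => Nat.prime_of_mem_primeFactors (hS hp))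
    rw [← hp T hT, ← hp T' hT']
    simp only at h
    rw [h]

lemma le_pow_omega {z d : ℕ} (hd : d ∣ Pr z) : d ≤ z ^ d.primeFactors.card := by
  have hsq : Squarefree d := (Pr_squarefree z).squarefree_of_dvd hd
  have h1 : ∏ p ∈ d.primeFactors, p = d := Nat.prod_primeFactors_of_squarefree hsq
  calc d = ∏ p ∈ d.primeFactors, p := h1.symm
    _ ≤ ∏ p ∈ d.primeFactors, z := by
        apply prod_le_prod' 
        intro p hp
        have hp' := Nat.prime_of_mem_primeFactors hp
        exact ((prime_dvd_Pr hp').1 ((Nat.dvd_of_mem_primeFactors hp).trans hd)).le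
    _ = _ := prod_const _

/-- bound of the truncation error -/
lemma abs_Er_le {z u m : ℕ} (hz : 2 ≤ z) (hm : m ≠ 0) :
    |Er z (z ^ u) m| ≤ ((m.divisors.card : ℝ)) ^ 2 / 2 ^ u := by
  unfold Er
  have hdiv : ∀ d ∈ (Nat.gcd m (Pr z)).divisors, d ∈ m.divisors := by
    intro d hd
    rw [Nat.mem_divisors] at hd ⊢
    exact ⟨hd.1.trans (Nat.gcd_dvd_left _ _), hm⟩
  calc _ ≤ ∑ d ∈ (Nat.gcd m (Pr z)).divisors.filter (fun d => z ^ u < d), |mu d| :=
        abs_sum_le_sum_abs _ _
    _ ≤ ∑ d ∈ (Nat.gcd m (Pr z)).divisors.filter (fun d => z ^ u < d),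
        ((m.divisors.card : ℝ)) / 2 ^ u := by
        apply sum_le_sum
        intro d hd
        rw [mem_filter] at hd
        refine (abs_mu_le d).trans ?_
        rw [le_div_iff₀ (by positivity), one_mul]
        have hdP : d ∣ Pr z := (Nat.dvd_of_mem_divisors hd.1).trans (Nat.gcd_dvd_right _ _)
        have h1 := le_pow_omega hdP
        have h2 : z ^ u < z ^ d.primeFactors.card := lt_of_lt_of_le hd.2 h1
        have h3 : u < d.primeFactors.card := (Nat.pow_lt_pow_iff_right (by omega)).1 h2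
        have hd0 : d ≠ 0 := by
          have := hd.2
          omega
        have h4 := two_pow_omega_le hd0
        have h5 : d.divisors.card ≤ m.divisors.card := by
          apply card_le_card
          exact Nat.divisors_subset_of_dvd hm (Nat.dvd_of_mem_divisors (hdiv d hd.1))
        have h6 : 2 ^ u ≤ m.divisors.card :=
          (Nat.pow_le_pow_right (by norm_num) h3.le).trans (h4.trans h5)
        exact_mod_cast h6
    _ = (((Nat.gcd m (Pr z)).divisors.filter (fun d => z ^ u < d)).card : ℝ) *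
        ((m.divisors.card : ℝ) / 2 ^ u) := by rw [sum_const, nsmul_eq_mul]
    _ ≤ (m.divisors.card : ℝ) * ((m.divisors.card : ℝ) / 2 ^ u) := by
        apply mul_le_mul_of_nonneg_right _ (by positivity)
        have : ((Nat.gcd m (Pr z)).divisors.filter (fun d => z ^ u < d)).card ≤ m.divisors.card := by
          apply card_le_card
          intro d hd
          exact hdiv d (mem_filter.1 hd).1
        exact_mod_cast this
    _ = _ := by ring

/-- `∑ d(m)²` -/
lemma sum_tau_sq (X : ℕ) :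
    ∑ y ∈ Icc 1 X, ((y.divisors.card : ℝ)) ^ 2 ≤ X * (1 + Real.log X) ^ 4 := by
  have h6 := Pool.Agent.H.MP_711652_nt.QW.Ts_le 2 X
  unfold Pool.Agent.H.MP_711652_nt.QW.Ts at h6
  calc ∑ y ∈ Icc 1 X, ((y.divisors.card : ℝ)) ^ 2 ≤
      ∑ y ∈ Icc 1 X, (X : ℝ) * (((y.divisors.card : ℝ) ^ 2) / y) := by
        apply sum_le_sum
        intro y hy
        rw [mem_Icc] at hy
        have hy0 : (0 : ℝ) < y := by exact_mod_cast hy.1
        have hyX : (y : ℝ) ≤ X := by exact_mod_cast hy.2
        rw [mul_div_assoc', le_div_iff₀ hy0, mul_comm]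
        exact mul_le_mul_of_nonneg_right hyX (by positivity)
    _ = X * ∑ y ∈ Icc 1 X, (((y.divisors.card : ℝ) ^ 2) / y) := by rw [mul_sum]
    _ ≤ _ := by
        apply mul_le_mul_of_nonneg_left _ (by positivity)
        have e : (2 : ℕ) ^ 2 = 4 := by norm_num
        rw [e] at h6
        exact h6

/-- The data of the main sum. -/
structure Dt (X S : ℕ) (b : ℕ → ℝ) (c : ℤ → ℝ) : Prop where
  hb : ∀ s, |b s| ≤ 1
  hbS : ∀ s, b s ≠ 0 → s ≤ S
  hc : ∀ n, |c n| ≤ 1
  hc0 : ∀ n, c n ≠ 0 → 2 * (S : ℤ) < n ∧ n ≤ X ∧ Odd n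

/-- the inner sum -/
noncomputable def ww (X : ℕ) (b : ℕ → ℝ) (c : ℤ → ℝ) (m : ℕ) : ℝ :=
  ∑ s ∈ Icc 1 X, b s * (J(s | m) : ℝ) * c (m + 2 * s)

namespace Dt
variable {X S : ℕ} {b : ℕ → ℝ} {c : ℤ → ℝ} (D : Dt X S b c)
include D

lemma abs_ww (m : ℕ) : |ww X b c m| ≤ X := by
  unfold ww
  calc _ ≤ ∑ s ∈ Icc 1 X, |b s * (J(s | m) : ℝ) * c (m + 2 * s)| := abs_sum_le_sum_abs _ _
    _ ≤ ∑ s ∈ Icc 1 X, (1 : ℝ) := by
        apply sum_le_sum
        intro s _
        rw [abs_mul, abs_mul]
        exact mul_le_one₀ (mul_le_one₀ (D.hb s) (abs_nonneg _) (abs_J_real _ _)) (abs_nonneg _) (D.hc _)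
    _ = X := by simp

lemma ww_zero {m : ℕ} (hm : X < m) : ww X b c m = 0 := by
  unfold ww
  apply sum_eq_zero
  intro s _
  have : c (m + 2 * s) = 0 := by
    by_contra h
    have := (D.hc0 _ h).2.1
    omega
  rw [this, mul_zero]

/-- type I sum -/
lemma typeI {C : ℝ} (hbil : ∀ α : ℕ → ℝ, (∀ s, |α s| ≤ 1) →
    ∑ n ∈ (Icc 1 X).filter Odd, |∑ s ∈ Icc 1 X, α s * (J(s | n) : ℝ)| ≤ C) {d : ℕ} (hd : 0 < d) :
    |∑ m ∈ (Icc 1 X).filter (fun m => Odd m ∧ d ∣ m), ww X b c m| ≤ d * C := by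
  set α : ℕ → ℕ → ℝ := fun a s => if (2 * s) % d = a then b s * (J(s | 1 + 2 * s) : ℝ) else 0 with hα
  have hα1 : ∀ a s, |α a s| ≤ 1 := by
    intro a s
    rw [hα]
    simp only
    split_ifs
    · rw [abs_mul]
      exact mul_le_one₀ (D.hb s) (abs_nonneg _) (abs_J_real _ _)
    · simp
  have key : ∑ m ∈ (Icc 1 X).filter (fun m => Odd m ∧ d ∣ m), ww X b c m =
      ∑ a ∈ range d, ∑ n ∈ ((Icc 1 X).filter Odd).filter (fun n => n % d = a),
        c n * ∑ s ∈ Icc 1 X, α a s * (J(s | n) : ℝ) := by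
    unfold ww
    rw [sum_comm]
    have e1 : ∑ a ∈ range d, ∑ n ∈ ((Icc 1 X).filter Odd).filter (fun n => n % d = a),
        c n * ∑ s ∈ Icc 1 X, α a s * (J(s | n) : ℝ) =
        ∑ n ∈ (Icc 1 X).filter Odd, c n * ∑ s ∈ Icc 1 X, α (n % d) s * (J(s | n) : ℝ) := by
      rw [← sum_fiberwise_of_maps_to (s := (Icc 1 X).filter Odd) (t := range d) (g := fun n => n % d)
        (fun n _ => mem_range.2 (Nat.mod_lt _ hd))]
      apply sum_congr rfl
      intro a _
      apply sum_congr rfl
      intro n hn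
      rw [(mem_filter.1 hn).2]
    rw [e1]
    have e2 : ∑ n ∈ (Icc 1 X).filter Odd, c n * ∑ s ∈ Icc 1 X, α (n % d) s * (J(s | n) : ℝ) =
        ∑ s ∈ Icc 1 X, ∑ n ∈ (Icc 1 X).filter Odd, c n * (α (n % d) s * (J(s | n) : ℝ)) := by
      simp_rw [mul_sum]
      rw [sum_comm]
    rw [e2]
    apply sum_congr rfl
    intro s hs
    rw [mem_Icc] at hs
    by_cases hbs : b s = 0
    · have z1 : ∀ a, α a s = 0 := by
        intro a
        rw [hα]
        simp [hbs]
      rw [sum_eq_zero, sum_eq_zero]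
      · intro n _; rw [z1]; ring
      · intro m _; rw [hbs]; ring
    · have hsS := D.hbS s hbs
      -- change of variables n = m + 2 s
      have hJ : ∀ m : ℕ, Odd m → (J(s | m) : ℝ) = (J(s | 1 + 2 * s) : ℝ) * J(s | m + 2 * s) := by
        intro m hm
        have h1 := jac_shift (s := s) hm
        have h2 := jac_shift_sq s
        have h3 : J(s | m) = J(s | 1 + 2 * s) * J(s | m + 2 * s) := by
          rw [h1, ← mul_assoc, ← sq, h2, one_mul]
        rw [h3]; push_cast; ring
      apply sum_bij_ne_zero (fun m _ _ => m + 2 * s)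
      · intro m hm hne
        rw [mem_filter, mem_Icc] at hm
        have hcm : c ((m : ℤ) + 2 * s) ≠ 0 := by
          intro h; apply hne; rw [h]; ring
        have h1 := D.hc0 _ hcm
        rw [mem_filter, mem_Icc]
        refine ⟨⟨by omega, by omega⟩, ?_⟩
        obtain ⟨k, hk⟩ := hm.2.1
        exact ⟨k + s, by omega⟩
      · intro m _ _ m' _ _ h
        omega
      · intro n hn hne
        rw [mem_filter, mem_Icc] at hn
        have hcn : c (n : ℤ) ≠ 0 := by
          intro h; apply hne; rw [h]; ring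
        have h1 := D.hc0 _ hcn
        have h2 : α (n % d) s ≠ 0 := by
          intro h; apply hne; rw [h]; ring
        have h3 : (2 * s) % d = n % d := by
          by_contra h
          apply h2
          rw [hα]
          simp [h]
        have h4 : 2 * s < n := by omega
        have hodd : Odd (n - 2 * s) := by
          obtain ⟨k, hk⟩ := hn.2
          exact ⟨k - s, by omega⟩
        have hdv : d ∣ n - 2 * s := (Nat.modEq_iff_dvd' h4.le).1 h3
        refine ⟨n - 2 * s, ?_, ?_, ?_⟩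
        · rw [mem_filter, mem_Icc]
          exact ⟨⟨by omega, by omega⟩, hodd, hdv⟩
        · intro h
          apply hne
          have e3 : c (((n - 2 * s : ℕ) : ℤ) + 2 * s) = c n := by
            congr 1; omega
          rw [e3, hJ _ hodd] at h
          have e4 : n - 2 * s + 2 * s = n := by omega
          rw [e4] at h
          rw [hα]
          simp only [h3, if_true]
          linarith
        · omega
      · intro m hm hne
        rw [mem_filter, mem_Icc] at hm
        have h3 : (2 * s) % d = (m + 2 * s) % d := by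
          obtain ⟨k, hk⟩ := hm.2.2
          rw [hk, add_comm, Nat.add_mul_mod_self_left]
        rw [hα]
        simp only [h3, if_true]
        rw [hJ m hm.2.1]
        push_cast
        ring
  rw [key]
  calc _ ≤ ∑ a ∈ range d, |∑ n ∈ ((Icc 1 X).filter Odd).filter (fun n => n % d = a),
        c n * ∑ s ∈ Icc 1 X, α a s * (J(s | n) : ℝ)| := abs_sum_le_sum_abs _ _
    _ ≤ ∑ a ∈ range d, C := by
        apply sum_le_sum
        intro a _
        calc _ ≤ ∑ n ∈ ((Icc 1 X).filter Odd).filter (fun n => n % d = a),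
              |c n * ∑ s ∈ Icc 1 X, α a s * (J(s | n) : ℝ)| := abs_sum_le_sum_abs _ _
          _ ≤ ∑ n ∈ (Icc 1 X).filter Odd, |c n * ∑ s ∈ Icc 1 X, α a s * (J(s | n) : ℝ)| := by
              apply sum_le_sum_of_subset_of_nonneg (filter_subset _ _)
              intro i _ _; exact abs_nonneg _
          _ ≤ ∑ n ∈ (Icc 1 X).filter Odd, |∑ s ∈ Icc 1 X, α a s * (J(s | n) : ℝ)| := by
              apply sum_le_sum
              intro n _
              rw [abs_mul]
              calc _ ≤ 1 * |∑ s ∈ Icc 1 X, α a s * (J(s | n) : ℝ)| :=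
                    mul_le_mul_of_nonneg_right (D.hc _) (abs_nonneg _)
                _ = _ := one_mul _
          _ ≤ C := hbil _ (hα1 a)
    _ = _ := by rw [sum_const, card_range, nsmul_eq_mul]

end Dt

end Pool.Agent.H.MP_0ec261_nt
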