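import Pool.Agent.H.MP_0ec261_nt.Defs

/-!
Equidistribution of the symbol for almost all `n`.
-/

open Finset NumberTheorySymbols Filter

namespace Pool.Agent.H.MP_0ec261_nt

/-- the average over `n ≤ N` -/
theorem sum_two_a : ∃ C : ℝ, 0 < C ∧ ∀ N : ℕ, 1 ≤ N →
    ∑ n ∈ Icc 1 N, |2 * (aN n : ℝ) - rN n| ≤
      C * (1 + Real.log (N + 1 : ℕ)) ^ 4 * ((N + 1 : ℕ) : ℝ) ^ 2 / 2 ^ (uu (N + 1) / 2) + N := by
  classical
  obtain ⟨C, hC, h⟩ := sum_Dg
  refine ⟨2 * C, by linarith, fun N hN => ?_⟩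
  have h1 := h (N + 1) (by omega) Nat.Prime κ1 adm1
  have h2 := h (N + 1) (by omega) P2 κ2 adm2
  have e0 : ∑ n ∈ Icc 1 N, |2 * (aN n : ℝ) - rN n| =
      ∑ n ∈ (Icc 1 N).filter Odd, |2 * (aN n : ℝ) - rN n| +
      ∑ n ∈ (Icc 1 N).filter (fun n => ¬ Odd n), |2 * (aN n : ℝ) - rN n| :=
    (sum_filter_add_sum_filter_not _ _ _).symm
  have a1 : ∑ n ∈ (Icc 1 N).filter Odd, |2 * (aN n : ℝ) - rN n| ≤
      ∑ m ∈ (Icc 1 (N + 1)).filter Odd, |Dg Nat.Prime κ1 m| + ((Icc 1 N).filter Odd).card := by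
    calc _ ≤ ∑ n ∈ (Icc 1 N).filter Odd, (|Dg Nat.Prime κ1 n| + 1) :=
          sum_le_sum (fun n hn => odd_case (mem_filter.1 hn).2)
      _ = ∑ n ∈ (Icc 1 N).filter Odd, |Dg Nat.Prime κ1 n| + ((Icc 1 N).filter Odd).card := by
          rw [sum_add_distrib]; simp
      _ ≤ _ := by
          apply add_le_add _ (le_refl _)
          apply sum_le_sum_of_subset_of_nonneg
          · intro n hn
            rw [mem_filter, mem_Icc] at hn ⊢
            exact ⟨by omega, hn.2⟩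
          · intro i _ _; exact abs_nonneg _
  have a2 : ∑ n ∈ (Icc 1 N).filter (fun n => ¬ Odd n), |2 * (aN n : ℝ) - rN n| ≤
      ∑ m ∈ (Icc 1 (N + 1)).filter Odd, |Dg P2 κ2 m| + ((Icc 1 N).filter (fun n => ¬ Odd n)).card := by
    calc _ ≤ ∑ n ∈ (Icc 1 N).filter (fun n => ¬ Odd n), (|Dg P2 κ2 (n + 1)| + 1) :=
          sum_le_sum (fun n hn => even_case (Nat.not_odd_iff_even.1 (mem_filter.1 hn).2))
      _ = ∑ n ∈ (Icc 1 N).filter (fun n => ¬ Odd n), |Dg P2 κ2 (n + 1)| +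
          ((Icc 1 N).filter (fun n => ¬ Odd n)).card := by
          rw [sum_add_distrib]; simp
      _ ≤ _ := by
          apply add_le_add _ (le_refl _)
          rw [← sum_image (f := fun m => |Dg P2 κ2 m|) (g := fun n : ℕ => n + 1)
            (fun x _ y _ hxy => by simpa using hxy)]
          apply sum_le_sum_of_subset_of_nonneg
          · intro m hm
            rw [mem_image] at hm
            obtain ⟨n, hn, rfl⟩ := hm
            rw [mem_filter, mem_Icc] at hn ⊢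
            refine ⟨by omega, ?_⟩
            have := Nat.not_odd_iff_even.1 hn.2
            exact this.add_one
          · intro i _ _; exact abs_nonneg _
  have a3 : (((Icc 1 N).filter Odd).card : ℝ) + ((Icc 1 N).filter (fun n => ¬ Odd n)).card = N := by
    have := card_filter_add_card_filter_not (s := Icc 1 N) (p := Odd)
    rw [Nat.card_Icc, Nat.add_sub_cancel] at this
    exact_mod_cast this
  rw [e0]
  have e9 : 2 * C * (1 + Real.log ((N + 1 : ℕ) : ℝ)) ^ 4 * ((N + 1 : ℕ) : ℝ) ^ 2 / 2 ^ (uu (N + 1) / 2) =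
      C * (1 + Real.log ((N + 1 : ℕ) : ℝ)) ^ 4 * ((N + 1 : ℕ) : ℝ) ^ 2 / 2 ^ (uu (N + 1) / 2) +
      C * (1 + Real.log ((N + 1 : ℕ) : ℝ)) ^ 4 * ((N + 1 : ℕ) : ℝ) ^ 2 / 2 ^ (uu (N + 1) / 2) := by ring
  rw [e9]
  linarith

/-- lower bound of the saving -/
lemma saving {X : ℕ} (hX : 1 ≤ X) :
    Real.exp (Real.sqrt (Real.log X) / 90) ≤ 2 * 2 ^ (uu X / 2) := by
  set k := uu X / 2 with hk
  set y := Real.sqrt (Real.log X) with hy
  have hX1 : (1 : ℝ) ≤ X := by exact_mod_cast hX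
  have hlog : 0 ≤ Real.log X := Real.log_nonneg hX1
  have h1 : Nat.log 2 X / 1300 < (uu X + 1) * (uu X + 1) := Nat.lt_succ_sqrt _
  have h2 : uu X ≤ 2 * k + 1 := by omega
  have h3 : Nat.log 2 X / 1300 < (2 * k + 2) * (2 * k + 2) :=
    lt_of_lt_of_le h1 (Nat.mul_le_mul (by omega) (by omega))
  have h4 : Nat.log 2 X + 1 ≤ 1300 * ((2 * k + 2) * (2 * k + 2)) := by
    generalize (2 * k + 2) * (2 * k + 2) = w at h3
    omega
  have h5 : X < 2 ^ (Nat.log 2 X + 1) := Nat.lt_pow_succ_log_self (by norm_num) X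
  have h6 : Real.log X ≤ ((Nat.log 2 X + 1 : ℕ) : ℝ) * Real.log 2 := by
    rw [← Real.log_pow]
    apply Real.log_le_log (by linarith)
    exact_mod_cast h5.le
  have hl2 : Real.log 2 < 0.6931471808 := Real.log_two_lt_d9
  have hl2' : 0.6931471803 < Real.log 2 := Real.log_two_gt_d9
  have h7 : Real.log X ≤ (31 * (2 * (k : ℝ) + 2)) ^ 2 := by
    have h8 : ((Nat.log 2 X + 1 : ℕ) : ℝ) ≤ 1300 * ((2 * (k : ℝ) + 2) * (2 * k + 2)) := by
      exact_mod_cast h4
    have h9 : (0 : ℝ) ≤ (2 * (k : ℝ) + 2) * (2 * k + 2) := by positivity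
    calc Real.log X ≤ ((Nat.log 2 X + 1 : ℕ) : ℝ) * Real.log 2 := h6
      _ ≤ (1300 * ((2 * (k : ℝ) + 2) * (2 * k + 2))) * 0.7 := by
          apply mul_le_mul h8 (by linarith) (by linarith) (by positivity)
      _ ≤ _ := by nlinarith
  have h10 : y ≤ 31 * (2 * (k : ℝ) + 2) := by
    rw [hy]
    exact Real.sqrt_le_iff.2 ⟨by positivity, h7⟩
  have h11 : y / 90 ≤ Real.log 2 * ((k : ℝ) + 1) := by
    have h12 : (0 : ℝ) ≤ k := Nat.cast_nonneg _
    nlinarith
  calc Real.exp (y / 90) ≤ Real.exp (Real.log 2 * ((k : ℝ) + 1)) := Real.exp_le_exp.2 h11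
    _ = 2 * 2 ^ k := by
        have : Real.log 2 * ((k : ℝ) + 1) = Real.log 2 + (k : ℝ) * Real.log 2 := by ring
        rw [this, Real.exp_add, Real.exp_log (by norm_num), ← Real.log_pow, Real.exp_log (by positivity)]

lemma ev_poly (K : ℝ) (hK : 0 < K) : ∀ᶠ w : ℝ in atTop, K * (2 + w ^ 2) ^ 4 ≤ Real.exp (w / 900) := by
  have h1 := Real.tendsto_pow_mul_exp_neg_atTop_nhds_zero 8
  have h2 : Tendsto (fun w : ℝ => w / 900) atTop atTop := tendsto_id.atTop_div_const (by norm_num)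
  have h3 := h1.comp h2
  have h4 : ∀ᶠ w : ℝ in atTop, (w / 900) ^ 8 * Real.exp (-(w / 900)) < 1 / (K * 81 * 900 ^ 8) :=
    h3.eventually (gt_mem_nhds (by positivity))
  filter_upwards [h4, eventually_ge_atTop (1 : ℝ)] with w hw hw1
  have e1 : (2 + w ^ 2) ^ 4 ≤ 81 * w ^ 8 := by
    have : 2 + w ^ 2 ≤ 3 * w ^ 2 := by nlinarith
    calc (2 + w ^ 2) ^ 4 ≤ (3 * w ^ 2) ^ 4 := by gcongr
      _ = _ := by ring
  have e2 : (w / 900) ^ 8 * Real.exp (-(w / 900)) * Real.exp (w / 900) = (w / 900) ^ 8 := by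
    rw [mul_assoc, ← Real.exp_add]; simp
  have e3 : (w / 900) ^ 8 ≤ 1 / (K * 81 * 900 ^ 8) * Real.exp (w / 900) := by
    rw [← e2]
    exact mul_le_mul_of_nonneg_right hw.le (Real.exp_pos _).le
  calc K * (2 + w ^ 2) ^ 4 ≤ K * (81 * w ^ 8) := by gcongr
    _ = (K * 81 * 900 ^ 8) * (w / 900) ^ 8 := by ring
    _ ≤ (K * 81 * 900 ^ 8) * (1 / (K * 81 * 900 ^ 8) * Real.exp (w / 900)) := by gcongr
    _ = _ := by field_simp

lemma tendsto_w : Tendsto (fun N : ℕ => Real.sqrt (Real.log N)) atTop atTop :=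
  Real.tendsto_sqrt_atTop.comp (Real.tendsto_log_atTop.comp tendsto_natCast_atTop_atTop)

/-- the average, with an exponential saving -/
theorem sum_two_a' : ∃ N₀ : ℕ, ∀ N : ℕ, N₀ ≤ N →
    ∑ n ∈ Icc 1 N, |2 * (aN n : ℝ) - rN n| ≤
      (N : ℝ) ^ 2 * Real.exp (-(Real.sqrt (Real.log N) / 100)) := by
  obtain ⟨C, hC, h⟩ := sum_two_a
  have ev1 := tendsto_w.eventually (ev_poly (16 * C) (by linarith))
  have ev2 : ∀ᶠ N : ℕ in atTop, (100 : ℝ) ≤ N := tendsto_natCast_atTop_atTop.eventually (eventually_ge_atTop _)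
  obtain ⟨N₀, hN₀⟩ := (ev1.and ev2).exists_forall_of_atTop
  refine ⟨N₀, fun N hN => ?_⟩
  obtain ⟨h1, h2⟩ := hN₀ N hN
  have hN1 : 1 ≤ N := by
    have : (1 : ℝ) ≤ N := by linarith
    exact_mod_cast this
  set w := Real.sqrt (Real.log N) with hw
  have hN0 : (0 : ℝ) < N := by linarith
  have hlogN : 1 ≤ Real.log N := by
    rw [Real.le_log_iff_exp_le hN0]
    have := Real.exp_one_lt_d9
    linarith
  have hw0 : 0 ≤ w := Real.sqrt_nonneg _
  have hw2 : w ^ 2 = Real.log N := Real.sq_sqrt (by linarith)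
  have hs := saving (X := N + 1) (by omega)
  have hy : w ≤ Real.sqrt (Real.log ((N + 1 : ℕ) : ℝ)) := by
    rw [hw]
    apply Real.sqrt_le_sqrt
    apply Real.log_le_log hN0
    push_cast; linarith
  have hs2 : Real.exp (w / 90) ≤ 2 * 2 ^ (uu (N + 1) / 2) := by
    refine le_trans ?_ hs
    rw [Real.exp_le_exp]
    linarith
  have hL : 1 + Real.log ((N + 1 : ℕ) : ℝ) ≤ 2 + w ^ 2 := by
    have : Real.log ((N + 1 : ℕ) : ℝ) ≤ Real.log N + 1 := by
      have e1 : ((N + 1 : ℕ) : ℝ) ≤ N * Real.exp 1 := by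
        have := Real.add_one_le_exp (1 : ℝ)
        push_cast
        nlinarith
      calc Real.log ((N + 1 : ℕ) : ℝ) ≤ Real.log (N * Real.exp 1) := by
            apply Real.log_le_log _ e1
            push_cast; linarith
        _ = Real.log N + 1 := by
            rw [Real.log_mul hN0.ne' (Real.exp_pos _).ne', Real.log_exp]
    rw [hw2]; linarith
  have hL0 : 0 ≤ 1 + Real.log ((N + 1 : ℕ) : ℝ) := by
    have : 0 ≤ Real.log ((N + 1 : ℕ) : ℝ) := Real.log_nonneg (by push_cast; linarith)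
    linarith
  have h3 : C * (1 + Real.log ((N + 1 : ℕ) : ℝ)) ^ 4 * ((N + 1 : ℕ) : ℝ) ^ 2 / 2 ^ (uu (N + 1) / 2) ≤
      (1 / 2) * ((N : ℝ) ^ 2 * Real.exp (-(w / 100))) := by
    have e1 : ((N + 1 : ℕ) : ℝ) ^ 2 ≤ 4 * (N : ℝ) ^ 2 := by
      push_cast; nlinarith
    have e2 : (1 : ℝ) / 2 ^ (uu (N + 1) / 2) ≤ 2 * Real.exp (-(w / 90)) := by
      rw [div_le_iff₀ (by positivity)]
      have := mul_le_mul_of_nonneg_left hs2 (Real.exp_pos (-(w / 90))).le
      rw [← Real.exp_add] at this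
      simp only [neg_add_cancel, Real.exp_zero] at this
      linarith
    calc _ = (C * (1 + Real.log ((N + 1 : ℕ) : ℝ)) ^ 4) * ((N + 1 : ℕ) : ℝ) ^ 2 * (1 / 2 ^ (uu (N + 1) / 2)) := by ring
      _ ≤ (C * (2 + w ^ 2) ^ 4) * (4 * (N : ℝ) ^ 2) * (2 * Real.exp (-(w / 90))) := by gcongr
      _ = (1 / 2) * (N : ℝ) ^ 2 * ((16 * C * (2 + w ^ 2) ^ 4) * Real.exp (-(w / 90))) := by ring
      _ ≤ (1 / 2) * (N : ℝ) ^ 2 * (Real.exp (w / 900) * Real.exp (-(w / 90))) := by gcongr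
      _ = (1 / 2) * ((N : ℝ) ^ 2 * Real.exp (-(w / 100))) := by
          rw [← Real.exp_add]
          have : w / 900 + -(w / 90) = -(w / 100) := by ring
          rw [this]; ring
  have h4 : (N : ℝ) ≤ (1 / 2) * ((N : ℝ) ^ 2 * Real.exp (-(w / 100))) := by
    have e1 : w ≤ Real.log N := by
      rw [← hw2]
      have : 1 ≤ w := by rw [hw, Real.one_le_sqrt]; exact hlogN
      nlinarith
    have e2 : Real.exp (w / 100) ≤ (N : ℝ) / 2 := by
      have e3 : w / 100 ≤ Real.log N / 2 := by linarith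
      calc Real.exp (w / 100) ≤ Real.exp (Real.log N / 2) := Real.exp_le_exp.2 e3
        _ = Real.sqrt N := by
            rw [Real.sqrt_eq_rpow, Real.rpow_def_of_pos hN0]
            congr 1; ring
        _ ≤ (N : ℝ) / 2 := by
            rw [Real.sqrt_le_left (by positivity)]
            nlinarith
    have e4 : 1 ≤ (N : ℝ) / 2 * Real.exp (-(w / 100)) := by
      have := mul_le_mul_of_nonneg_right e2 (Real.exp_pos (-(w / 100))).le
      rw [← Real.exp_add] at this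
      simp only [add_neg_cancel, Real.exp_zero] at this
      exact this
    calc (N : ℝ) = N * 1 := (mul_one _).symm
      _ ≤ N * ((N : ℝ) / 2 * Real.exp (-(w / 100))) := by gcongr
      _ = _ := by ring
  have h5 := h N hN1
  linarith

open Classical in
/-- **Equidistribution for almost all `n`.** -/
theorem almost_all : ∃ N₀ : ℕ, ∀ N : ℕ, N₀ ≤ N →
    (((Icc 1 N).filter (fun n => (N : ℝ) * Real.exp (-(Real.sqrt (Real.log N) / 200)) <
      |2 * (aN n : ℝ) - rN n|)).card : ℝ) ≤ N * Real.exp (-(Real.sqrt (Real.log N) / 200)) := by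
  obtain ⟨N₀, h⟩ := sum_two_a'
  refine ⟨N₀ + 1, fun N hN => ?_⟩
  have h1 := h N (by omega)
  have hN0 : (0 : ℝ) < N := by exact_mod_cast (by omega : 0 < N)
  set E := Real.exp (-(Real.sqrt (Real.log N) / 200)) with hE
  have hE0 : 0 < E := Real.exp_pos _
  have hE2 : Real.exp (-(Real.sqrt (Real.log N) / 100)) = E * E := by
    rw [hE, ← Real.exp_add]; congr 1; ring
  rw [hE2] at h1
  set B := (Icc 1 N).filter (fun n => (N : ℝ) * E < |2 * (aN n : ℝ) - rN n|) with hB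
  have h2 : (B.card : ℝ) * (N * E) ≤ ∑ n ∈ Icc 1 N, |2 * (aN n : ℝ) - rN n| := by
    calc (B.card : ℝ) * (N * E) = ∑ n ∈ B, (N * E : ℝ) := by rw [sum_const, nsmul_eq_mul]
      _ ≤ ∑ n ∈ B, |2 * (aN n : ℝ) - rN n| := sum_le_sum (fun n hn => (mem_filter.1 hn).2.le)
      _ ≤ _ := sum_le_sum_of_subset_of_nonneg (filter_subset _ _) (fun _ _ _ => abs_nonneg _)
  have h3 : (B.card : ℝ) * (N * E) ≤ (N * E) * (N * E) := by
    calc _ ≤ _ := h2
      _ ≤ _ := h1
      _ = _ := by ring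
  exact le_of_mul_le_mul_right h3 (by positivity)

end Pool.Agent.H.MP_0ec261_nt
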