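import Mathlib

/-!
Elementary facts on the Jacobi symbol: the shift `J(s | p + 2 s)`, vanishing of the sum over a
period for non-square moduli, and the resulting bound for incomplete sums.
-/

open Finset NumberTheorySymbols

namespace Pool.Agent.H.MP_0ec261_nt

/-- `J(s | p + 2 s) = J(s | 1 + 2 s) J(s | p)` for odd `p`. -/
lemma jac_shift {s p : ℕ} (hp : Odd p) :
    J(s | p + 2 * s) = J(s | 1 + 2 * s) * J(s | p) := by
  obtain ⟨k, rfl⟩ := hp
  have h1 : Odd ((2 * k + 1) + 2 * s) := ⟨k + s, by ring⟩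
  have h2 : Odd ((1 + 2 * s) * (2 * k + 1)) := by
    apply Odd.mul
    · exact ⟨s, by ring⟩
    · exact ⟨k, rfl⟩
  rw [← jacobiSym.mul_right' _ (by omega) (by omega), jacobiSym.mod_right' s h1,
    jacobiSym.mod_right' s h2]
  congr 1
  have : (1 + 2 * s) * (2 * k + 1) = (2 * k + 1 + 2 * s) + (4 * s) * k := by ring
  rw [this, Nat.add_mul_mod_self_left]

lemma jac_shift_sq (s : ℕ) : J(s | 1 + 2 * s) ^ 2 = 1 := by
  apply jacobiSym.sq_one
  rw [Int.gcd_natCast_natCast]
  have : Nat.Coprime s (1 + 2 * s) := by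
    rw [Nat.coprime_add_mul_right_right]
    exact Nat.coprime_one_right s
  exact this

lemma abs_jac_le (a : ℤ) (b : ℕ) : |J(a | b)| ≤ 1 := by
  rcases jacobiSym.trichotomy a b with h | h | h <;> rw [h] <;> simp

/-- An odd non-square modulus has a residue with symbol `-1`. -/
lemma exists_neg {D : ℕ} (hD : Odd D) (hsq : ¬ IsSquare D) : ∃ a : ℕ, J(a | D) = -1 := by
  obtain ⟨a, b, hab, ha⟩ := Nat.sq_mul_squarefree D
  have ha1 : a ≠ 1 := by
    rintro rfl
    exact hsq ⟨b, by rw [← hab]; ring⟩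
  have hb0 : b ≠ 0 := by
    rintro rfl
    simp at hab
    subst hab
    simp at hD
  obtain ⟨p, hp, hpa⟩ := Nat.exists_prime_and_dvd ha1
  obtain ⟨a', rfl⟩ := hpa
  have hpa' : ¬ p ∣ a' := by
    intro h
    obtain ⟨c, rfl⟩ := h
    have := ha p ⟨c, by ring⟩
    exact hp.one_lt.ne' (Nat.isUnit_iff.1 this)
  have ha'0 : a' ≠ 0 := by rintro rfl; simp at hpa'
  have : Fact p.Prime := ⟨hp⟩
  have hp2 : p ≠ 2 := by
    rintro rfl
    have : Even D := by
      rw [← hab, even_iff_two_dvd]
      exact ⟨b ^ 2 * a', by ring⟩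
    exact (Nat.not_even_iff_odd.2 hD) this
  -- nonresidue mod p
  obtain ⟨r, hr⟩ : ∃ r : ZMod p, ¬ IsSquare r := by
    apply FiniteField.exists_nonsquare
    rw [ZMod.ringChar_zmod_n]
    exact hp2
  set b' := ordCompl[p] b with hb'
  have hcop : Nat.Coprime p (a' * b') := by
    rw [Nat.Prime.coprime_iff_not_dvd hp, hp.dvd_mul]
    push Not
    exact ⟨hpa', Nat.not_dvd_ordCompl hp hb0⟩
  obtain ⟨x, hx1, hx2⟩ := Nat.chineseRemainder hcop r.val 1
  refine ⟨x, ?_⟩
  have hxp : ((x : ℤ) : ZMod p) = r := by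
    have := (ZMod.natCast_eq_natCast_iff x r.val p).2 hx1
    rw [ZMod.natCast_zmod_val] at this
    exact_mod_cast this
  have h1 : J(x | p) = -1 := by
    rw [← jacobiSym.legendreSym.to_jacobiSym, legendreSym.eq_neg_one_iff, hxp]
    exact hr
  have h2 : J(x | a') = 1 := by
    have : (x : ℤ) % a' = 1 % a' := by
      have := (Nat.ModEq.of_mul_right b' hx2)
      exact_mod_cast this
    rw [jacobiSym.mod_left' this, jacobiSym.one_left]
  have h3 : Nat.Coprime x b := by
    have hpx : Nat.Coprime x p := by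
      rw [Nat.coprime_comm, Nat.Prime.coprime_iff_not_dvd hp]
      intro h
      have : ((x : ℤ) : ZMod p) = 0 := by
        rw [ZMod.intCast_zmod_eq_zero_iff_dvd]
        exact_mod_cast h
      rw [hxp] at this
      rw [this] at hr
      exact hr (IsSquare.zero)
    have hxb : Nat.Coprime x b' := by
      have h4 := (Nat.ModEq.of_mul_left a' hx2)
      have := h4.gcd_eq
      rw [Nat.gcd_one_left] at this
      exact this
    rw [← Nat.ordProj_mul_ordCompl_eq_self b p]
    exact Nat.Coprime.mul_right (Nat.Coprime.pow_right _ hpx) hxb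
  have h4 : J(x | b) ^ 2 = 1 := by
    apply jacobiSym.sq_one
    rw [Int.gcd_natCast_natCast]
    exact h3
  rw [← hab, jacobiSym.mul_right' _ (pow_ne_zero _ hb0) (mul_ne_zero hp.ne_zero ha'0), jacobiSym.pow_right, h4,
    jacobiSym.mul_right' _ hp.ne_zero ha'0, h1, h2]
  norm_num

lemma jac_periodic (D x : ℕ) : J((x + D : ℕ) | D) = J(x | D) := by
  apply jacobiSym.mod_left'
  push_cast
  rw [Int.add_emod_right]

/-- The sum over a period is zero. -/
lemma sum_period {D : ℕ} (hD : Odd D) (hsq : ¬ IsSquare D) :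
    ∑ x ∈ range D, J(x | D) = 0 := by
  obtain ⟨a, ha⟩ := exists_neg hD hsq
  have hD0 : D ≠ 0 := by rintro rfl; simp at hD
  have : NeZero D := ⟨hD0⟩
  have hcop : Nat.Coprime a D := by
    by_contra h
    have : J(a | D) = 0 := by
      rw [jacobiSym.eq_zero_iff_not_coprime, Int.gcd_natCast_natCast]
      exact h
    rw [ha] at this
    norm_num at this
  have h1 : ∑ x ∈ range D, J(x | D) = ∑ z : ZMod D, J(z.val | D) := by
    rw [← Fin.sum_univ_eq_sum_range (fun x => J(x | D)) D]
    symm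
    apply Fintype.sum_bijective (fun z : ZMod D => (⟨z.val, ZMod.val_lt z⟩ : Fin D))
    · constructor
      · intro z w hzw
        simp only [Fin.mk.injEq] at hzw
        exact ZMod.val_injective D hzw
      · intro i
        refine ⟨(i.val : ZMod D), ?_⟩
        ext
        simp only
        rw [ZMod.val_natCast, Nat.mod_eq_of_lt i.2]
    · intro z
      rfl
  have hu : IsUnit ((a : ℕ) : ZMod D) := (ZMod.isUnit_iff_coprime a D).2 hcop
  obtain ⟨u, hu'⟩ := hu
  have h2 : ∑ z : ZMod D, J(z.val | D) = ∑ z : ZMod D, J((((u : ZMod D) * z).val : ℕ) | D) := by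
    symm
    exact Equiv.sum_comp (Units.mulLeft u) (fun z => J(z.val | D))
  have h3 : ∀ z : ZMod D, J((((u : ZMod D) * z).val : ℕ) | D) = - J(z.val | D) := by
    intro z
    rw [← neg_one_mul, ← ha, ← jacobiSym.mul_left, hu']
    apply jacobiSym.mod_left'
    rw [ZMod.val_mul, ZMod.val_natCast]
    push_cast
    simp [Int.mul_emod]
  rw [h1]
  have h4 : ∑ z : ZMod D, J(z.val | D) = - ∑ z : ZMod D, J(z.val | D) := by
    conv_lhs => rw [h2]
    rw [← sum_neg_distrib]
    exact sum_congr rfl (fun z _ => h3 z)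
  omega

/-- Sums over shifted periods. -/
lemma sum_shift {f : ℕ → ℤ} {D : ℕ} (hf : ∀ x, f (x + D) = f x) (A : ℕ) :
    ∑ i ∈ range D, f (A + i) = ∑ i ∈ range D, f i := by
  induction A with
  | zero => simp
  | succ A ih =>
    rw [← ih]
    have h1 : ∑ i ∈ range (D + 1), f (A + i) = ∑ i ∈ range D, f (A + i) + f (A + D) :=
      sum_range_succ _ _
    have h2 : ∑ i ∈ range (D + 1), f (A + i) = ∑ i ∈ range D, f (A + (i + 1)) + f (A + 0) :=
      sum_range_succ' _ _
    have h3 : ∑ i ∈ range D, f (A + 1 + i) = ∑ i ∈ range D, f (A + (i + 1)) :=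
      sum_congr rfl (fun i _ => by congr 1; ring)
    rw [h3]
    have := hf A
    rw [add_zero] at h2
    omega

lemma sum_range_le {f : ℕ → ℤ} {D : ℕ} (hD : 0 < D) (hf : ∀ x, f (x + D) = f x)
    (h1 : ∀ x, |f x| ≤ 1) (h0 : ∑ i ∈ range D, f i = 0) (A X : ℕ) :
    |∑ i ∈ range X, f (A + i)| ≤ D := by
  induction X using Nat.strong_induction_on generalizing A with
  | _ X ih =>
    by_cases hX : X < D
    · calc |∑ i ∈ range X, f (A + i)| ≤ ∑ i ∈ range X, |f (A + i)| := abs_sum_le_sum_abs _ _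
        _ ≤ ∑ i ∈ range X, 1 := sum_le_sum (fun i _ => h1 _)
        _ = X := by simp
        _ ≤ D := by exact_mod_cast hX.le
    · push Not at hX
      obtain ⟨Y, rfl⟩ := Nat.exists_eq_add_of_le hX
      rw [sum_range_add, sum_shift hf, h0, zero_add]
      have := ih Y (by omega) (A + D)
      convert this using 3
      congr 1
      ring

/-- Incomplete sums of a non-principal symbol. -/
lemma incomplete {D : ℕ} (hD : Odd D) (hsq : ¬ IsSquare D) (A X : ℕ) :
    |∑ i ∈ range X, J((A + i : ℕ) | D)| ≤ D := by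
  have hD0 : 0 < D := hD.pos
  exact sum_range_le (f := fun x => J(x | D)) hD0 (fun x => jac_periodic D x)
    (fun x => abs_jac_le _ _) (sum_period hD hsq) A X

end Pool.Agent.H.MP_0ec261_nt
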