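import Pool.Agent.H.MP_0ec261_nt.Main

/-!
The average of the twisted representation numbers.
-/

open Finset NumberTheorySymbols

namespace Pool.Agent.H.MP_0ec261_nt

open Classical in
/-- twisted representation number of the odd number `m = p + 2 s` -/
noncomputable def Dg (P : ℕ → Prop) (κ : ℕ → ℕ) (m : ℕ) : ℝ :=
  ∑ s ∈ (Icc 1 m).filter (fun s => P s ∧ κ s ≤ m ∧ (m - 2 * s).Prime), (J(s | m) : ℝ)

/-- admissible lower bounds -/
structure Adm (κ : ℕ → ℕ) : Prop where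
  h1 : ∀ s, 1 ≤ s → 2 * s + 1 ≤ κ s
  h2 : Monotone κ
  h3 : ∀ s H, 1 ≤ s → κ (s + H) ≤ κ s + 4 * H

section
variable {X H j : ℕ} {P : ℕ → Prop} {κ : ℕ → ℕ} {ε : ℕ → ℝ}

open Classical in
noncomputable def bj (X H j : ℕ) (P : ℕ → Prop) (s : ℕ) : ℝ :=
  if P s ∧ (s - 1) / H = j ∧ 1 ≤ s ∧ s ≤ X then (J(s | 1 + 2 * s) : ℝ) else 0

noncomputable def cj (X H j : ℕ) (κ : ℕ → ℕ) (ε : ℕ → ℝ) (m : ℤ) : ℝ :=
  if ((κ ((j + 1) * H) : ℕ) : ℤ) ≤ m ∧ m ≤ X ∧ Odd m then ε m.toNat else 0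

lemma dt_j (hH : 1 ≤ H) (hκ : Adm κ) (hε : ∀ m, |ε m| ≤ 1) :
    Dt X ((j + 1) * H) (bj X H j P) (cj X H j κ ε) := by
  refine ⟨?_, ?_, ?_, ?_⟩
  · intro s
    unfold bj
    split_ifs
    · exact abs_J_real _ _
    · simp
  · intro s hs
    unfold bj at hs
    by_cases h : P s ∧ (s - 1) / H = j ∧ 1 ≤ s ∧ s ≤ X
    · have h1 := Nat.lt_mul_div_succ (s - 1) (by omega : 0 < H)
      rw [h.2.1] at h1
      have h2 : H * (j + 1) = (j + 1) * H := by ring
      omega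
    · rw [if_neg h] at hs
      exact absurd rfl hs
  · intro n
    unfold cj
    split_ifs
    · exact hε _
    · simp
  · intro n hn
    unfold cj at hn
    by_cases h : ((κ ((j + 1) * H) : ℕ) : ℤ) ≤ n ∧ n ≤ X ∧ Odd n
    · refine ⟨?_, h.2.1, h.2.2⟩
      have h1 := hκ.h1 ((j + 1) * H) (Nat.mul_pos (by omega) (by omega))
      have h2 := h.1
      push_cast
      have h3 : ((2 * ((j + 1) * H) + 1 : ℕ) : ℤ) ≤ κ ((j + 1) * H) := by exact_mod_cast h1
      push_cast at h3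
      linarith
    · rw [if_neg h] at hn
      exact absurd rfl hn

open Classical in
/-- all pairs -/
noncomputable def ZZ (X : ℕ) (P : ℕ → Prop) (κ : ℕ → ℕ) : Finset (ℕ × ℕ) :=
  ((Icc 1 X) ×ˢ (Icc 1 X)).filter (fun q => Odd q.1 ∧ P q.2 ∧ κ q.2 ≤ q.1 ∧ (q.1 - 2 * q.2).Prime)

lemma good_part (hH : 1 ≤ H) (hκ : Adm κ) :
    ∑ q ∈ ((ZZ X P κ).filter (fun q => (q.2 - 1) / H = j)).filter (fun q => κ ((j + 1) * H) ≤ q.1),
      ε q.1 * (J(q.2 | q.1) : ℝ) =
    ∑ p ∈ (Icc 1 X).filter (fun m => Odd m ∧ m.Prime), ww X (bj X H j P) (cj X H j κ ε) p := by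
  classical
  unfold ww
  rw [← sum_product']
  symm
  apply sum_bij_ne_zero (fun q _ _ => (q.1 + 2 * q.2, q.2))
  · rintro ⟨p, s⟩ hq hne
    simp only [mem_product, mem_filter, mem_Icc] at hq
    simp only at hne
    have hb : bj X H j P s ≠ 0 := by intro h; apply hne; rw [h]; ring
    have hc : cj X H j κ ε ((p : ℤ) + 2 * s) ≠ 0 := by intro h; apply hne; rw [h]; ring
    have hb' : P s ∧ (s - 1) / H = j ∧ 1 ≤ s ∧ s ≤ X := by
      by_contra h; apply hb; unfold bj; rw [if_neg h]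
    have hc' : ((κ ((j + 1) * H) : ℕ) : ℤ) ≤ (p : ℤ) + 2 * s ∧ (p : ℤ) + 2 * s ≤ X ∧ Odd ((p : ℤ) + 2 * s) := by
      by_contra h; apply hc; unfold cj; rw [if_neg h]
    have hκs : κ s ≤ κ ((j + 1) * H) := by
      apply hκ.h2
      have h1 := Nat.lt_mul_div_succ (s - 1) (by omega : 0 < H)
      rw [hb'.2.1] at h1
      have h2 : H * (j + 1) = (j + 1) * H := by ring
      omega
    simp only [ZZ, mem_filter, mem_product, mem_Icc]
    have h5 : κ ((j + 1) * H) ≤ p + 2 * s := by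
      have := hc'.1
      omega
    refine ⟨⟨⟨⟨⟨by omega, by omega⟩, by omega⟩, ?_, hb'.1, by omega, ?_⟩, hb'.2.1⟩, h5⟩
    · obtain ⟨k, hk⟩ := hq.1.2.1
      exact ⟨k + s, by omega⟩
    · rw [Nat.add_sub_cancel]
      exact hq.1.2.2
  · rintro ⟨p, s⟩ _ _ ⟨p', s'⟩ _ _ h
    simp only [Prod.mk.injEq] at h ⊢
    omega
  · rintro ⟨m, s⟩ hq hne
    simp only [ZZ, mem_filter, mem_product, mem_Icc] at hq
    obtain ⟨⟨⟨⟨⟨h1, h2⟩, h3, h4⟩, hodd, hP, hk, hp⟩, hj⟩, hg⟩ := hq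
    have hk1 := hκ.h1 s h3
    have hlt : 2 * s < m := by omega
    have hpodd : Odd (m - 2 * s) := by
      obtain ⟨k, hk⟩ := hodd
      exact ⟨k - s, by omega⟩
    have hs : m - 2 * s + 2 * s = m := by omega
    refine ⟨(m - 2 * s, s), ?_, ?_, ?_⟩
    · simp only [mem_product, mem_filter, mem_Icc]
      exact ⟨⟨⟨by omega, by omega⟩, hpodd, hp⟩, h3, h4⟩
    · have hJ := jac_shift (s := s) hpodd
      rw [hs] at hJ
      simp only
      intro h
      apply hne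
      have hb : bj X H j P s = (J(s | 1 + 2 * s) : ℝ) := by
        unfold bj; rw [if_pos ⟨hP, hj, h3, h4⟩]
      have e : (((m - 2 * s : ℕ) : ℤ) + 2 * s) = m := by omega
      have hc : cj X H j κ ε (((m - 2 * s : ℕ) : ℤ) + 2 * s) = ε m := by
        rw [e]
        unfold cj
        rw [if_pos ⟨by exact_mod_cast hg, by exact_mod_cast h2, by exact_mod_cast hodd⟩]
        simp
      rw [hb, hc] at h
      simp only
      rw [hJ]
      push_cast
      linarith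
    · simp only [hs]
  · rintro ⟨p, s⟩ hq hne
    simp only [mem_product, mem_filter, mem_Icc] at hq
    simp only at hne ⊢
    have hb : bj X H j P s ≠ 0 := by intro h; apply hne; rw [h]; ring
    have hc : cj X H j κ ε ((p : ℤ) + 2 * s) ≠ 0 := by intro h; apply hne; rw [h]; ring
    have hb' : P s ∧ (s - 1) / H = j ∧ 1 ≤ s ∧ s ≤ X := by
      by_contra h; apply hb; unfold bj; rw [if_neg h]
    have hc' : ((κ ((j + 1) * H) : ℕ) : ℤ) ≤ (p : ℤ) + 2 * s ∧ (p : ℤ) + 2 * s ≤ X ∧ Odd ((p : ℤ) + 2 * s) := by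
      by_contra h; apply hc; unfold cj; rw [if_neg h]
    have e1 : bj X H j P s = (J(s | 1 + 2 * s) : ℝ) := by unfold bj; rw [if_pos hb']
    have e2 : cj X H j κ ε ((p : ℤ) + 2 * s) = ε (p + 2 * s) := by
      unfold cj; rw [if_pos hc']
      congr 1
    rw [e1, e2, jac_shift hq.1.2.1]
    push_cast
    ring

lemma bad_part (hH : 1 ≤ H) (hκ : Adm κ) (hε : ∀ m, |ε m| ≤ 1) :
    |∑ q ∈ (ZZ X P κ).filter (fun q => ¬ κ (((q.2 - 1) / H + 1) * H) ≤ q.1),
      ε q.1 * (J(q.2 | q.1) : ℝ)| ≤ 4 * H * X := by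
  classical
  calc _ ≤ ∑ q ∈ (ZZ X P κ).filter (fun q => ¬ κ (((q.2 - 1) / H + 1) * H) ≤ q.1),
        |ε q.1 * (J(q.2 | q.1) : ℝ)| := abs_sum_le_sum_abs _ _
    _ ≤ ∑ q ∈ (ZZ X P κ).filter (fun q => ¬ κ (((q.2 - 1) / H + 1) * H) ≤ q.1), (1 : ℝ) := by
        apply sum_le_sum
        intro q _
        rw [abs_mul]
        exact mul_le_one₀ (hε _) (abs_nonneg _) (abs_J_real _ _)
    _ = (((ZZ X P κ).filter (fun q => ¬ κ (((q.2 - 1) / H + 1) * H) ≤ q.1)).card : ℝ) := by simp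
    _ ≤ (((Icc 1 X) ×ˢ range (4 * H)).card : ℝ) := by
        have : ((ZZ X P κ).filter (fun q => ¬ κ (((q.2 - 1) / H + 1) * H) ≤ q.1)).card ≤
            ((Icc 1 X) ×ˢ range (4 * H)).card := by
          apply card_le_card_of_injOn (fun q => (q.2, q.1 - κ q.2))
          · rintro ⟨m, s⟩ hq
            simp only [ZZ, coe_filter, mem_filter, mem_product, mem_Icc, Set.mem_setOf_eq] at hq
            simp only [coe_product, coe_Icc, coe_range, Set.mem_prod, Set.mem_Icc, Set.mem_Iio]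
            obtain ⟨⟨⟨⟨h1, h2⟩, h3, h4⟩, hodd, hP, hk, hp⟩, hb⟩ := hq
            refine ⟨⟨h3, h4⟩, ?_⟩
            have a1 := Nat.div_mul_le_self (s - 1) H
            have a2 : ((s - 1) / H + 1) * H ≤ s + H := by
              rw [add_mul, one_mul]; omega
            have a3 := (hκ.h2 a2).trans (hκ.h3 s H h3)
            omega
          · rintro ⟨m, s⟩ hq ⟨m', s'⟩ hq' he
            simp only [ZZ, coe_filter, mem_filter, mem_product, mem_Icc, Set.mem_setOf_eq] at hq hq'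
            simp only [Prod.mk.injEq] at he ⊢
            obtain ⟨rfl, h⟩ := he
            have h1 := hq.1.2.2.2.1
            have h2 := hq'.1.2.2.2.1
            exact ⟨by omega, rfl⟩
        exact_mod_cast this
    _ = _ := by
        rw [card_product, Nat.card_Icc, card_range]
        push_cast
        ring

end

/-- **Average of the twisted representation numbers.** -/
theorem sum_Dg : ∃ C : ℝ, 0 < C ∧ ∀ X : ℕ, 1 ≤ X → ∀ (P : ℕ → Prop) (κ : ℕ → ℕ), Adm κ →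
    ∑ m ∈ (Icc 1 X).filter Odd, |Dg P κ m| ≤
      C * (1 + Real.log X) ^ 4 * (X : ℝ) ^ 2 / 2 ^ (uu X / 2) := by
  classical
  obtain ⟨C, hC, hmain⟩ := main_bound
  refine ⟨C + 8, by linarith, fun X hX P κ hκ => ?_⟩
  have hX1 : (1 : ℝ) ≤ X := by exact_mod_cast hX
  have hL0 : 0 ≤ Real.log X := Real.log_nonneg hX1
  set L := 1 + Real.log X with hL
  have hL1 : 1 ≤ L := by linarith
  have hL4 : 1 ≤ L ^ 4 := one_le_pow₀ hL1
  set u := uu X with hu
  set v := u / 2 with hv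
  set H := X / 2 ^ v + 1 with hH
  have hH1 : 1 ≤ H := Nat.le_add_left _ _
  set ε : ℕ → ℝ := fun m => if 0 ≤ Dg P κ m then 1 else -1 with hε
  have hε1 : ∀ m, |ε m| ≤ 1 := by
    intro m; rw [hε]; simp only; split_ifs <;> simp
  have e1 : ∀ m, |Dg P κ m| = ε m * Dg P κ m := by
    intro m
    rw [hε]
    simp only
    split_ifs with h
    · rw [abs_of_nonneg h, one_mul]
    · rw [abs_of_neg (not_le.1 h)]; ring
  have e2 : ∑ m ∈ (Icc 1 X).filter Odd, |Dg P κ m| = ∑ q ∈ ZZ X P κ, ε q.1 * (J(q.2 | q.1) : ℝ) := by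
    unfold ZZ
    rw [sum_filter, sum_filter, sum_product]
    apply sum_congr rfl
    intro m hm
    rw [mem_Icc] at hm
    by_cases hodd : Odd m
    · rw [if_pos hodd, e1, Dg, mul_sum]
      rw [← sum_filter]
      apply sum_congr _ (fun _ _ => rfl)
      ext s
      simp only [mem_filter, mem_Icc]
      constructor
      · rintro ⟨⟨a, b⟩, h1, h2, h3⟩
        exact ⟨⟨a, by omega⟩, hodd, h1, h2, h3⟩
      · rintro ⟨⟨a, b⟩, _, h1, h2, h3⟩
        have := hκ.h1 s a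
        exact ⟨⟨a, by omega⟩, h1, h2, h3⟩
    · rw [if_neg hodd]
      symm
      apply sum_eq_zero
      intro s _
      rw [if_neg]
      tauto
  rw [e2, ← sum_filter_add_sum_filter_not (ZZ X P κ)
    (fun q => κ (((q.2 - 1) / H + 1) * H) ≤ q.1)]
  -- the good part
  have hg : |∑ q ∈ (ZZ X P κ).filter (fun q => κ (((q.2 - 1) / H + 1) * H) ≤ q.1),
      ε q.1 * (J(q.2 | q.1) : ℝ)| ≤ 2 ^ v * (C * L ^ 4 * (X : ℝ) ^ 2 / 2 ^ u) := by
    have hmaps : ∀ q ∈ (ZZ X P κ).filter (fun q => κ (((q.2 - 1) / H + 1) * H) ≤ q.1),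
        (q.2 - 1) / H ∈ range (2 ^ v) := by
      rintro ⟨m, s⟩ hq
      simp only [ZZ, mem_filter, mem_product, mem_Icc] at hq
      rw [mem_range, Nat.div_lt_iff_lt_mul (by omega)]
      have h1 := Nat.lt_mul_div_succ X (by positivity : 0 < 2 ^ v)
      have h2 : 2 ^ v * H = 2 ^ v * (X / 2 ^ v + 1) := rfl
      simp only
      omega
    rw [← sum_fiberwise_of_maps_to hmaps]
    calc _ ≤ ∑ j ∈ range (2 ^ v), |∑ q ∈ ((ZZ X P κ).filter
          (fun q => κ (((q.2 - 1) / H + 1) * H) ≤ q.1)).filter (fun q => (q.2 - 1) / H = j),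
          ε q.1 * (J(q.2 | q.1) : ℝ)| := abs_sum_le_sum_abs _ _
      _ ≤ ∑ j ∈ range (2 ^ v), C * L ^ 4 * (X : ℝ) ^ 2 / 2 ^ u := by
          apply sum_le_sum
          intro j _
          have e3 : ((ZZ X P κ).filter (fun q => κ (((q.2 - 1) / H + 1) * H) ≤ q.1)).filter
              (fun q => (q.2 - 1) / H = j) =
              ((ZZ X P κ).filter (fun q => (q.2 - 1) / H = j)).filter
                (fun q => κ ((j + 1) * H) ≤ q.1) := by
            ext q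
            simp only [mem_filter]
            constructor
            · rintro ⟨⟨a, b⟩, rfl⟩; exact ⟨⟨a, rfl⟩, b⟩
            · rintro ⟨⟨a, rfl⟩, b⟩; exact ⟨⟨a, b⟩, rfl⟩
          rw [e3, good_part hH1 hκ]
          exact hmain X ((j + 1) * H) hX _ _ (dt_j hH1 hκ hε1)
      _ = _ := by
          rw [sum_const, card_range, nsmul_eq_mul]
          push_cast
          ring
  have hb := bad_part (X := X) (P := P) hH1 hκ hε1
  have hv2 : (2 : ℝ) ^ v * 2 ^ v ≤ 2 ^ u := by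
    rw [← pow_add]
    apply pow_le_pow_right₀ (by norm_num)
    omega
  have hvX : (2 : ℝ) ^ v ≤ X := by
    have h1 : u ≤ Nat.log 2 X := by
      rw [hu]
      unfold uu
      calc _ ≤ Nat.log 2 X / 1300 := Nat.sqrt_le_self _
        _ ≤ _ := Nat.div_le_self _ _
    have h2 : 2 ^ v ≤ X := (Nat.pow_le_pow_right (by norm_num) (by omega : v ≤ Nat.log 2 X)).trans
      (Nat.pow_log_le_self 2 (by omega))
    exact_mod_cast h2
  have h1 : 2 ^ v * (C * L ^ 4 * (X : ℝ) ^ 2 / 2 ^ u) ≤ C * L ^ 4 * (X : ℝ) ^ 2 / 2 ^ v := by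
    rw [le_div_iff₀ (by positivity)]
    calc 2 ^ v * (C * L ^ 4 * (X : ℝ) ^ 2 / 2 ^ u) * 2 ^ v =
        (C * L ^ 4 * (X : ℝ) ^ 2) * ((2 ^ v * 2 ^ v) / 2 ^ u) := by ring
      _ ≤ (C * L ^ 4 * (X : ℝ) ^ 2) * 1 := by
          apply mul_le_mul_of_nonneg_left _ (by positivity)
          rw [div_le_one (by positivity)]
          exact hv2
      _ = _ := mul_one _
  have h2 : 4 * (H : ℝ) * X ≤ 8 * L ^ 4 * (X : ℝ) ^ 2 / 2 ^ v := by
    have h3 : (H : ℝ) ≤ 2 * X / 2 ^ v := by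
      have h4 : ((X / 2 ^ v : ℕ) : ℝ) ≤ (X : ℝ) / 2 ^ v := by
        have := @Nat.cast_div_le ℝ _ _ _ X (2 ^ v)
        push_cast at this
        exact this
      have h5 : (1 : ℝ) ≤ (X : ℝ) / 2 ^ v := by
        rw [le_div_iff₀ (by positivity), one_mul]
        exact hvX
      rw [hH]
      push_cast
      push_cast at h4
      calc _ ≤ (X : ℝ) / 2 ^ v + (X : ℝ) / 2 ^ v := add_le_add h4 h5
        _ = _ := by ring
    calc 4 * (H : ℝ) * X ≤ 4 * (2 * X / 2 ^ v) * X := by gcongr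
      _ = 8 * 1 * (X : ℝ) ^ 2 / 2 ^ v := by ring
      _ ≤ _ := by gcongr
  have h3 := le_abs_self (∑ q ∈ (ZZ X P κ).filter (fun q => κ (((q.2 - 1) / H + 1) * H) ≤ q.1),
      ε q.1 * (J(q.2 | q.1) : ℝ))
  have h4 := le_abs_self (∑ q ∈ (ZZ X P κ).filter (fun q => ¬ κ (((q.2 - 1) / H + 1) * H) ≤ q.1),
      ε q.1 * (J(q.2 | q.1) : ℝ))
  calc _ ≤ C * L ^ 4 * (X : ℝ) ^ 2 / 2 ^ v + 8 * L ^ 4 * (X : ℝ) ^ 2 / 2 ^ v := by linarith
    _ = _ := by ring

end Pool.Agent.H.MP_0ec261_nt
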