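import Pool.Agent.H.MP_0ec261_nt.Jac
import Pool.Agent.H.MP_3e6494_nt.helper50.T3Cnt

/-!
A bilinear bound for the Jacobi symbol `J(s | n)`, `s, n ≤ X`, `n` odd, with arbitrary bounded
coefficients.
-/

open Finset NumberTheorySymbols

namespace Pool.Agent.H.MP_0ec261_nt

/-- Number of `n' ≤ X` with `n n'` a square. -/
lemma count_sq (X n : ℕ) (hn : 0 < n) :
    ((Icc 1 X).filter (fun m => IsSquare (n * m))).card ≤ Nat.sqrt X := by
  obtain ⟨a, b, hab, ha⟩ := Nat.sq_mul_squarefree n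
  have hb0 : b ≠ 0 := by
    rintro rfl
    simp at hab
    omega
  -- every such `m` is `a t ^ 2`
  have key : ∀ m ∈ (Icc 1 X).filter (fun m => IsSquare (n * m)), ∃ t, m = a * t ^ 2 := by
    intro m hm
    rw [mem_filter, mem_Icc] at hm
    obtain ⟨c, d, hcd, hc⟩ := Nat.sq_mul_squarefree m
    have hd0 : d ≠ 0 := by
      rintro rfl
      simp at hcd
      omega
    have h1 : IsSquare (a * c) := by
      have h2 : n * m = (b * d) ^ 2 * (a * c) := by rw [← hab, ← hcd]; ring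
      obtain ⟨k, hk⟩ := hm.2
      rw [h2, ← sq] at hk
      have h3 : (b * d) ^ 2 ∣ k ^ 2 := ⟨a * c, hk.symm⟩
      rw [Nat.pow_dvd_pow_iff (by norm_num)] at h3
      obtain ⟨e, rfl⟩ := h3
      refine ⟨e, ?_⟩
      have h4 : (b * d) ^ 2 * (a * c) = (b * d) ^ 2 * (e * e) := by rw [hk]; ring
      exact Nat.eq_of_mul_eq_mul_left (by positivity) h4
    have h2 : a = c := by
      obtain ⟨k, hk⟩ := h1
      apply Nat.dvd_antisymm
      · -- a ∣ c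
        have h5 : a ∣ k * k := ⟨c, hk.symm⟩
        have h6 : a ∣ k := (ha.dvd_pow_iff_dvd (by norm_num : (2 : ℕ) ≠ 0)).1 (by rw [sq]; exact h5)
        obtain ⟨l, rfl⟩ := h6
        have ha0 : 0 < a := Nat.pos_of_ne_zero ha.ne_zero
        have h7 : c = a * (l * l) := by
          apply Nat.eq_of_mul_eq_mul_left ha0
          rw [hk]; ring
        exact ⟨l * l, h7⟩
      · have h5 : c ∣ k * k := ⟨a, by rw [← hk]; ring⟩
        have h6 : c ∣ k := (hc.dvd_pow_iff_dvd (by norm_num : (2 : ℕ) ≠ 0)).1 (by rw [sq]; exact h5)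
        obtain ⟨l, rfl⟩ := h6
        have hc0 : 0 < c := Nat.pos_of_ne_zero hc.ne_zero
        have h7 : a = c * (l * l) := by
          apply Nat.eq_of_mul_eq_mul_left hc0
          rw [mul_comm c a, hk]; ring
        exact ⟨l * l, h7⟩
    exact ⟨d, by rw [← hcd, h2]; ring⟩
  have hsub : (Icc 1 X).filter (fun m => IsSquare (n * m)) ⊆
      (Icc 1 (Nat.sqrt X)).image (fun t => a * t ^ 2) := by
    intro m hm
    obtain ⟨t, rfl⟩ := key m hm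
    rw [mem_filter, mem_Icc] at hm
    rw [mem_image]
    refine ⟨t, ?_, rfl⟩
    rw [mem_Icc]
    constructor
    · rcases Nat.eq_zero_or_pos t with h | h
      · subst h; simp at hm
      · exact h
    · rw [Nat.le_sqrt, ← sq]
      exact (Nat.le_mul_of_pos_left _ (Nat.pos_of_ne_zero ha.ne_zero)).trans hm.1.2
  calc _ ≤ ((Icc 1 (Nat.sqrt X)).image (fun t => a * t ^ 2)).card := card_le_card hsub
    _ ≤ (Icc 1 (Nat.sqrt X)).card := card_image_le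
    _ = Nat.sqrt X := by simp

lemma J_mul_right {n m : ℕ} (hn : 0 < n) (hm : 0 < m) (x : ℤ) :
    J(x | n * m) = J(x | n) * J(x | m) := jacobiSym.mul_right' _ hn.ne' hm.ne'

/-- Sum over `x ≤ Y` of `J(x | n n')`. -/
lemma sum_pair_le {n n' X Y : ℕ} (hn : n ∈ (Icc 1 X).filter Odd) (hn' : n' ∈ (Icc 1 X).filter Odd) :
    |∑ x ∈ Icc 1 Y, (J(x | n) : ℝ) * J(x | n')| ≤
      (if IsSquare (n * n') then (Y : ℝ) else 0) + (X : ℝ) ^ 2 := by
  rw [mem_filter, mem_Icc] at hn hn'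
  have h1 : ∑ x ∈ Icc 1 Y, (J(x | n) : ℝ) * J(x | n') =
      ((∑ i ∈ range Y, J((1 + i : ℕ) | n * n') : ℤ) : ℝ) := by
    rw [Int.cast_sum, range_eq_Ico, sum_Ico_add (f := fun x : ℕ => ((J(x | n * n') : ℤ) : ℝ))]
    apply sum_congr
    · ext x
      simp only [mem_Icc, mem_Ico]
      omega
    · intro x _
      rw [J_mul_right hn.1.1 hn'.1.1]
      push_cast
      ring
  rw [h1, ← Int.cast_abs]
  by_cases hs : IsSquare (n * n')
  · rw [if_pos hs]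
    have h2 : |∑ i ∈ range Y, J((1 + i : ℕ) | n * n')| ≤ Y := by
      calc _ ≤ ∑ i ∈ range Y, |J((1 + i : ℕ) | n * n')| := abs_sum_le_sum_abs _ _
        _ ≤ ∑ i ∈ range Y, 1 := sum_le_sum (fun i _ => abs_jac_le _ _)
        _ = Y := by simp
    have h3 : (((|∑ i ∈ range Y, J((1 + i : ℕ) | n * n')| : ℤ)) : ℝ) ≤ Y := by exact_mod_cast h2
    have h4 : (0 : ℝ) ≤ (X : ℝ) ^ 2 := by positivity
    linarith
  · rw [if_neg hs, zero_add]
    have h2 := incomplete (hn.2.mul hn'.2) hs 1 Y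
    have h3 : ((n * n' : ℕ) : ℤ) ≤ (X : ℤ) ^ 2 := by
      have := Nat.mul_le_mul hn.1.2 hn'.1.2
      rw [sq]
      exact_mod_cast this
    have h4 := h2.trans h3
    exact_mod_cast h4

/-- Second moment of `F x = ∑ J(x | n)`. -/
lemma sum_F_sq (X Y : ℕ) :
    ∑ x ∈ Icc 1 Y, (∑ n ∈ (Icc 1 X).filter Odd, (J(x | n) : ℝ)) ^ 2 ≤
      (X : ℝ) * Nat.sqrt X * Y + (X : ℝ) ^ 4 := by
  have h1 : ∑ x ∈ Icc 1 Y, (∑ n ∈ (Icc 1 X).filter Odd, (J(x | n) : ℝ)) ^ 2 =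
      ∑ n ∈ (Icc 1 X).filter Odd, ∑ n' ∈ (Icc 1 X).filter Odd,
        ∑ x ∈ Icc 1 Y, (J(x | n) : ℝ) * J(x | n') := by
    simp_rw [sq, sum_mul_sum]
    rw [sum_comm]
    apply sum_congr rfl
    intro n _
    rw [sum_comm]
  rw [h1]
  have hX : (((Icc 1 X).filter Odd).card : ℝ) ≤ X := by
    have := card_filter_le (Icc 1 X) Odd
    rw [Nat.card_Icc, Nat.add_sub_cancel] at this
    exact_mod_cast this
  have h2 : ∀ n ∈ (Icc 1 X).filter Odd, ∑ n' ∈ (Icc 1 X).filter Odd,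
      ∑ x ∈ Icc 1 Y, (J(x | n) : ℝ) * J(x | n') ≤ Nat.sqrt X * Y + (X : ℝ) ^ 3 := by
    intro n hn
    calc _ ≤ ∑ n' ∈ (Icc 1 X).filter Odd,
          ((if IsSquare (n * n') then (Y : ℝ) else 0) + (X : ℝ) ^ 2) :=
          sum_le_sum (fun n' hn' => (le_abs_self _).trans (sum_pair_le hn hn'))
      _ = (∑ n' ∈ (Icc 1 X).filter Odd, (if IsSquare (n * n') then (Y : ℝ) else 0)) +
          ((Icc 1 X).filter Odd).card * (X : ℝ) ^ 2 := by
          rw [sum_add_distrib, sum_const, nsmul_eq_mul]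
      _ ≤ (∑ n' ∈ Icc 1 X, (if IsSquare (n * n') then (Y : ℝ) else 0)) + X * (X : ℝ) ^ 2 := by
          apply add_le_add _ (by gcongr)
          apply sum_le_sum_of_subset_of_nonneg (filter_subset _ _)
          intro i _ _
          split_ifs <;> positivity
      _ = ((Icc 1 X).filter (fun m => IsSquare (n * m))).card * (Y : ℝ) + (X : ℝ) ^ 3 := by
          rw [← sum_filter, sum_const, nsmul_eq_mul]
          ring
      _ ≤ _ := by
          have hn1 : 0 < n := by rw [mem_filter, mem_Icc] at hn; omega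
          have := count_sq X n hn1
          gcongr
  calc _ ≤ ∑ n ∈ (Icc 1 X).filter Odd, (Nat.sqrt X * Y + (X : ℝ) ^ 3) := sum_le_sum h2
    _ = ((Icc 1 X).filter Odd).card * (Nat.sqrt X * Y + (X : ℝ) ^ 3) := by
        rw [sum_const, nsmul_eq_mul]
    _ ≤ X * (Nat.sqrt X * Y + (X : ℝ) ^ 3) := by gcongr
    _ = _ := by ring

/-- The number of quadruples with a given product. -/
lemma count_quad (X x : ℕ) (hx : x ≠ 0) :
    ((((Icc 1 X ×ˢ Icc 1 X) ×ˢ (Icc 1 X ×ˢ Icc 1 X))).filter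
      (fun u => u.1.1 * u.1.2 * (u.2.1 * u.2.2) = x)).card ≤ x.divisors.card ^ 3 := by
  have h1 : x.divisors.card ^ 3 = ((x.divisors ×ˢ x.divisors) ×ˢ x.divisors).card := by
    rw [card_product, card_product]; ring
  rw [h1]
  apply card_le_card_of_injOn (fun u => ((u.1.1, u.1.2), u.2.1))
  · intro u hu
    simp only [coe_filter, Set.mem_setOf_eq, mem_product, mem_Icc] at hu
    simp only [coe_product, Set.mem_prod, mem_coe, Nat.mem_divisors]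
    refine ⟨⟨⟨?_, hx⟩, ⟨?_, hx⟩⟩, ?_, hx⟩
    · exact ⟨u.1.2 * (u.2.1 * u.2.2), by rw [← hu.2]; ring⟩
    · exact ⟨u.1.1 * (u.2.1 * u.2.2), by rw [← hu.2]; ring⟩
    · exact ⟨u.1.1 * u.1.2 * u.2.2, by rw [← hu.2]; ring⟩
  · rintro ⟨⟨a, b⟩, c, d⟩ hu ⟨⟨a', b'⟩, c', d'⟩ hv h
    simp only [coe_filter, Set.mem_setOf_eq, mem_product, mem_Icc] at hu hv
    simp only [Prod.mk.injEq] at h ⊢
    obtain ⟨⟨rfl, rfl⟩, rfl⟩ := h
    refine ⟨⟨rfl, rfl⟩, rfl, ?_⟩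
    have h2 : a * b * (c * d) = a * b * (c * d') := by rw [hu.2, hv.2]
    have h3 : 0 < a * b := by
      have := hu.1.1
      exact Nat.mul_pos (by omega) (by omega)
    have h4 := Nat.eq_of_mul_eq_mul_left h3 h2
    exact Nat.eq_of_mul_eq_mul_left (by omega) h4

/-- The fourth moment. -/
lemma fourth {X : ℕ} (hX : 1 ≤ X) {α : ℕ → ℝ} (hα : ∀ s, |α s| ≤ 1) {R : ℝ}
    (hR : ∀ x ∈ Icc 1 (X ^ 4), ((x.divisors.card : ℝ)) ^ 3 ≤ R) :
    ∑ n ∈ (Icc 1 X).filter Odd, (∑ s ∈ Icc 1 X, α s * (J(s | n) : ℝ)) ^ 4 ≤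
      Real.sqrt ((X : ℝ) ^ 4 * (R * ((X : ℝ) * Nat.sqrt X * (X : ℝ) ^ 4 + (X : ℝ) ^ 4))) := by
  set O := (Icc 1 X).filter Odd with hO
  set S := Icc 1 X with hS
  set T := (S ×ˢ S) ×ˢ (S ×ˢ S) with hT
  set F : ℕ → ℝ := fun x => ∑ n ∈ O, (J(x | n) : ℝ) with hF
  have hR0 : 0 ≤ R := le_trans (by positivity) (hR 1 (by
    rw [mem_Icc]; exact ⟨le_refl _, Nat.one_le_pow _ _ (by omega)⟩))
  have h1 : ∀ n, (∑ s ∈ S, α s * (J(s | n) : ℝ)) ^ 4 =
      ∑ u ∈ T, (α u.1.1 * α u.1.2 * (α u.2.1 * α u.2.2)) *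
        (J((u.1.1 * u.1.2 * (u.2.1 * u.2.2) : ℕ) | n) : ℝ) := by
    intro n
    have e1 : (∑ s ∈ S, α s * (J(s | n) : ℝ)) ^ 4 =
      ((∑ s ∈ S, α s * (J(s | n) : ℝ)) * (∑ s ∈ S, α s * (J(s | n) : ℝ))) *
      ((∑ s ∈ S, α s * (J(s | n) : ℝ)) * (∑ s ∈ S, α s * (J(s | n) : ℝ))) := by ring
    rw [e1, sum_mul_sum, ← sum_product', sum_mul_sum, ← sum_product']
    apply sum_congr rfl
    intro u _
    push_cast
    rw [jacobiSym.mul_left, jacobiSym.mul_left, jacobiSym.mul_left]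
    push_cast
    ring
  have h2 : ∑ n ∈ O, (∑ s ∈ S, α s * (J(s | n) : ℝ)) ^ 4 =
      ∑ u ∈ T, (α u.1.1 * α u.1.2 * (α u.2.1 * α u.2.2)) * F (u.1.1 * u.1.2 * (u.2.1 * u.2.2)) := by
    simp_rw [h1]
    rw [sum_comm]
    apply sum_congr rfl
    intro u _
    rw [hF, mul_sum]
  rw [h2]
  have h3 : ∑ u ∈ T, (α u.1.1 * α u.1.2 * (α u.2.1 * α u.2.2)) *
      F (u.1.1 * u.1.2 * (u.2.1 * u.2.2)) ≤ ∑ u ∈ T, |F (u.1.1 * u.1.2 * (u.2.1 * u.2.2))| := by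
    apply sum_le_sum
    intro u _
    refine (le_abs_self _).trans ?_
    rw [abs_mul]
    have : |α u.1.1 * α u.1.2 * (α u.2.1 * α u.2.2)| ≤ 1 := by
      rw [abs_mul, abs_mul, abs_mul]
      have a1 := hα u.1.1
      have a2 := hα u.1.2
      have a3 := hα u.2.1
      have a4 := hα u.2.2
      have b1 : |α u.1.1| * |α u.1.2| ≤ 1 := mul_le_one₀ a1 (abs_nonneg _) a2
      have b2 : |α u.2.1| * |α u.2.2| ≤ 1 := mul_le_one₀ a3 (abs_nonneg _) a4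
      exact mul_le_one₀ b1 (by positivity) b2
    calc _ ≤ 1 * |F (u.1.1 * u.1.2 * (u.2.1 * u.2.2))| :=
          mul_le_mul_of_nonneg_right this (abs_nonneg _)
      _ = _ := one_mul _
  refine h3.trans ?_
  apply Real.le_sqrt_of_sq_le
  have hTc : (T.card : ℝ) = (X : ℝ) ^ 4 := by
    rw [hT, card_product, card_product, hS, Nat.card_Icc, Nat.add_sub_cancel]
    push_cast; ring
  calc (∑ u ∈ T, |F (u.1.1 * u.1.2 * (u.2.1 * u.2.2))|) ^ 2 ≤
      T.card * ∑ u ∈ T, |F (u.1.1 * u.1.2 * (u.2.1 * u.2.2))| ^ 2 := sq_sum_le_card_mul_sum_sq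
    _ = (X : ℝ) ^ 4 * ∑ u ∈ T, F (u.1.1 * u.1.2 * (u.2.1 * u.2.2)) ^ 2 := by
        rw [hTc]; simp_rw [sq_abs]
    _ ≤ (X : ℝ) ^ 4 * (R * ∑ x ∈ Icc 1 (X ^ 4), F x ^ 2) := by
        apply mul_le_mul_of_nonneg_left _ (by positivity)
        have hmaps : ∀ u ∈ T, u.1.1 * u.1.2 * (u.2.1 * u.2.2) ∈ Icc 1 (X ^ 4) := by
          intro u hu
          rw [hT, mem_product, mem_product, mem_product] at hu
          simp only [hS, mem_Icc] at hu
          rw [mem_Icc]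
          constructor
          · have p1 : 0 < u.1.1 * u.1.2 := Nat.mul_pos (by omega) (by omega)
            have p2 : 0 < u.2.1 * u.2.2 := Nat.mul_pos (by omega) (by omega)
            exact Nat.mul_pos p1 p2
          · calc _ ≤ X * X * (X * X) := by
                  apply Nat.mul_le_mul
                  · exact Nat.mul_le_mul hu.1.1.2 hu.1.2.2
                  · exact Nat.mul_le_mul hu.2.1.2 hu.2.2.2
              _ = X ^ 4 := by ring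
        rw [← sum_fiberwise_of_maps_to hmaps, mul_sum]
        apply sum_le_sum
        intro x hx
        have hx0 : x ≠ 0 := by rw [mem_Icc] at hx; omega
        have e1 : ∑ u ∈ T with u.1.1 * u.1.2 * (u.2.1 * u.2.2) = x,
            F (u.1.1 * u.1.2 * (u.2.1 * u.2.2)) ^ 2 =
            ((T.filter (fun u => u.1.1 * u.1.2 * (u.2.1 * u.2.2) = x)).card : ℝ) * F x ^ 2 := by
          rw [← nsmul_eq_mul, ← sum_const]
          apply sum_congr rfl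
          intro u hu
          rw [(mem_filter.1 hu).2]
        rw [e1]
        apply mul_le_mul_of_nonneg_right _ (sq_nonneg _)
        refine le_trans ?_ (hR x hx)
        exact_mod_cast count_quad X x hx0
    _ ≤ _ := by
        apply mul_le_mul_of_nonneg_left _ (by positivity)
        apply mul_le_mul_of_nonneg_left _ hR0
        have := sum_F_sq X (X ^ 4)
        push_cast at this
        exact this

/-- **Bilinear bound.** -/
theorem bil : ∃ C : ℝ, 0 < C ∧ ∀ X : ℕ, 1 ≤ X → ∀ α : ℕ → ℝ, (∀ s, |α s| ≤ 1) →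
    ∑ n ∈ (Icc 1 X).filter Odd, |∑ s ∈ Icc 1 X, α s * (J(s | n) : ℝ)| ≤
      C * (X : ℝ) ^ (39 / 20 : ℝ) := by
  obtain ⟨K, hK1, hK⟩ := Pool.Agent.H.MP_3e6494_nt.T3Cnt.divisor_bound (1 / 120) (by norm_num)
  refine ⟨2 * K ^ (3 : ℕ), by positivity, fun X hX α hα => ?_⟩
  have hX1 : (1 : ℝ) ≤ X := by exact_mod_cast hX
  have hX0 : (0 : ℝ) < X := by linarith
  set O := (Icc 1 X).filter Odd with hO
  set R : ℝ := K ^ 3 * (X : ℝ) ^ (1 / 10 : ℝ) with hR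
  have hRb : ∀ x ∈ Icc 1 (X ^ 4), ((x.divisors.card : ℝ)) ^ 3 ≤ R := by
    intro x hx
    rw [mem_Icc] at hx
    have h1 := hK x (by omega)
    have h2 : (x : ℝ) ^ (1 / 120 : ℝ) ≤ (X : ℝ) ^ (1 / 30 : ℝ) := by
      calc (x : ℝ) ^ (1 / 120 : ℝ) ≤ ((X : ℝ) ^ (4 : ℕ)) ^ (1 / 120 : ℝ) := by
            apply Real.rpow_le_rpow (Nat.cast_nonneg _) _ (by norm_num)
            exact_mod_cast hx.2
        _ = _ := by
            rw [← Real.rpow_natCast, ← Real.rpow_mul hX0.le]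
            norm_num
    calc ((x.divisors.card : ℝ)) ^ 3 ≤ (K * (X : ℝ) ^ (1 / 30 : ℝ)) ^ 3 := by
          apply pow_le_pow_left₀ (Nat.cast_nonneg _)
          refine h1.trans ?_
          gcongr
      _ = R := by
          rw [mul_pow, ← Real.rpow_natCast ((X : ℝ) ^ (1 / 30 : ℝ)), ← Real.rpow_mul hX0.le, hR]
          norm_num
  have h4 := fourth hX hα hRb
  set A : ℕ → ℝ := fun n => ∑ s ∈ Icc 1 X, α s * (J(s | n) : ℝ) with hA
  have hcard : (O.card : ℝ) ≤ X := by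
    have := card_filter_le (Icc 1 X) Odd
    rw [Nat.card_Icc, Nat.add_sub_cancel] at this
    exact_mod_cast this
  -- Cauchy-Schwarz twice
  have hcs1 : (∑ n ∈ O, |A n|) ^ 2 ≤ X * ∑ n ∈ O, A n ^ 2 := by
    calc _ ≤ O.card * ∑ n ∈ O, |A n| ^ 2 := sq_sum_le_card_mul_sum_sq
      _ ≤ X * ∑ n ∈ O, |A n| ^ 2 := by
          apply mul_le_mul_of_nonneg_right hcard (sum_nonneg (fun _ _ => by positivity))
      _ = _ := by simp_rw [sq_abs]
  have hcs2 : (∑ n ∈ O, A n ^ 2) ^ 2 ≤ X * ∑ n ∈ O, A n ^ 4 := by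
    calc _ ≤ O.card * ∑ n ∈ O, (A n ^ 2) ^ 2 := sq_sum_le_card_mul_sum_sq
      _ ≤ X * ∑ n ∈ O, (A n ^ 2) ^ 2 := by
          apply mul_le_mul_of_nonneg_right hcard (sum_nonneg (fun _ _ => by positivity))
      _ = _ := by simp_rw [← pow_mul]
  have hcs : (∑ n ∈ O, |A n|) ^ 4 ≤ X ^ 3 * ∑ n ∈ O, A n ^ 4 := by
    calc (∑ n ∈ O, |A n|) ^ 4 = ((∑ n ∈ O, |A n|) ^ 2) ^ 2 := by ring
      _ ≤ (X * ∑ n ∈ O, A n ^ 2) ^ 2 := by
          apply pow_le_pow_left₀ (sq_nonneg _) hcs1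
      _ = X ^ 2 * (∑ n ∈ O, A n ^ 2) ^ 2 := by ring
      _ ≤ X ^ 2 * (X * ∑ n ∈ O, A n ^ 4) := by gcongr
      _ = _ := by ring
  have hsq : ((Nat.sqrt X : ℕ) : ℝ) ≤ (X : ℝ) ^ (1 / 2 : ℝ) := by
    rw [← Real.sqrt_eq_rpow]
    exact Real.nat_sqrt_le_real_sqrt
  have hin : (X : ℝ) ^ 4 * (R * ((X : ℝ) * Nat.sqrt X * (X : ℝ) ^ 4 + (X : ℝ) ^ 4)) ≤
      (2 * K ^ 3) * (X : ℝ) ^ (48 / 5 : ℝ) := by
    have e1 : (X : ℝ) ^ 4 ≤ (X : ℝ) ^ (11 / 2 : ℝ) := by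
      rw [← Real.rpow_natCast]
      apply Real.rpow_le_rpow_of_exponent_le hX1
      norm_num
    have e2 : (X : ℝ) * Nat.sqrt X * (X : ℝ) ^ 4 ≤ (X : ℝ) ^ (11 / 2 : ℝ) := by
      calc (X : ℝ) * Nat.sqrt X * (X : ℝ) ^ 4 ≤ (X : ℝ) * (X : ℝ) ^ (1 / 2 : ℝ) * (X : ℝ) ^ 4 := by
            gcongr
        _ = (X : ℝ) ^ (1 : ℝ) * (X : ℝ) ^ (1 / 2 : ℝ) * (X : ℝ) ^ ((4 : ℕ) : ℝ) := by
            rw [Real.rpow_one, Real.rpow_natCast]
        _ = _ := by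
            rw [← Real.rpow_add hX0, ← Real.rpow_add hX0]
            norm_num
    calc (X : ℝ) ^ 4 * (R * ((X : ℝ) * Nat.sqrt X * (X : ℝ) ^ 4 + (X : ℝ) ^ 4)) ≤
        (X : ℝ) ^ 4 * (R * ((X : ℝ) ^ (11 / 2 : ℝ) + (X : ℝ) ^ (11 / 2 : ℝ))) := by
          have hR0 : 0 ≤ R := by positivity
          gcongr
      _ = (2 * K ^ 3) * ((X : ℝ) ^ ((4 : ℕ) : ℝ) * ((X : ℝ) ^ (1 / 10 : ℝ) * (X : ℝ) ^ (11 / 2 : ℝ))) := by
          rw [hR, Real.rpow_natCast]; ring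
      _ = _ := by
          rw [← Real.rpow_add hX0, ← Real.rpow_add hX0]
          norm_num
  have h5 : ∑ n ∈ O, A n ^ 4 ≤ (2 * K ^ 3) * (X : ℝ) ^ (24 / 5 : ℝ) := by
    refine h4.trans ?_
    apply Real.sqrt_le_iff.2
    refine ⟨by positivity, hin.trans ?_⟩
    have e3 : ((2 * K ^ 3) * (X : ℝ) ^ (24 / 5 : ℝ)) ^ 2 =
        (2 * K ^ 3) * (2 * K ^ 3) * (X : ℝ) ^ (48 / 5 : ℝ) := by
      have e4 : ((X : ℝ) ^ (24 / 5 : ℝ)) ^ 2 = (X : ℝ) ^ (48 / 5 : ℝ) := by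
        rw [← Real.rpow_natCast ((X : ℝ) ^ (24 / 5 : ℝ)), ← Real.rpow_mul hX0.le]
        norm_num
      rw [mul_pow, e4]
      ring
    rw [e3]
    have hK3 : 1 ≤ K ^ 3 := one_le_pow₀ hK1
    have : (1 : ℝ) ≤ 2 * K ^ 3 := by linarith
    calc (2 * K ^ 3) * (X : ℝ) ^ (48 / 5 : ℝ) = 1 * ((2 * K ^ 3) * (X : ℝ) ^ (48 / 5 : ℝ)) := by ring
      _ ≤ (2 * K ^ 3) * ((2 * K ^ 3) * (X : ℝ) ^ (48 / 5 : ℝ)) := by gcongr
      _ = _ := by ring
  have h6 : (∑ n ∈ O, |A n|) ^ 4 ≤ ((2 * K ^ 3) * (X : ℝ) ^ (39 / 20 : ℝ)) ^ 4 := by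
    have hK3 : 1 ≤ K ^ 3 := one_le_pow₀ hK1
    have h7 : (1 : ℝ) ≤ 2 * K ^ 3 := by linarith
    calc (∑ n ∈ O, |A n|) ^ 4 ≤ X ^ 3 * ((2 * K ^ 3) * (X : ℝ) ^ (24 / 5 : ℝ)) := by
          refine hcs.trans ?_
          gcongr
      _ = (2 * K ^ 3) * ((X : ℝ) ^ ((3 : ℕ) : ℝ) * (X : ℝ) ^ (24 / 5 : ℝ)) := by
          rw [Real.rpow_natCast]; ring
      _ = (2 * K ^ 3) * (X : ℝ) ^ (39 / 5 : ℝ) := by
          rw [← Real.rpow_add hX0]; norm_num
      _ ≤ (2 * K ^ 3) ^ 4 * (X : ℝ) ^ (39 / 5 : ℝ) := by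
          apply mul_le_mul_of_nonneg_right _ (by positivity)
          exact le_self_pow₀ h7 (by norm_num)
      _ = _ := by
          have e4 : ((X : ℝ) ^ (39 / 20 : ℝ)) ^ 4 = (X : ℝ) ^ (39 / 5 : ℝ) := by
            rw [← Real.rpow_natCast ((X : ℝ) ^ (39 / 20 : ℝ)), ← Real.rpow_mul hX0.le]
            norm_num
          rw [mul_pow _ ((X : ℝ) ^ (39 / 20 : ℝ)), e4]
  exact le_of_pow_le_pow_left₀ (by norm_num) (by positivity) h6

end Pool.Agent.H.MP_0ec261_nt
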