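import Pool.Agent.H.MP_0ec261_nt.Buch

/-!
The sum over one block of rough composite numbers.
-/

open Finset NumberTheorySymbols

namespace Pool.Agent.H.MP_0ec261_nt

/-- the class of the block -/
noncomputable def Cb (X t k l a : ℕ) : Finset ℕ := (Cmp (2 ^ t) X).filter (fun m => gb k m = (l, a))

/-- ordered pairs of primes of the block dividing `m` -/
def PP (k l a m : ℕ) : Finset (ℕ × ℕ) :=
  (Ib k l a ×ˢ Ib k l a).filter (fun p => p.1 < p.2 ∧ p.1 ∣ m ∧ p.2 ∣ m)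

/-- number of representations minus one -/
lemma card_rep_le {k l a m : ℕ} (hm : m ≠ 0) (𝒦 : Finset ℕ) :
    ((Ib k l a ×ˢ 𝒦).filter (fun p => p.1 * p.2 = m)).card ≤ (PP k l a m).card + 1 := by
  set A := (Ib k l a).filter (fun r => r ∣ m) with hA
  have h1 : ((Ib k l a ×ˢ 𝒦).filter (fun p => p.1 * p.2 = m)).card ≤ A.card := by
    apply card_le_card_of_injOn (fun p => p.1)
    · intro p hp
      simp only [coe_filter, Set.mem_setOf_eq, mem_product] at hp
      simp only [hA, coe_filter, Set.mem_setOf_eq]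
      exact ⟨hp.1.1, ⟨p.2, hp.2.symm⟩⟩
    · rintro ⟨r, q⟩ hp ⟨r', q'⟩ hp' he
      simp only [coe_filter, Set.mem_setOf_eq, mem_product] at hp hp' he
      subst he
      have h2 : r * q = r * q' := by rw [hp.2, hp'.2]
      have hr : 0 < r := (mem_Ib.1 hp.1.1).2.pos
      rw [Nat.eq_of_mul_eq_mul_left hr h2]
  refine h1.trans ?_
  rcases A.eq_empty_or_nonempty with h0 | h0
  · rw [h0]; simp
  set r0 := A.min' h0 with hr0
  have hr0A : r0 ∈ A := A.min'_mem h0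
  have h2 : (A.erase r0).card ≤ (PP k l a m).card := by
    apply card_le_card_of_injOn (fun r => (r0, r))
    · intro r hr
      simp only [coe_erase, Set.mem_diff, mem_coe, Set.mem_singleton_iff] at hr
      have hlt : r0 < r := lt_of_le_of_ne (A.min'_le r hr.1) (Ne.symm hr.2)
      simp only [PP, coe_filter, Set.mem_setOf_eq, mem_product]
      rw [hA, mem_filter] at hr hr0A
      exact ⟨⟨hr0A.1, hr.1.1⟩, hlt, hr0A.2, hr.1.2⟩
    · intro r _ r' _ h
      simpa using h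
  rw [card_erase_of_mem hr0A] at h2
  omega

/-- average number of pairs -/
lemma sum_PP {X k l a : ℕ} (ha : 0 < a) :
    ∑ m ∈ Icc 1 X, ((PP k l a m).card : ℝ) ≤ (X : ℝ) / (a : ℝ) ^ 2 := by
  set R := a * 2 ^ (l - k) with hR
  set K := 2 ^ (l - k) with hK
  have hK0 : 0 < K := by positivity
  have hR0 : 0 < R := Nat.mul_pos ha hK0
  have h1 : ∑ m ∈ Icc 1 X, ((PP k l a m).card : ℝ) =
      ∑ p ∈ (Ib k l a ×ˢ Ib k l a).filter (fun p => p.1 < p.2),
        (((Icc 1 X).filter (fun m => p.1 ∣ m ∧ p.2 ∣ m)).card : ℝ) := by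
    unfold PP
    simp_rw [← filter_filter (fun p : ℕ × ℕ => p.1 < p.2)]
    simp_rw [card_filter]
    push_cast
    rw [sum_comm]
  rw [h1]
  have h2 : ∀ p ∈ (Ib k l a ×ˢ Ib k l a).filter (fun p => p.1 < p.2),
      (((Icc 1 X).filter (fun m => p.1 ∣ m ∧ p.2 ∣ m)).card : ℝ) ≤ (X : ℝ) / (R : ℝ) ^ 2 := by
    intro p hp
    rw [mem_filter, mem_product, mem_Ib, mem_Ib] at hp
    have hcop : Nat.Coprime p.1 p.2 := (Nat.coprime_primes hp.1.1.2 hp.1.2.2).2 (by omega)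
    have hsub : (Icc 1 X).filter (fun m => p.1 ∣ m ∧ p.2 ∣ m) ⊆ (Ioc 0 X).filter (fun m => p.1 * p.2 ∣ m) := by
      intro m hm
      rw [mem_filter, mem_Icc] at hm
      rw [mem_filter, mem_Ioc]
      exact ⟨by omega, hcop.mul_dvd_of_dvd_of_dvd hm.2.1 hm.2.2⟩
    have h3 := card_le_card hsub
    rw [Nat.Ioc_filter_dvd_card_eq_div] at h3
    have hpR : (R : ℝ) ^ 2 ≤ ((p.1 * p.2 : ℕ) : ℝ) := by
      have : R * R ≤ p.1 * p.2 := Nat.mul_le_mul hp.1.1.1.1 hp.1.2.1.1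
      rw [sq]
      exact_mod_cast this
    have hR0' : (0 : ℝ) < (R : ℝ) ^ 2 := by
      have : (0 : ℝ) < R := by exact_mod_cast hR0
      positivity
    calc (((Icc 1 X).filter (fun m => p.1 ∣ m ∧ p.2 ∣ m)).card : ℝ) ≤ ((X / (p.1 * p.2) : ℕ) : ℝ) := by
          exact_mod_cast h3
      _ ≤ (X : ℝ) / ((p.1 * p.2 : ℕ) : ℝ) := Nat.cast_div_le
      _ ≤ _ := by
          apply div_le_div_of_nonneg_left (Nat.cast_nonneg _) hR0' hpR
  calc _ ≤ ∑ p ∈ (Ib k l a ×ˢ Ib k l a).filter (fun p => p.1 < p.2), (X : ℝ) / (R : ℝ) ^ 2 :=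
        sum_le_sum h2
    _ = (((Ib k l a ×ˢ Ib k l a).filter (fun p => p.1 < p.2)).card : ℝ) * ((X : ℝ) / (R : ℝ) ^ 2) := by
        rw [sum_const, nsmul_eq_mul]
    _ ≤ ((K : ℝ) * K) * ((X : ℝ) / (R : ℝ) ^ 2) := by
        apply mul_le_mul_of_nonneg_right _ (by positivity)
        have h4 : (Ib k l a).card ≤ K := by
          unfold Ib
          refine (card_filter_le _ _).trans ?_
          rw [Nat.card_Ico]
          omega
        have h5 : ((Ib k l a ×ˢ Ib k l a).filter (fun p => p.1 < p.2)).card ≤ K * K := by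
          refine (card_filter_le _ _).trans ?_
          rw [card_product]
          exact Nat.mul_le_mul h4 h4
        exact_mod_cast h5
    _ = _ := by
        rw [hR]
        have hK0' : (0 : ℝ) < K := by exact_mod_cast hK0
        have ha0 : (0 : ℝ) < a := by exact_mod_cast ha
        push_cast
        field_simp

namespace Dt
variable {X S : ℕ} {b : ℕ → ℝ} {c : ℤ → ℝ} (D : Dt X S b c)
include D

/-- passage to the bilinear sum -/
lemma block_le {t k l a : ℕ} (hkt : k ≤ t) (ht : 2 ≤ t) (htl : t ≤ l) (ha : 2 ^ k ≤ a)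
    (ha' : a < 2 ^ (k + 1)) :
    |∑ m ∈ Cb X t k l a, ww X b c m| ≤
      |∑ p ∈ Ib k l a ×ˢ Kb X (a * 2 ^ (l - k)), ww X b c (p.1 * p.2)| + (X : ℝ) ^ 2 / (a : ℝ) ^ 2 := by
  have ha0 : 0 < a := lt_of_lt_of_le (by positivity) ha
  set 𝒦 := Kb X (a * 2 ^ (l - k)) with h𝒦
  set N : ℕ → ℕ := fun m => ((Ib k l a ×ˢ 𝒦).filter (fun p => p.1 * p.2 = m)).card with hN
  have hr2 : ∀ r ∈ Ib k l a, r ≠ 2 := by
    intro r hr
    rw [mem_Ib] at hr
    have h1 : 2 ^ l ≤ a * 2 ^ (l - k) := by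
      calc 2 ^ l = 2 ^ k * 2 ^ (l - k) := by rw [← pow_add]; congr 1; omega
        _ ≤ a * 2 ^ (l - k) := Nat.mul_le_mul_right _ ha
    have h2 : 2 ^ 2 ≤ 2 ^ l := Nat.pow_le_pow_right (by norm_num) (by omega)
    omega
  have e1 : ∑ p ∈ Ib k l a ×ˢ 𝒦, ww X b c (p.1 * p.2) = ∑ m ∈ Cb X t k l a, (N m : ℝ) * ww X b c m := by
    have e2 : ∑ p ∈ Ib k l a ×ˢ 𝒦, ww X b c (p.1 * p.2) =
        ∑ p ∈ (Ib k l a ×ˢ 𝒦).filter (fun p => p.1 * p.2 ≤ X), ww X b c (p.1 * p.2) := by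
      symm
      apply sum_filter_of_ne
      intro p _ hne
      by_contra hlt
      push Not at hlt
      exact hne (D.ww_zero hlt)
    have hmaps : ∀ p ∈ (Ib k l a ×ˢ 𝒦).filter (fun p => p.1 * p.2 ≤ X), p.1 * p.2 ∈ Cb X t k l a := by
      intro p hp
      rw [mem_filter, mem_product] at hp
      have := prod_block (t := t) (by omega : k ≤ l) htl ha ha' hp.1.1 hp.1.2 hp.2 (hr2 _ hp.1.1)
      unfold Cb
      rw [mem_filter]
      exact this
    rw [e2, ← sum_fiberwise_of_maps_to hmaps]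
    apply sum_congr rfl
    intro m hm
    have hmX : m ≤ X := by
      unfold Cb at hm
      rw [mem_filter, mem_Cmp] at hm
      exact hm.1.1.2
    have e3 : ((Ib k l a ×ˢ 𝒦).filter (fun p => p.1 * p.2 ≤ X)).filter (fun p => p.1 * p.2 = m) =
        (Ib k l a ×ˢ 𝒦).filter (fun p => p.1 * p.2 = m) := by
      ext p
      simp only [mem_filter]
      constructor
      · rintro ⟨⟨h1, _⟩, h2⟩; exact ⟨h1, h2⟩
      · rintro ⟨h1, h2⟩; exact ⟨⟨h1, by omega⟩, h2⟩
    rw [e3, hN]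
    simp only
    rw [← nsmul_eq_mul, ← sum_const]
    apply sum_congr rfl
    intro p hp
    rw [(mem_filter.1 hp).2]
  have hN1 : ∀ m ∈ Cb X t k l a, 1 ≤ N m := by
    intro m hm
    unfold Cb at hm
    rw [mem_filter] at hm
    have h1 := rep_block hkt hm.1 hm.2
    rw [hN]
    simp only
    apply card_pos.2
    refine ⟨(m.minFac, m / m.minFac), ?_⟩
    rw [mem_filter, mem_product]
    exact ⟨⟨h1.1, h1.2.1⟩, h1.2.2.1⟩
  have e4 : ∑ m ∈ Cb X t k l a, ww X b c m = ∑ p ∈ Ib k l a ×ˢ 𝒦, ww X b c (p.1 * p.2) -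
      ∑ m ∈ Cb X t k l a, ((N m : ℝ) - 1) * ww X b c m := by
    rw [e1, ← sum_sub_distrib]
    apply sum_congr rfl
    intro m _
    ring
  rw [e4]
  refine (abs_sub _ _).trans ?_
  apply add_le_add (le_refl _)
  calc |∑ m ∈ Cb X t k l a, ((N m : ℝ) - 1) * ww X b c m| ≤
      ∑ m ∈ Cb X t k l a, |((N m : ℝ) - 1) * ww X b c m| := abs_sum_le_sum_abs _ _
    _ ≤ ∑ m ∈ Cb X t k l a, ((PP k l a m).card : ℝ) * X := by
        apply sum_le_sum
        intro m hm
        have h1 := hN1 m hm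
        have hm0 : m ≠ 0 := by
          unfold Cb at hm
          rw [mem_filter, mem_Cmp] at hm
          omega
        have h2 := card_rep_le (k := k) (l := l) (a := a) hm0 𝒦
        have h3 : (1 : ℝ) ≤ N m := by exact_mod_cast h1
        have h4 : (N m : ℝ) ≤ (PP k l a m).card + 1 := by exact_mod_cast h2
        rw [abs_mul, abs_of_nonneg (by linarith)]
        apply mul_le_mul (by linarith) (D.abs_ww m) (abs_nonneg _) (Nat.cast_nonneg _)
    _ ≤ ∑ m ∈ Icc 1 X, ((PP k l a m).card : ℝ) * X := by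
        apply sum_le_sum_of_subset_of_nonneg
        · intro m hm
          unfold Cb at hm
          rw [mem_filter, mem_Cmp] at hm
          rw [mem_Icc]
          exact hm.1.1
        · intro i _ _; positivity
    _ = (∑ m ∈ Icc 1 X, ((PP k l a m).card : ℝ)) * X := by rw [sum_mul]
    _ ≤ ((X : ℝ) / (a : ℝ) ^ 2) * X := by
        apply mul_le_mul_of_nonneg_right (sum_PP ha0) (Nat.cast_nonneg _)
    _ = _ := by ring

/-- the bilinear sum of a block -/
lemma block_bil {k l a : ℕ} (hkl : k ≤ l) (hl : 2 ≤ l) (ha : 2 ^ k ≤ a)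
    (hRX : (a * 2 ^ (l - k)) * (a * 2 ^ (l - k)) ≤ X) :
    (∑ p ∈ Ib k l a ×ˢ Kb X (a * 2 ^ (l - k)), ww X b c (p.1 * p.2)) ^ 2 ≤
      8 * (Real.sqrt (Real.sqrt ((2 ^ (l - k) : ℕ) : ℝ))) ^ 5 * (1 + Real.log X) * (X : ℝ) ^ 4 /
        (Real.sqrt ((a * 2 ^ (l - k) : ℕ) : ℝ)) ^ 3 := by
  set R := a * 2 ^ (l - k) with hR
  set K := 2 ^ (l - k) with hK
  have ha0 : 0 < a := lt_of_lt_of_le (by positivity) ha
  have hK0 : 0 < K := by positivity
  have hlow : 2 ^ l ≤ R := by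
    calc 2 ^ l = 2 ^ k * 2 ^ (l - k) := by rw [← pow_add]; congr 1; omega
      _ ≤ a * 2 ^ (l - k) := Nat.mul_le_mul_right _ ha
  have h4 : 2 ^ 2 ≤ 2 ^ l := Nat.pow_le_pow_right (by norm_num) hl
  have DD : Dat X (X / R) R K c (Kb X R) (Ib k l a) := by
    refine ⟨D.hc, ?_, ?_, ?_, by omega, ?_, hRX, hK0, Nat.div_mul_le_self _ _⟩
    · intro n hn
      have := D.hc0 n hn
      refine ⟨by omega, this.2.1, this.2.2⟩
    · intro q hq
      rw [mem_Kb] at hq
      exact ⟨hq.2.1, hq.1.2⟩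
    · intro r hr
      rw [mem_Ib] at hr
      exact ⟨hr.2, hr.1.1, hr.1.2⟩
    · exact Nat.le_mul_of_pos_left _ ha0
  have h := DD.typeII (γ := fun q s => b s.toNat * (J(s | q) : ℝ)) (by
    intro q s
    rw [abs_mul]
    exact mul_le_one₀ (D.hb _) (abs_nonneg _) (abs_J_real _ _))
  have e : ∑ q ∈ Kb X R, ∑ s ∈ Icc (1 : ℤ) X, (b s.toNat * (J(s | q) : ℝ)) *
      ∑ r ∈ Ib k l a, (J(s | r) : ℝ) * c (r * q + 2 * s) =
      ∑ p ∈ Ib k l a ×ˢ Kb X R, ww X b c (p.1 * p.2) := by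
    rw [sum_product_right]
    apply sum_congr rfl
    intro q hq
    rw [mem_Kb] at hq
    rw [sum_Icc_cast]
    unfold ww
    rw [sum_comm]
    apply sum_congr rfl
    intro s _
    rw [mul_sum]
    apply sum_congr rfl
    intro r hr
    rw [mem_Ib] at hr
    rw [J_mul_right hr.2.pos (by omega)]
    push_cast
    simp only [Int.toNat_natCast]
    ring
  rw [e] at h
  exact h

end Dt

end Pool.Agent.H.MP_0ec261_nt
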