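import Pool.Agent.H.MP_0ec261_nt.Jac

/-!
Sums of `J(n | p q)` over intervals, `p ≠ q` odd primes, by the correlation method.
-/

open Finset NumberTheorySymbols

namespace Pool.Agent.H.MP_0ec261_nt

section
variable {p : ℕ} [Fact p.Prime]

lemma ringChar_ne (hp2 : p ≠ 2) : ringChar (ZMod p) ≠ 2 := by
  rw [ZMod.ringChar_zmod_n]; exact hp2

lemma corr_ne (hp2 : p ≠ 2) {k : ZMod p} (hk : k ≠ 0) :
    ∑ y : ZMod p, quadraticChar (ZMod p) y * quadraticChar (ZMod p) (y + k) = -1 := by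
  set χ := quadraticChar (ZMod p) with hχ
  have h1 : χ ≠ 1 := quadraticChar_ne_one (ringChar_ne hp2)
  have h2 : χ⁻¹ = χ := (quadraticChar_isQuadratic (ZMod p)).inv
  have h3 : jacobiSum χ χ = - χ (-1) := by
    have := jacobiSum_nontrivial_inv h1
    rwa [h2] at this
  have hu : IsUnit (-k) := by
    rw [isUnit_iff_ne_zero]; exact neg_ne_zero.2 hk
  obtain ⟨u, hu'⟩ := hu
  have h4 : ∑ y : ZMod p, χ y * χ (y + k) = ∑ x : ZMod p, χ ((u : ZMod p) * x) * χ ((u : ZMod p) * x + k) :=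
    (Equiv.sum_comp (Units.mulLeft u) (fun y => χ y * χ (y + k))).symm
  rw [h4]
  have h5 : ∀ x : ZMod p, χ ((u : ZMod p) * x) * χ ((u : ZMod p) * x + k) =
      χ (-1) * (χ x * χ (1 - x)) := by
    intro x
    rw [hu']
    have e1 : -k * x + k = k * (1 - x) := by ring
    have e2 : -k * x = (-1) * (k * x) := by ring
    rw [e1, e2, map_mul, map_mul, map_mul]
    have e3 : χ k * χ k = 1 := by
      have := quadraticChar_sq_one hk
      rw [← hχ] at this
      rw [← sq]; exact this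
    calc χ (-1) * (χ k * χ x) * (χ k * χ (1 - x)) = (χ k * χ k) * (χ (-1) * (χ x * χ (1 - x))) := by
          ring
      _ = _ := by rw [e3, one_mul]
  rw [sum_congr rfl (fun x _ => h5 x), ← mul_sum]
  have h6 : ∑ x : ZMod p, χ x * χ (1 - x) = jacobiSum χ χ := rfl
  rw [h6, h3]
  have h7 : χ (-1) * χ (-1) = 1 := by
    have : (-1 : ZMod p) ≠ 0 := neg_ne_zero.2 one_ne_zero
    have := quadraticChar_sq_one this
    rw [← hχ] at this
    rw [← sq]; exact this
  linarith

lemma corr_self : ∑ y : ZMod p, quadraticChar (ZMod p) y * quadraticChar (ZMod p) y ≤ p := by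
  calc _ ≤ ∑ y : ZMod p, (1 : ℤ) := by
        apply sum_le_sum
        intro y _
        rcases quadraticChar_isQuadratic (ZMod p) y with h | h | h <;> rw [h] <;> norm_num
    _ = p := by simp [ZMod.card]

lemma corr_self_nonneg : 0 ≤ ∑ y : ZMod p, quadraticChar (ZMod p) y * quadraticChar (ZMod p) y :=
  sum_nonneg (fun _ _ => mul_self_nonneg _)

/-- Shifted correlation. -/
lemma corr_shift (a b : ZMod p) :
    ∑ y : ZMod p, quadraticChar (ZMod p) (y + a) * quadraticChar (ZMod p) (y + b) =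
      ∑ y : ZMod p, quadraticChar (ZMod p) y * quadraticChar (ZMod p) (y + (b - a)) := by
  rw [← Equiv.sum_comp (Equiv.addRight a)
    (fun y => quadraticChar (ZMod p) y * quadraticChar (ZMod p) (y + (b - a)))]
  apply sum_congr rfl
  intro y _
  simp only [Equiv.coe_addRight]
  congr 2
  ring

end

lemma jac_eq_char {p : ℕ} [Fact p.Prime] (a : ℕ) :
    J((a : ℕ) | p) = quadraticChar (ZMod p) ((a : ℕ) : ZMod p) := by
  rw [← jacobiSym.legendreSym.to_jacobiSym, legendreSym]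
  congr 1
  exact Int.cast_natCast a

/-- Chinese remainder for sums. -/
lemma sum_crt {p q : ℕ} (hp : 0 < p) (hq : 0 < q) (hpq : Nat.Coprime p q) [NeZero p] [NeZero q]
    (f : ZMod p → ℤ) (g : ZMod q → ℤ) :
    ∑ y ∈ range (p * q), f (y : ZMod p) * g (y : ZMod q) = (∑ y, f y) * ∑ y, g y := by
  rw [Finset.sum_mul_sum, ← Finset.sum_product', ← Fin.sum_univ_eq_sum_range
    (fun y => f (y : ZMod p) * g (y : ZMod q)) (p * q)]
  apply Fintype.sum_bijective (fun i : Fin (p * q) => (((i : ℕ) : ZMod p), ((i : ℕ) : ZMod q)))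
  · rw [Fintype.bijective_iff_injective_and_card]
    constructor
    · intro i j hij
      simp only [Prod.mk.injEq] at hij
      rw [ZMod.natCast_eq_natCast_iff, ZMod.natCast_eq_natCast_iff] at hij
      have := (Nat.modEq_and_modEq_iff_modEq_mul hpq).1 hij
      have h1 := Nat.ModEq.eq_of_lt_of_lt this i.2 j.2
      exact Fin.ext h1
    · simp [ZMod.card]
  · intro i
    rfl

/-- second moment of the window sums over a period -/
lemma window {p q : ℕ} (hp : p.Prime) (hq : q.Prime) (hp2 : p ≠ 2) (hq2 : q ≠ 2) (hpq : p ≠ q)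
    {H : ℕ} (hHp : H ≤ p) (hHq : H ≤ q) :
    ∑ y ∈ range (p * q), (∑ h ∈ range H, J((y + h : ℕ) | p) * J((y + h : ℕ) | q)) ^ 2 ≤
      (H : ℤ) * (p * q) + H ^ 2 := by
  have fp : Fact p.Prime := ⟨hp⟩
  have fq : Fact q.Prime := ⟨hq⟩
  have hcop : Nat.Coprime p q := (Nat.coprime_primes hp hq).2 hpq
  have np : NeZero p := ⟨hp.ne_zero⟩
  have nq : NeZero q := ⟨hq.ne_zero⟩
  have h1 : ∑ y ∈ range (p * q), (∑ h ∈ range H, J((y + h : ℕ) | p) * J((y + h : ℕ) | q)) ^ 2 =
      ∑ h ∈ range H, ∑ h' ∈ range H,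
        ((∑ y : ZMod p, quadraticChar (ZMod p) (y + (h : ZMod p)) * quadraticChar (ZMod p) (y + (h' : ZMod p))) *
        (∑ y : ZMod q, quadraticChar (ZMod q) (y + (h : ZMod q)) * quadraticChar (ZMod q) (y + (h' : ZMod q)))) := by
    have e0 : ∀ y, (∑ h ∈ range H, J((y + h : ℕ) | p) * J((y + h : ℕ) | q)) ^ 2 =
        ∑ h ∈ range H, ∑ h' ∈ range H, (J((y + h : ℕ) | p) * J((y + h : ℕ) | q)) *
          (J((y + h' : ℕ) | p) * J((y + h' : ℕ) | q)) := by
      intro y
      rw [sq, sum_mul_sum]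
    rw [sum_congr rfl (fun y _ => e0 y), sum_comm]
    apply sum_congr rfl
    intro h _
    rw [sum_comm]
    apply sum_congr rfl
    intro h' _
    rw [← sum_crt hp.pos hq.pos hcop]
    apply sum_congr rfl
    intro y _
    rw [jac_eq_char, jac_eq_char, jac_eq_char, jac_eq_char]
    push_cast
    ring
  rw [h1]
  have h2 : ∀ h ∈ range H, ∀ h' ∈ range H,
      ((∑ y : ZMod p, quadraticChar (ZMod p) (y + (h : ZMod p)) * quadraticChar (ZMod p) (y + (h' : ZMod p))) *
        (∑ y : ZMod q, quadraticChar (ZMod q) (y + (h : ZMod q)) * quadraticChar (ZMod q) (y + (h' : ZMod q)))) ≤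
      (if h = h' then ((p : ℤ) * q) else 0) + 1 := by
    intro h hh h' hh'
    rw [mem_range] at hh hh'
    rw [corr_shift, corr_shift]
    by_cases he : h = h'
    · subst he
      rw [if_pos rfl, sub_self, sub_self]
      simp only [add_zero]
      have a1 := corr_self (p := p)
      have a2 := corr_self (p := q)
      have a3 := corr_self_nonneg (p := p)
      have a4 := corr_self_nonneg (p := q)
      have : (∑ y : ZMod p, quadraticChar (ZMod p) y * quadraticChar (ZMod p) y) *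
        (∑ y : ZMod q, quadraticChar (ZMod q) y * quadraticChar (ZMod q) y) ≤ (p : ℤ) * q :=
        mul_le_mul a1 a2 a4 (by positivity)
      linarith
    · rw [if_neg he]
      have b1 : ((h' : ℕ) : ZMod p) - (h : ZMod p) ≠ 0 := by
        rw [sub_ne_zero]
        intro hc
        rw [ZMod.natCast_eq_natCast_iff] at hc
        have := Nat.ModEq.eq_of_lt_of_lt hc (by omega) (by omega)
        omega
      have b2 : ((h' : ℕ) : ZMod q) - (h : ZMod q) ≠ 0 := by
        rw [sub_ne_zero]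
        intro hc
        rw [ZMod.natCast_eq_natCast_iff] at hc
        have := Nat.ModEq.eq_of_lt_of_lt hc (by omega) (by omega)
        omega
      rw [corr_ne hp2 b1, corr_ne hq2 b2]
      norm_num
  calc _ ≤ ∑ h ∈ range H, ∑ h' ∈ range H, ((if h = h' then ((p : ℤ) * q) else 0) + 1) :=
        sum_le_sum (fun h hh => sum_le_sum (fun h' hh' => h2 h hh h' hh'))
    _ = _ := by
        simp_rw [sum_add_distrib, sum_ite_eq]
        rw [sum_ite_mem, inter_self]
        simp
        ring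

lemma sum_range_mul {f : ℕ → ℤ} {D : ℕ} (hf : ∀ x, f (x + D) = f x) (m : ℕ) :
    ∑ i ∈ range (D * m), f i = m * ∑ i ∈ range D, f i := by
  induction m with
  | zero => simp
  | succ m ih =>
    rw [Nat.mul_succ, sum_range_add, ih, sum_shift hf]
    push_cast
    ring

/-- second moment over an interval -/
lemma window_interval {p q : ℕ} (hp : p.Prime) (hq : q.Prime) (hp2 : p ≠ 2) (hq2 : q ≠ 2)
    (hpq : p ≠ q) {H : ℕ} (hHp : H ≤ p) (hHq : H ≤ q) (X : ℕ) :
    ∑ y ∈ range X, (∑ h ∈ range H, J((y + h : ℕ) | p) * J((y + h : ℕ) | q)) ^ 2 ≤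
      2 * (H : ℤ) * (X + p * q) := by
  set f : ℕ → ℤ := fun y => (∑ h ∈ range H, J((y + h : ℕ) | p) * J((y + h : ℕ) | q)) ^ 2 with hf
  set D := p * q with hD
  have hD0 : 0 < D := Nat.mul_pos hp.pos hq.pos
  have hper : ∀ x, f (x + D) = f x := by
    intro x
    rw [hf]
    simp only
    congr 1
    apply sum_congr rfl
    intro h _
    have e1 : J((x + D + h : ℕ) | p) = J((x + h : ℕ) | p) := by
      apply jacobiSym.mod_left'
      push_cast
      have : (x : ℤ) + (p * q : ℕ) + h = x + h + p * q := by push_cast; ring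
      rw [this, Int.add_mul_emod_self_left]
    have e2 : J((x + D + h : ℕ) | q) = J((x + h : ℕ) | q) := by
      apply jacobiSym.mod_left'
      push_cast
      have : (x : ℤ) + (p * q : ℕ) + h = x + h + q * p := by push_cast; ring
      rw [this, Int.add_mul_emod_self_left]
    rw [e1, e2]
  have hw := window hp hq hp2 hq2 hpq hHp hHq
  have hle : X ≤ D * (X / D + 1) := by
    have := Nat.lt_mul_div_succ X hD0
    exact this.le
  calc ∑ y ∈ range X, f y ≤ ∑ y ∈ range (D * (X / D + 1)), f y := by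
        apply sum_le_sum_of_subset_of_nonneg (range_mono hle)
        intro i _ _
        exact sq_nonneg _
    _ = ((X / D + 1 : ℕ) : ℤ) * ∑ y ∈ range D, f y := sum_range_mul hper _
    _ ≤ ((X / D + 1 : ℕ) : ℤ) * (2 * H * D) := by
        apply mul_le_mul_of_nonneg_left _ (by positivity)
        refine hw.trans ?_
        have h1 : (H : ℤ) ≤ D := by
          have : H ≤ D := hHp.trans (Nat.le_mul_of_pos_right _ hq.pos)
          exact_mod_cast this
        have h2 : (H : ℤ) ^ 2 ≤ H * D := by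
          rw [sq]
          exact mul_le_mul_of_nonneg_left h1 (by positivity)
        have h3 : (D : ℤ) = p * q := by rw [hD]; push_cast; ring
        rw [← h3]
        linarith
    _ ≤ _ := by
        have h3 : (D : ℤ) = p * q := by rw [hD]; push_cast; ring
        rw [← h3]
        have h4 : ((X / D + 1 : ℕ) : ℤ) * D ≤ X + D := by
          have := Nat.div_mul_le_self X D
          have h5 : (X / D + 1) * D ≤ X + D := by linarith
          exact_mod_cast h5
        have h6 : (0 : ℤ) ≤ 2 * H := by positivity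
        calc ((X / D + 1 : ℕ) : ℤ) * (2 * H * D) = (2 * H) * (((X / D + 1 : ℕ) : ℤ) * D) := by ring
          _ ≤ (2 * H) * (X + D) := mul_le_mul_of_nonneg_left h4 h6

/-- Interval sums of `J(n | p) J(n | q)`. -/
lemma short_sum {p q : ℕ} (hp : p.Prime) (hq : q.Prime) (hp2 : p ≠ 2) (hq2 : q ≠ 2)
    (hpq : p ≠ q) {H : ℕ} (hH : 1 ≤ H) (hHp : H ≤ p) (hHq : H ≤ q) {X : ℕ} (hX : p * q ≤ 4 * X) :
    |∑ n ∈ range X, ((J(n | p) * J(n | q) : ℤ) : ℝ)| ≤ 4 * X / Real.sqrt H + 2 * H := by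
  set χ : ℕ → ℤ := fun n => J(n | p) * J(n | q) with hχ
  have hχ1 : ∀ n, |χ n| ≤ 1 := by
    intro n
    rw [hχ]
    simp only
    rw [abs_mul]
    exact mul_le_one₀ (abs_jac_le _ _) (abs_nonneg _) (abs_jac_le _ _)
  set G : ℕ → ℤ := fun y => ∑ h ∈ range H, χ (y + h) with hG
  have hw : ∑ y ∈ range X, (G y) ^ 2 ≤ 2 * (H : ℤ) * (X + p * q) :=
    window_interval hp hq hp2 hq2 hpq hHp hHq X
  -- shifts
  have hs : ∀ h ≤ H, |∑ n ∈ range X, χ n - ∑ n ∈ range X, χ (n + h)| ≤ 2 * H := by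
    intro h hh
    have e1 : ∑ n ∈ range (X + h), χ n = ∑ n ∈ range X, χ n + ∑ i ∈ range h, χ (X + i) :=
      sum_range_add _ _ _
    have e2 : ∑ n ∈ range (h + X), χ n = ∑ n ∈ range h, χ n + ∑ i ∈ range X, χ (h + i) :=
      sum_range_add _ _ _
    have e3 : ∑ i ∈ range X, χ (h + i) = ∑ n ∈ range X, χ (n + h) :=
      sum_congr rfl (fun i _ => by rw [add_comm])
    rw [add_comm h X, e1, e3] at e2
    have e4 : |∑ i ∈ range h, χ (X + i)| ≤ H := by
      calc _ ≤ ∑ i ∈ range h, |χ (X + i)| := abs_sum_le_sum_abs _ _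
        _ ≤ ∑ i ∈ range h, 1 := sum_le_sum (fun i _ => hχ1 _)
        _ = h := by simp
        _ ≤ H := by exact_mod_cast hh
    have e5 : |∑ n ∈ range h, χ n| ≤ H := by
      calc _ ≤ ∑ i ∈ range h, |χ i| := abs_sum_le_sum_abs _ _
        _ ≤ ∑ i ∈ range h, 1 := sum_le_sum (fun i _ => hχ1 _)
        _ = h := by simp
        _ ≤ H := by exact_mod_cast hh
    have e6 : ∑ n ∈ range X, χ n - ∑ n ∈ range X, χ (n + h) =
        ∑ n ∈ range h, χ n - ∑ i ∈ range h, χ (X + i) := by linarith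
    rw [e6]
    calc _ ≤ |∑ n ∈ range h, χ n| + |∑ i ∈ range h, χ (X + i)| := abs_sub _ _
      _ ≤ _ := by linarith
  have h1 : |(H : ℤ) * ∑ n ∈ range X, χ n - ∑ n ∈ range X, G n| ≤ 2 * H ^ 2 := by
    have e1 : ∑ n ∈ range X, G n = ∑ h ∈ range H, ∑ n ∈ range X, χ (n + h) := sum_comm
    have e2 : (H : ℤ) * ∑ n ∈ range X, χ n = ∑ h ∈ range H, ∑ n ∈ range X, χ n := by
      rw [sum_const, card_range, nsmul_eq_mul]
    rw [e1, e2, ← sum_sub_distrib]
    calc _ ≤ ∑ h ∈ range H, |∑ n ∈ range X, χ n - ∑ n ∈ range X, χ (n + h)| :=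
          abs_sum_le_sum_abs _ _
      _ ≤ ∑ h ∈ range H, (2 * H : ℤ) := by
          apply sum_le_sum
          intro h hh
          rw [mem_range] at hh
          exact hs h hh.le
      _ = _ := by
          rw [sum_const, card_range, nsmul_eq_mul]
          ring
  -- Cauchy-Schwarz
  have h2 : (∑ n ∈ range X, G n) ^ 2 ≤ X * (2 * H * (X + p * q)) := by
    calc _ ≤ ((range X).card : ℤ) * ∑ n ∈ range X, (G n) ^ 2 := sq_sum_le_card_mul_sum_sq
      _ ≤ _ := by
        rw [card_range]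
        exact mul_le_mul_of_nonneg_left hw (by positivity)
  have hH0 : (0 : ℝ) < H := by exact_mod_cast hH
  have h3 : |((∑ n ∈ range X, G n : ℤ) : ℝ)| ≤ Real.sqrt (10 * H) * X := by
    rw [← Real.sqrt_sq_eq_abs]
    have e1 : Real.sqrt (10 * H) * X = Real.sqrt (10 * H * (X : ℝ) ^ 2) := by
      rw [Real.sqrt_mul (by positivity) ((X : ℝ) ^ 2), Real.sqrt_sq (by positivity)]
    rw [e1]
    apply Real.sqrt_le_sqrt
    have e2 : (((∑ n ∈ range X, G n : ℤ) : ℝ)) ^ 2 ≤ X * (2 * H * (X + p * q)) := by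
      exact_mod_cast h2
    have e3 : ((p : ℝ) * q) ≤ 4 * X := by exact_mod_cast hX
    calc _ ≤ (X : ℝ) * (2 * H * (X + p * q)) := e2
      _ ≤ (X : ℝ) * (2 * H * (X + 4 * X)) := by gcongr
      _ = _ := by ring
  have h4 : (H : ℝ) * |∑ n ∈ range X, ((χ n : ℤ) : ℝ)| ≤ Real.sqrt (10 * H) * X + 2 * H ^ 2 := by
    have e1 : |(H : ℝ) * ∑ n ∈ range X, ((χ n : ℤ) : ℝ) - ((∑ n ∈ range X, G n : ℤ) : ℝ)| ≤ 2 * H ^ 2 := by
      have := h1
      have e : ((|(H : ℤ) * ∑ n ∈ range X, χ n - ∑ n ∈ range X, G n| : ℤ) : ℝ) ≤ ((2 * H ^ 2 : ℤ) : ℝ) := by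
        exact_mod_cast this
      push_cast at e
      push_cast
      exact e
    have e2 : (H : ℝ) * |∑ n ∈ range X, ((χ n : ℤ) : ℝ)| = |(H : ℝ) * ∑ n ∈ range X, ((χ n : ℤ) : ℝ)| := by
      rw [abs_mul, abs_of_pos hH0]
    rw [e2]
    have e3 := abs_sub_abs_le_abs_sub ((H : ℝ) * ∑ n ∈ range X, ((χ n : ℤ) : ℝ)) ((∑ n ∈ range X, G n : ℤ) : ℝ)
    linarith
  have h5 : |∑ n ∈ range X, ((χ n : ℤ) : ℝ)| ≤ (Real.sqrt (10 * H) * X + 2 * H ^ 2) / H := by
    rw [le_div_iff₀ hH0, mul_comm]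
    exact h4
  refine h5.trans ?_
  have h6 : (Real.sqrt (10 * H) * X + 2 * H ^ 2) / H = Real.sqrt 10 * X / Real.sqrt H + 2 * H := by
    have e1 : (H : ℝ) = Real.sqrt H * Real.sqrt H := (Real.mul_self_sqrt hH0.le).symm
    have e2 : 0 < Real.sqrt H := Real.sqrt_pos.2 hH0
    rw [Real.sqrt_mul (by norm_num)]
    field_simp
    linear_combination (Real.sqrt 10 * X) * (Real.mul_self_sqrt hH0.le)
  rw [h6]
  have h7 : Real.sqrt 10 ≤ 4 := by
    rw [Real.sqrt_le_left (by norm_num)]; norm_num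
  gcongr

end Pool.Agent.H.MP_0ec261_nt
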