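import Pool.Agent.H.MP_0ec261_nt.Avg

/-!
The representation numbers of the problem and their relation with `Dg`.
-/

open Finset NumberTheorySymbols

namespace Pool.Agent.H.MP_0ec261_nt

/-- `q` gives a representation `n = p + q + (n mod 2) q` with `p` an odd prime, `q ≤ n/2` prime. -/
def Rep (n q : ℕ) : Prop :=
  q.Prime ∧ 2 * q ≤ n ∧ ((Odd n ∧ (n - 2 * q).Prime ∧ n - 2 * q ≠ 2) ∨
    (Even n ∧ (n - q).Prime ∧ n - q ≠ 2))

/-- the Jacobi symbol of the problem -/
noncomputable def sym (n q : ℕ) : ℤ :=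
  if Odd n then jacobiSym (q : ℤ) n else jacobiSym (((q + 1) / 2 : ℕ) : ℤ) (n + 1)

open Classical in
/-- number of representations -/
noncomputable def rN (n : ℕ) : ℕ := ((range (n + 1)).filter (fun q => Rep n q)).card

open Classical in
/-- `a(n)` of the problem -/
noncomputable def aN (n : ℕ) : ℕ := ((range (n + 1)).filter (fun q => Rep n q ∧ sym n q = 1)).card

lemma sym_tri (n q : ℕ) : sym n q = 0 ∨ sym n q = 1 ∨ sym n q = -1 := by
  unfold sym
  split_ifs
  · exact jacobiSym.trichotomy _ _
  · exact jacobiSym.trichotomy _ _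

open Classical in
/-- `2 a - r` through the sum of symbols and the number of vanishing symbols -/
lemma two_a_sub_r (n : ℕ) : 2 * (aN n : ℝ) - rN n =
    ∑ q ∈ (range (n + 1)).filter (fun q => Rep n q), ((sym n q : ℤ) : ℝ) -
      (((range (n + 1)).filter (fun q => Rep n q ∧ sym n q = 0)).card : ℝ) := by
  unfold aN rN
  have e1 : (((range (n + 1)).filter (fun q => Rep n q ∧ sym n q = 1)).card : ℝ) =
      ∑ q ∈ (range (n + 1)).filter (fun q => Rep n q), (if sym n q = 1 then (1 : ℝ) else 0) := by
    rw [← filter_filter, card_filter]; push_cast; rfl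
  have e2 : (((range (n + 1)).filter (fun q => Rep n q ∧ sym n q = 0)).card : ℝ) =
      ∑ q ∈ (range (n + 1)).filter (fun q => Rep n q), (if sym n q = 0 then (1 : ℝ) else 0) := by
    rw [← filter_filter, card_filter]; push_cast; rfl
  have e3 : (((range (n + 1)).filter (fun q => Rep n q)).card : ℝ) =
      ∑ q ∈ (range (n + 1)).filter (fun q => Rep n q), (1 : ℝ) := by simp
  rw [e1, e2, e3, mul_sum, ← sum_sub_distrib, ← sum_sub_distrib]
  apply sum_congr rfl
  intro q _
  rcases sym_tri n q with h | h | h <;> rw [h] <;> norm_num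

/-- lower bounds for `m` in the odd case -/
def κ1 (s : ℕ) : ℕ := 2 * s + 1

/-- lower bounds for `m` in the even case -/
def κ2 (s : ℕ) : ℕ := 4 * s - 1

lemma adm1 : Adm κ1 := by
  refine ⟨fun s _ => le_refl _, ?_, ?_⟩
  · intro a b h; unfold κ1; omega
  · intro s H _; unfold κ1; omega

lemma adm2 : Adm κ2 := by
  refine ⟨?_, ?_, ?_⟩
  · intro s hs; unfold κ2; omega
  · intro a b h; unfold κ2; omega
  · intro s H _; unfold κ2; omega

open Classical in
lemma odd_case {n : ℕ} (hn : Odd n) :
    |2 * (aN n : ℝ) - rN n| ≤ |Dg Nat.Prime κ1 n| + 1 := by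
  rw [two_a_sub_r]
  have e1 : ∑ q ∈ (range (n + 1)).filter (fun q => Rep n q), ((sym n q : ℤ) : ℝ) = Dg Nat.Prime κ1 n := by
    unfold Dg
    apply sum_congr
    · ext q
      simp only [mem_filter, mem_range, mem_Icc, Rep, κ1]
      constructor
      · rintro ⟨h1, h2, h3, h4⟩
        rcases h4 with h4 | h4
        · have := h4.2.1.pos
          exact ⟨⟨h2.pos, by omega⟩, h2, by omega, h4.2.1⟩
        · exact absurd h4.1 (Nat.not_even_iff_odd.2 hn)
      · rintro ⟨⟨h1, h2⟩, h3, h4, h5⟩
        refine ⟨by omega, h3, by omega, Or.inl ⟨hn, h5, ?_⟩⟩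
        intro h
        obtain ⟨k, hk⟩ := hn
        omega
    · intro q _
      unfold sym
      rw [if_pos hn]
  rw [e1]
  have e2 : ((range (n + 1)).filter (fun q => Rep n q ∧ sym n q = 0)).card ≤ 1 := by
    rw [card_le_one]
    have key : ∀ q ∈ (range (n + 1)).filter (fun q => Rep n q ∧ sym n q = 0), n = 3 * q := by
      intro q hq
      rw [mem_filter] at hq
      obtain ⟨_, ⟨hq1, hq2, hq3⟩, hs⟩ := hq
      rcases hq3 with h4 | h4
      · unfold sym at hs
        rw [if_pos hn] at hs
        have hn0 : n ≠ 0 := hn.pos.ne'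
        have : NeZero n := ⟨hn0⟩
        rw [jacobiSym.eq_zero_iff_not_coprime, Int.gcd_natCast_natCast] at hs
        have hqn : q ∣ n := by
          by_contra h
          exact hs ((Nat.Prime.coprime_iff_not_dvd hq1).2 h)
        have hqp : q ∣ n - 2 * q := Nat.dvd_sub hqn (Dvd.intro_left 2 rfl)
        have := (Nat.prime_dvd_prime_iff_eq hq1 h4.2.1).1 hqp
        omega
      · exact absurd h4.1 (Nat.not_even_iff_odd.2 hn)
    intro x hx y hy
    have h1 := key x hx
    have h2 := key y hy
    omega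
  have e3 : (((range (n + 1)).filter (fun q => Rep n q ∧ sym n q = 0)).card : ℝ) ≤ 1 := by
    exact_mod_cast e2
  have e4 : (0 : ℝ) ≤ (((range (n + 1)).filter (fun q => Rep n q ∧ sym n q = 0)).card : ℝ) :=
    Nat.cast_nonneg _
  calc _ ≤ |Dg Nat.Prime κ1 n| + |(((range (n + 1)).filter (fun q => Rep n q ∧ sym n q = 0)).card : ℝ)| :=
        abs_sub _ _
    _ ≤ _ := by rw [abs_of_nonneg e4]; linarith

/-- the predicate of the even case -/
def P2 (s : ℕ) : Prop := (2 * s - 1).Prime ∧ 2 ≤ s

open Classical in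
lemma even_case {n : ℕ} (hn : Even n) :
    |2 * (aN n : ℝ) - rN n| ≤ |Dg P2 κ2 (n + 1)| + 1 := by
  rw [two_a_sub_r]
  have hno : ¬ Odd n := Nat.not_odd_iff_even.2 hn
  have hodd : ∀ q, Rep n q → Odd q := by
    intro q hq
    obtain ⟨h1, h2, h3⟩ := hq
    rcases h3 with h3 | h3
    · exact absurd h3.1 hno
    · rcases h1.eq_two_or_odd' with h | h
      · subst h
        exfalso
        have he : Even (n - 2) := by
          obtain ⟨k, hk⟩ := hn
          exact ⟨k - 1, by omega⟩
        exact h3.2.2 ((h3.2.1.even_iff).1 he)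
      · exact h
  have e1 : ∑ q ∈ (range (n + 1)).filter (fun q => Rep n q), ((sym n q : ℤ) : ℝ) = Dg P2 κ2 (n + 1) := by
    unfold Dg
    apply sum_nbij' (fun q => (q + 1) / 2) (fun s => 2 * s - 1)
    · intro q hq
      rw [mem_filter, mem_range] at hq
      have ho := hodd q hq.2
      obtain ⟨_, h1, h2, h3⟩ := hq
      rcases h3 with h3 | h3
      · exact absurd h3.1 hno
      · obtain ⟨k, hk⟩ := ho
        have hq3 : 3 ≤ q := by
          have := h1.two_le
          omega
        rw [mem_filter, mem_Icc]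
        refine ⟨by omega, ⟨?_, by omega⟩, ?_, ?_⟩
        · have : 2 * ((q + 1) / 2) - 1 = q := by omega
          rw [this]; exact h1
        · unfold κ2; omega
        · have : n + 1 - 2 * ((q + 1) / 2) = n - q := by omega
          rw [this]; exact h3.2.1
    · intro s hs
      rw [mem_filter, mem_Icc] at hs
      obtain ⟨⟨h1, h2⟩, ⟨h3, h4⟩, h5, h6⟩ := hs
      unfold κ2 at h5
      rw [mem_filter, mem_range]
      have e : n + 1 - 2 * s = n - (2 * s - 1) := by omega
      rw [e] at h6
      refine ⟨by omega, h3, by omega, Or.inr ⟨hn, h6, ?_⟩⟩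
      intro h
      obtain ⟨k, hk⟩ := hn
      omega
    · intro q hq
      rw [mem_filter] at hq
      obtain ⟨k, hk⟩ := hodd q hq.2
      omega
    · intro s hs
      rw [mem_filter, mem_Icc] at hs
      omega
    · intro q _
      unfold sym
      rw [if_neg hno]
  rw [e1]
  have e2 : ((range (n + 1)).filter (fun q => Rep n q ∧ sym n q = 0)) = ∅ := by
    rw [filter_eq_empty_iff]
    rintro q _ ⟨hq, hs⟩
    have ho := hodd q hq
    obtain ⟨h1, h2, h3⟩ := hq
    rcases h3 with h3 | h3
    · exact absurd h3.1 hno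
    · unfold sym at hs
      rw [if_neg hno] at hs
      have : NeZero (n + 1) := ⟨by omega⟩
      rw [jacobiSym.eq_zero_iff_not_coprime, Int.gcd_natCast_natCast] at hs
      apply hs
      obtain ⟨k, hk⟩ := ho
      set p := n - q with hp
      have e5 : n + 1 = p + 2 * ((q + 1) / 2) := by omega
      rw [e5]
      have hcop : Nat.Coprime ((q + 1) / 2) p := by
        rw [Nat.coprime_comm, Nat.Prime.coprime_iff_not_dvd h3.2.1]
        intro hd
        have h4 := Nat.le_of_dvd (by omega) hd
        have := h3.2.1.two_le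
        omega
      have h5 : Nat.Coprime ((q + 1) / 2) (p + 2 * ((q + 1) / 2)) := by
        rw [mul_comm 2, Nat.coprime_add_mul_left_right]
        exact hcop
      exact h5
  rw [e2, card_empty]
  simp only [Nat.cast_zero, sub_zero]
  linarith [abs_nonneg (Dg P2 κ2 (n + 1))]

end Pool.Agent.H.MP_0ec261_nt
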