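import Pool.Agent.H.MP_0ec261_nt.Block

/-!
The main estimate for `∑ b(s) c(p + 2 s) J(s | p)`, `p` an odd prime.
-/

open Finset NumberTheorySymbols

namespace Pool.Agent.H.MP_0ec261_nt

lemma log_le {X : ℕ} (hX : 1 ≤ X) : ((Nat.log 2 X : ℕ) : ℝ) + 1 ≤ 2 * (1 + Real.log X) := by
  have h1 : 2 ^ Nat.log 2 X ≤ X := Nat.pow_log_le_self 2 (by omega)
  have h2 : ((Nat.log 2 X : ℕ) : ℝ) * Real.log 2 ≤ Real.log X := by
    rw [← Real.log_pow]
    apply Real.log_le_log (by positivity)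
    exact_mod_cast h1
  have h3 : (0.69 : ℝ) < Real.log 2 := by
    have := Real.log_two_gt_d9
    linarith
  have h4 : (0 : ℝ) ≤ Nat.log 2 X := Nat.cast_nonneg _
  have h5 : (0 : ℝ) ≤ Real.log X := Real.log_nonneg (by exact_mod_cast hX)
  nlinarith

lemma ratio {u l a : ℕ} (hl : 32 * u ≤ l) (ha : 2 ^ (4 * u) ≤ a) :
    (Real.sqrt (Real.sqrt ((2 ^ (l - 4 * u) : ℕ) : ℝ))) ^ 5 /
      (Real.sqrt ((a * 2 ^ (l - 4 * u) : ℕ) : ℝ)) ^ 3 ≤ 1 / 2 ^ (13 * u) := by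
  set y := Real.sqrt (Real.sqrt ((2 ^ (l - 4 * u) : ℕ) : ℝ)) with hy
  set ρ := Real.sqrt ((a * 2 ^ (l - 4 * u) : ℕ) : ℝ) with hρ
  have hlow : 2 ^ l ≤ a * 2 ^ (l - 4 * u) := by
    calc 2 ^ l = 2 ^ (4 * u) * 2 ^ (l - 4 * u) := by rw [← pow_add]; congr 1; omega
      _ ≤ a * 2 ^ (l - 4 * u) := Nat.mul_le_mul_right _ ha
  have hy4 : y ^ 4 = (2 : ℝ) ^ (l - 4 * u) := by
    have h1 : y ^ 4 = (y ^ 2) ^ 2 := by ring
    rw [h1, hy, Real.sq_sqrt (Real.sqrt_nonneg _), Real.sq_sqrt (Nat.cast_nonneg _)]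
    push_cast; rfl
  have hρ2 : (2 : ℝ) ^ l ≤ ρ ^ 2 := by
    rw [hρ, Real.sq_sqrt (Nat.cast_nonneg _)]
    exact_mod_cast hlow
  have hρ0 : 0 < ρ := by
    rw [hρ]
    apply Real.sqrt_pos.2
    have : 0 < a * 2 ^ (l - 4 * u) := lt_of_lt_of_le (by positivity) hlow
    exact_mod_cast this
  have hy0 : 0 ≤ y := Real.sqrt_nonneg _
  apply le_of_pow_le_pow_left₀ (n := 4) (by norm_num) (by positivity)
  have e1 : (y ^ 5 / ρ ^ 3) ^ 4 = (y ^ 4) ^ 5 / (ρ ^ 2) ^ 6 := by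
    rw [div_pow]; ring_nf
  rw [e1, hy4]
  have e2 : ((1 : ℝ) / 2 ^ (13 * u)) ^ 4 = 1 / 2 ^ (52 * u) := by
    rw [div_pow, one_pow, ← pow_mul]; congr 2; ring
  rw [e2]
  calc ((2 : ℝ) ^ (l - 4 * u)) ^ 5 / (ρ ^ 2) ^ 6 ≤ ((2 : ℝ) ^ (l - 4 * u)) ^ 5 / ((2 : ℝ) ^ l) ^ 6 := by
        gcongr
    _ ≤ 1 / 2 ^ (52 * u) := by
        rw [div_le_div_iff₀ (by positivity) (by positivity), one_mul, ← pow_mul, ← pow_mul, ← pow_add]
        apply pow_le_pow_right₀ (by norm_num)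
        omega

namespace Dt
variable {X S : ℕ} {b : ℕ → ℝ} {c : ℤ → ℝ} (D : Dt X S b c)
include D

lemma block_fin {u l a : ℕ} (hX : 1 ≤ X) (hu : 1 ≤ u) (hl : 32 * u ≤ l) (ha : 2 ^ (4 * u) ≤ a)
    (ha' : a < 2 ^ (4 * u + 1)) :
    |∑ m ∈ Cb X (32 * u) (4 * u) l a, ww X b c m| ≤
      4 * (1 + Real.log X) * (X : ℝ) ^ 2 / 2 ^ (6 * u) := by
  have hX1 : (1 : ℝ) ≤ X := by exact_mod_cast hX
  have hL0 : 0 ≤ Real.log X := Real.log_nonneg hX1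
  set L := 1 + Real.log X with hL
  have hL1 : 1 ≤ L := by linarith
  rcases (Cb X (32 * u) (4 * u) l a).eq_empty_or_nonempty with h0 | ⟨m, hm⟩
  · rw [h0]
    simp only [sum_empty, abs_zero]
    positivity
  · have hm' := hm
    unfold Cb at hm'
    rw [mem_filter] at hm'
    have hrep := rep_block (by omega : 4 * u ≤ 32 * u) hm'.1 hm'.2
    have hRX := hrep.2.2.2.2.2.2
    have h1 := D.block_le (by omega : 4 * u ≤ 32 * u) (by omega : 2 ≤ 32 * u) hl ha ha'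
    have h2 := D.block_bil (by omega : 4 * u ≤ l) (by omega : 2 ≤ l) ha hRX
    have h3 := ratio hl ha
    set Tt := ∑ p ∈ Ib (4 * u) l a ×ˢ Kb X (a * 2 ^ (l - 4 * u)), ww X b c (p.1 * p.2) with hTt
    have h4 : |Tt| ≤ 3 * L * (X : ℝ) ^ 2 / 2 ^ (6 * u) := by
      apply le_of_sq_le_sq _ (by positivity)
      rw [sq_abs]
      refine h2.trans ?_
      calc 8 * (Real.sqrt (Real.sqrt ((2 ^ (l - 4 * u) : ℕ) : ℝ))) ^ 5 * L * (X : ℝ) ^ 4 /
          (Real.sqrt ((a * 2 ^ (l - 4 * u) : ℕ) : ℝ)) ^ 3 =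
          (8 * L * (X : ℝ) ^ 4) * ((Real.sqrt (Real.sqrt ((2 ^ (l - 4 * u) : ℕ) : ℝ))) ^ 5 /
          (Real.sqrt ((a * 2 ^ (l - 4 * u) : ℕ) : ℝ)) ^ 3) := by ring
        _ ≤ (8 * L * (X : ℝ) ^ 4) * (1 / 2 ^ (13 * u)) := by gcongr
        _ ≤ (9 * L ^ 2 * (X : ℝ) ^ 4) * (1 / 2 ^ (12 * u)) := by
            apply mul_le_mul _ _ (by positivity) (by positivity)
            · have : L ≤ L ^ 2 := by nlinarith
              have h5 : (0 : ℝ) ≤ (X : ℝ) ^ 4 := by positivity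
              nlinarith
            · apply one_div_le_one_div_of_le (by positivity)
              apply pow_le_pow_right₀ (by norm_num)
              omega
        _ = _ := by
            rw [div_pow, ← pow_mul]
            have : 6 * u * 2 = 12 * u := by ring
            rw [this]
            ring
    have h5 : (X : ℝ) ^ 2 / (a : ℝ) ^ 2 ≤ L * (X : ℝ) ^ 2 / 2 ^ (6 * u) := by
      have h6 : (2 : ℝ) ^ (8 * u) ≤ (a : ℝ) ^ 2 := by
        have h7 : (2 : ℝ) ^ (4 * u) ≤ a := by exact_mod_cast ha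
        calc (2 : ℝ) ^ (8 * u) = ((2 : ℝ) ^ (4 * u)) ^ 2 := by rw [← pow_mul]; congr 1; ring
          _ ≤ _ := by gcongr
      calc (X : ℝ) ^ 2 / (a : ℝ) ^ 2 ≤ (X : ℝ) ^ 2 / 2 ^ (8 * u) := by gcongr
        _ ≤ (X : ℝ) ^ 2 / 2 ^ (6 * u) := by
            apply div_le_div_of_nonneg_left (by positivity) (by positivity)
            apply pow_le_pow_right₀ (by norm_num)
            omega
        _ ≤ _ := by
            apply div_le_div_of_nonneg_right _ (by positivity)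
            have h8 : (0 : ℝ) ≤ (X : ℝ) ^ 2 := by positivity
            nlinarith
    calc _ ≤ |Tt| + (X : ℝ) ^ 2 / (a : ℝ) ^ 2 := h1
      _ ≤ 3 * L * (X : ℝ) ^ 2 / 2 ^ (6 * u) + L * (X : ℝ) ^ 2 / 2 ^ (6 * u) := add_le_add h4 h5
      _ = _ := by ring

lemma sum_Cmp {u : ℕ} (hX : 1 ≤ X) (hu : 1 ≤ u) :
    |∑ m ∈ Cmp (2 ^ (32 * u)) X, ww X b c m| ≤ 8 * (1 + Real.log X) ^ 2 * (X : ℝ) ^ 2 / 2 ^ u := by
  have hX1 : (1 : ℝ) ≤ X := by exact_mod_cast hX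
  have hL0 : 0 ≤ Real.log X := Real.log_nonneg hX1
  set L := 1 + Real.log X with hL
  have hL1 : 1 ≤ L := by linarith
  set ℓ := Nat.log 2 X with hℓ
  set ℬ := Icc (32 * u) ℓ ×ˢ Ico (2 ^ (4 * u)) (2 ^ (4 * u + 1)) with hℬ
  have hmaps : ∀ m ∈ Cmp (2 ^ (32 * u)) X, gb (4 * u) m ∈ ℬ := by
    intro m hm
    have h1 := rep_block (l := (gb (4 * u) m).1) (a := (gb (4 * u) m).2)
      (by omega : 4 * u ≤ 32 * u) hm rfl
    rw [hℬ, mem_product, mem_Icc, mem_Ico]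
    refine ⟨⟨h1.2.2.2.1, ?_⟩, h1.2.2.2.2.1, h1.2.2.2.2.2.1⟩
    rw [mem_Cmp] at hm
    change Nat.log 2 m.minFac ≤ Nat.log 2 X
    apply Nat.log_mono_right
    exact (Nat.minFac_le (by omega)).trans hm.1.2
  rw [← sum_fiberwise_of_maps_to hmaps]
  calc |∑ β ∈ ℬ, ∑ m ∈ Cmp (2 ^ (32 * u)) X with gb (4 * u) m = β, ww X b c m| ≤
      ∑ β ∈ ℬ, |∑ m ∈ Cmp (2 ^ (32 * u)) X with gb (4 * u) m = β, ww X b c m| :=
        abs_sum_le_sum_abs _ _
    _ ≤ ∑ β ∈ ℬ, 4 * L * (X : ℝ) ^ 2 / 2 ^ (6 * u) := by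
        apply sum_le_sum
        intro β hβ
        rw [hℬ, mem_product, mem_Icc, mem_Ico] at hβ
        exact D.block_fin hX hu hβ.1.1 hβ.2.1 hβ.2.2
    _ = (ℬ.card : ℝ) * (4 * L * (X : ℝ) ^ 2 / 2 ^ (6 * u)) := by rw [sum_const, nsmul_eq_mul]
    _ ≤ (2 * L * 2 ^ (4 * u)) * (4 * L * (X : ℝ) ^ 2 / 2 ^ (6 * u)) := by
        apply mul_le_mul_of_nonneg_right _ (by positivity)
        have h1 : ℬ.card ≤ (ℓ + 1) * 2 ^ (4 * u) := by
          rw [hℬ, card_product, Nat.card_Icc, Nat.card_Ico]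
          apply Nat.mul_le_mul (by omega)
          rw [pow_succ]
          omega
        have h2 : (ℬ.card : ℝ) ≤ ((ℓ : ℝ) + 1) * 2 ^ (4 * u) := by exact_mod_cast h1
        refine h2.trans ?_
        apply mul_le_mul_of_nonneg_right (log_le hX) (by positivity)
    _ = 8 * L ^ 2 * (X : ℝ) ^ 2 / 2 ^ (2 * u) := by
        have : (2 : ℝ) ^ (6 * u) = 2 ^ (4 * u) * 2 ^ (2 * u) := by rw [← pow_add]; congr 1; ring
        rw [this]
        field_simp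
        ring
    _ ≤ _ := by
        apply div_le_div_of_nonneg_left (by positivity) (by positivity)
        apply pow_le_pow_right₀ (by norm_num)
        omega

end Dt

/-- the saving exponent -/
def uu (X : ℕ) : ℕ := Nat.sqrt (Nat.log 2 X / 1300)

/-- **Main estimate.** -/
theorem main_bound : ∃ C : ℝ, 0 < C ∧ ∀ X S : ℕ, 1 ≤ X → ∀ (b : ℕ → ℝ) (c : ℤ → ℝ), Dt X S b c →
    |∑ m ∈ (Icc 1 X).filter (fun m => Odd m ∧ m.Prime), ww X b c m| ≤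
      C * (1 + Real.log X) ^ 4 * (X : ℝ) ^ 2 / 2 ^ uu X := by
  classical
  obtain ⟨C, hC, hbil⟩ := bil
  refine ⟨C + 12, by linarith, fun X S hX b c D => ?_⟩
  have hX1 : (1 : ℝ) ≤ X := by exact_mod_cast hX
  have hX0 : (0 : ℝ) < X := by linarith
  have hL0 : 0 ≤ Real.log X := Real.log_nonneg hX1
  set L := 1 + Real.log X with hL
  have hL1 : 1 ≤ L := by linarith
  have hL4 : 1 ≤ L ^ 4 := one_le_pow₀ hL1
  set u := uu X with hu
  rcases Nat.eq_zero_or_pos u with hu0 | hu0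
  · -- trivial range
    rw [hu0, pow_zero, div_one]
    calc |∑ m ∈ (Icc 1 X).filter (fun m => Odd m ∧ m.Prime), ww X b c m| ≤
        ∑ m ∈ (Icc 1 X).filter (fun m => Odd m ∧ m.Prime), |ww X b c m| := abs_sum_le_sum_abs _ _
      _ ≤ ∑ m ∈ (Icc 1 X).filter (fun m => Odd m ∧ m.Prime), (X : ℝ) :=
          sum_le_sum (fun m _ => D.abs_ww m)
      _ ≤ ∑ m ∈ Icc 1 X, (X : ℝ) := by
          apply sum_le_sum_of_subset_of_nonneg (filter_subset _ _)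
          intro i _ _; positivity
      _ = 1 * 1 * (X : ℝ) ^ 2 := by simp; ring
      _ ≤ _ := by
          gcongr
          linarith
  set z := 2 ^ (32 * u) with hz
  have hz2 : 2 ≤ z := by
    calc 2 = 2 ^ 1 := by norm_num
      _ ≤ 2 ^ (32 * u) := Nat.pow_le_pow_right (by norm_num) (by omega)
  -- parameters
  have hu2 : u * u ≤ Nat.log 2 X / 1300 := Nat.sqrt_le _
  have hu3 : 1300 * (u * u) ≤ Nat.log 2 X := by omega
  have hpow : ∀ e, e ≤ Nat.log 2 X → (2 : ℝ) ^ e ≤ X := by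
    intro e he
    have h1 : 2 ^ e ≤ X := (Nat.pow_le_pow_right (by norm_num) he).trans (Nat.pow_log_le_self 2 (by omega))
    exact_mod_cast h1
  have huu : u ≤ u * u := Nat.le_mul_of_pos_left _ hu0
  -- decomposition
  have hrough := D.rough_sum (C := C * (X : ℝ) ^ (39 / 20 : ℝ)) (by positivity)
    (fun α hα => hbil X hX α hα) (z := z) (u := u) hz2
  have hcmp := D.sum_Cmp hX hu0
  set 𝒬 := (Icc 1 X).filter (fun m => Odd m ∧ m.Prime) with h𝒬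
  set ℛ := (Icc 1 X).filter (fun m => Odd m ∧ Rgh z m) with hℛ
  have hd1 : ∑ m ∈ ℛ, ww X b c m = ∑ m ∈ ℛ.filter (fun m => m = 1), ww X b c m +
      (∑ m ∈ 𝒬.filter (fun m => z ≤ m), ww X b c m + ∑ m ∈ Cmp z X, ww X b c m) := by
    rw [← sum_filter_add_sum_filter_not ℛ (fun m => m = 1)]
    congr 1
    rw [← sum_filter_add_sum_filter_not (ℛ.filter (fun m => ¬ m = 1)) (fun m => m.Prime)]
    congr 1
    · apply sum_congr _ (fun _ _ => rfl)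
      ext m
      simp only [hℛ, h𝒬, mem_filter, mem_Icc]
      constructor
      · rintro ⟨⟨⟨h1, h2, h3⟩, h4⟩, h5⟩
        exact ⟨⟨h1, h2, h5⟩, h3 m h5 (dvd_refl _)⟩
      · rintro ⟨⟨h1, h2, h5⟩, h6⟩
        refine ⟨⟨⟨h1, h2, ?_⟩, h5.one_lt.ne'⟩, h5⟩
        intro p hp hpm
        rw [(Nat.prime_dvd_prime_iff_eq hp h5).1 hpm]
        exact h6
    · apply sum_congr _ (fun _ _ => rfl)
      ext m
      rw [mem_Cmp]
      simp only [hℛ, mem_filter, mem_Icc]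
      tauto
  have hd2 : ∑ m ∈ 𝒬, ww X b c m = ∑ m ∈ 𝒬.filter (fun m => z ≤ m), ww X b c m +
      ∑ m ∈ 𝒬.filter (fun m => ¬ z ≤ m), ww X b c m :=
    (sum_filter_add_sum_filter_not _ _ _).symm
  have hs1 : |∑ m ∈ ℛ.filter (fun m => m = 1), ww X b c m| ≤ X := by
    calc _ ≤ ∑ m ∈ ℛ.filter (fun m => m = 1), |ww X b c m| := abs_sum_le_sum_abs _ _
      _ ≤ ∑ m ∈ ℛ.filter (fun m => m = 1), (X : ℝ) := sum_le_sum (fun m _ => D.abs_ww m)
      _ = ((ℛ.filter (fun m => m = 1)).card : ℝ) * X := by rw [sum_const, nsmul_eq_mul]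
      _ ≤ 1 * X := by
          apply mul_le_mul_of_nonneg_right _ (by positivity)
          have : (ℛ.filter (fun m => m = 1)).card ≤ 1 := by
            rw [card_le_one]
            intro x hx y hy
            rw [(mem_filter.1 hx).2, (mem_filter.1 hy).2]
          exact_mod_cast this
      _ = X := one_mul _
  have hs2 : |∑ m ∈ 𝒬.filter (fun m => ¬ z ≤ m), ww X b c m| ≤ z * X := by
    calc _ ≤ ∑ m ∈ 𝒬.filter (fun m => ¬ z ≤ m), |ww X b c m| := abs_sum_le_sum_abs _ _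
      _ ≤ ∑ m ∈ 𝒬.filter (fun m => ¬ z ≤ m), (X : ℝ) := sum_le_sum (fun m _ => D.abs_ww m)
      _ = ((𝒬.filter (fun m => ¬ z ≤ m)).card : ℝ) * X := by rw [sum_const, nsmul_eq_mul]
      _ ≤ z * X := by
          apply mul_le_mul_of_nonneg_right _ (by positivity)
          have : (𝒬.filter (fun m => ¬ z ≤ m)).card ≤ (range z).card := by
            apply card_le_card
            intro m hm
            rw [mem_filter] at hm
            rw [mem_range]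
            omega
          rw [card_range] at this
          exact_mod_cast this
  -- numerics
  have hXX : (z : ℝ) * X ≤ (X : ℝ) ^ 2 / 2 ^ u := by
    rw [le_div_iff₀ (by positivity)]
    have h1 : (2 : ℝ) ^ (33 * u) ≤ X := hpow _ (by omega)
    have h2 : (z : ℝ) * 2 ^ u ≤ X := by
      calc (z : ℝ) * 2 ^ u = 2 ^ (33 * u) := by
            rw [hz]; push_cast; rw [← pow_add]; congr 1; ring
        _ ≤ X := h1
    calc (z : ℝ) * X * 2 ^ u = ((z : ℝ) * 2 ^ u) * X := by ring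
      _ ≤ X * X := by gcongr
      _ = _ := by ring
  have hX2 : (X : ℝ) ≤ (X : ℝ) ^ 2 / 2 ^ u := by
    have h1 : (1 : ℝ) ≤ z := by exact_mod_cast (by omega : 1 ≤ z)
    calc (X : ℝ) = 1 * X := (one_mul _).symm
      _ ≤ z * X := by gcongr
      _ ≤ _ := hXX
  have hI : ((z ^ u : ℕ) : ℝ) ^ 2 * (C * (X : ℝ) ^ (39 / 20 : ℝ)) ≤ C * ((X : ℝ) ^ 2 / 2 ^ u) := by
    have h1 : ((z ^ u : ℕ) : ℝ) ^ 2 * 2 ^ u ≤ (X : ℝ) ^ (1 / 20 : ℝ) := by
      have h2 : (((z ^ u : ℕ) : ℝ) ^ 2 * 2 ^ u) ^ 20 ≤ X := by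
        have e1 : (((z ^ u : ℕ) : ℝ) ^ 2 * 2 ^ u) ^ 20 = 2 ^ (20 * (64 * (u * u) + u)) := by
          rw [hz]
          push_cast
          rw [← pow_mul, ← pow_mul, ← pow_add, ← pow_mul]
          congr 1
          ring
        rw [e1]
        apply hpow
        have : 20 * (64 * (u * u) + u) ≤ 1300 * (u * u) := by
          generalize u * u = w at *
          omega
        omega
      calc ((z ^ u : ℕ) : ℝ) ^ 2 * 2 ^ u = ((((z ^ u : ℕ) : ℝ) ^ 2 * 2 ^ u) ^ 20) ^ (1 / 20 : ℝ) := by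
            have hw : (0 : ℝ) ≤ ((z ^ u : ℕ) : ℝ) ^ 2 * 2 ^ u := by positivity
            generalize ((z ^ u : ℕ) : ℝ) ^ 2 * 2 ^ u = w at hw
            rw [← Real.rpow_natCast, ← Real.rpow_mul hw]
            norm_num
        _ ≤ _ := Real.rpow_le_rpow (by positivity) h2 (by norm_num)
    have h3 : (X : ℝ) ^ (1 / 20 : ℝ) * (X : ℝ) ^ (39 / 20 : ℝ) = (X : ℝ) ^ 2 := by
      rw [← Real.rpow_add hX0, ← Real.rpow_natCast]
      norm_num
    have h4 : ((z ^ u : ℕ) : ℝ) ^ 2 * (X : ℝ) ^ (39 / 20 : ℝ) ≤ (X : ℝ) ^ 2 / 2 ^ u := by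
      rw [le_div_iff₀ (by positivity), ← h3]
      calc ((z ^ u : ℕ) : ℝ) ^ 2 * (X : ℝ) ^ (39 / 20 : ℝ) * 2 ^ u =
          (((z ^ u : ℕ) : ℝ) ^ 2 * 2 ^ u) * (X : ℝ) ^ (39 / 20 : ℝ) := by ring
        _ ≤ _ := by gcongr
    calc ((z ^ u : ℕ) : ℝ) ^ 2 * (C * (X : ℝ) ^ (39 / 20 : ℝ)) =
        C * (((z ^ u : ℕ) : ℝ) ^ 2 * (X : ℝ) ^ (39 / 20 : ℝ)) := by ring
      _ ≤ _ := by gcongr
  set Y := (X : ℝ) ^ 2 / 2 ^ u with hY
  have hY0 : 0 ≤ Y := by positivity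
  have e5 : (X : ℝ) ^ 2 * L ^ 4 / 2 ^ u = L ^ 4 * Y := by rw [hY]; ring
  have e6 : 8 * L ^ 2 * (X : ℝ) ^ 2 / 2 ^ u = 8 * L ^ 2 * Y := by rw [hY]; ring
  have e7 : (C + 12) * L ^ 4 * (X : ℝ) ^ 2 / 2 ^ u = (C + 12) * L ^ 4 * Y := by rw [hY]; ring
  rw [e5] at hrough
  rw [e6] at hcmp
  rw [e7]
  have hL2 : L ^ 2 ≤ L ^ 4 := pow_le_pow_right₀ hL1 (by norm_num)
  have hfin : |∑ m ∈ 𝒬, ww X b c m| ≤ (C * Y + L ^ 4 * Y) + X + 8 * L ^ 2 * Y + z * X := by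
    have h1 : ∑ m ∈ 𝒬, ww X b c m = ∑ m ∈ ℛ, ww X b c m - ∑ m ∈ ℛ.filter (fun m => m = 1), ww X b c m -
        ∑ m ∈ Cmp z X, ww X b c m + ∑ m ∈ 𝒬.filter (fun m => ¬ z ≤ m), ww X b c m := by
      rw [hd2, hd1]; ring
    rw [h1]
    have h2 : |∑ m ∈ ℛ, ww X b c m| ≤ C * Y + L ^ 4 * Y := hrough.trans (by linarith)
    have a1 := abs_add_le (∑ m ∈ ℛ, ww X b c m - ∑ m ∈ ℛ.filter (fun m => m = 1), ww X b c m -
        ∑ m ∈ Cmp z X, ww X b c m) (∑ m ∈ 𝒬.filter (fun m => ¬ z ≤ m), ww X b c m)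
    have a2 := abs_sub (∑ m ∈ ℛ, ww X b c m - ∑ m ∈ ℛ.filter (fun m => m = 1), ww X b c m)
        (∑ m ∈ Cmp z X, ww X b c m)
    have a3 := abs_sub (∑ m ∈ ℛ, ww X b c m) (∑ m ∈ ℛ.filter (fun m => m = 1), ww X b c m)
    linarith
  refine hfin.trans ?_
  have b1 : C * Y ≤ C * L ^ 4 * Y := by
    apply mul_le_mul_of_nonneg_right _ hY0
    nlinarith
  have b2 : 8 * L ^ 2 * Y ≤ 8 * L ^ 4 * Y := by gcongr
  have b3 : Y ≤ L ^ 4 * Y := by nlinarith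
  nlinarith

end Pool.Agent.H.MP_0ec261_nt
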