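import Pool.Agent.H.MP_0ec261_nt.Fin1
import Pool.Agent.H.MP_711652_nt.PairSieve

/-!
Positive proportion of integers with many representations (upper bound sieve and second moment).
-/

open Finset
open Pool.Agent.H.MP_711652_nt

namespace Pool.Agent.H.MP_0ec261_nt

lemma primes_card (n : ℕ) : ((range (n + 1)).filter Nat.Prime).card = Nat.primeCounting n := by
  unfold Nat.primeCounting
  rw [Nat.primeCounting', Nat.count_eq_card_filter_range]

/-- average of the singular series -/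
lemma sum_prod_le_gen (K : ℝ) (hK : 0 ≤ K) (b : ℕ) :
    ∑ h ∈ Icc 1 b, ∏ p ∈ h.primeFactors, (1 + K / (p : ℝ)) ≤ b * Real.exp K := by
  set Pr := (Icc 1 b).filter Nat.Prime with hPr
  have h1 : ∀ h ∈ Icc 1 b, ∏ p ∈ h.primeFactors, (1 + K / (p : ℝ)) =
      ∑ T ∈ Pr.powerset, if T ⊆ h.primeFactors then ∏ p ∈ T, (K / (p : ℝ)) else 0 := by
    intro h hh
    rw [mem_Icc] at hh
    rw [prod_one_add, ← sum_filter]
    apply sum_congr _ (fun _ _ => rfl)
    ext T
    rw [mem_powerset, mem_filter, mem_powerset]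
    constructor
    · intro hT
      refine ⟨fun p hp => ?_, hT⟩
      have hp' := hT hp
      rw [hPr, mem_filter, mem_Icc]
      have h2 := Nat.prime_of_mem_primeFactors hp'
      have h3 := Nat.le_of_dvd (by omega) (Nat.dvd_of_mem_primeFactors hp')
      exact ⟨⟨h2.pos, by omega⟩, h2⟩
    · exact fun hT => hT.2
  rw [sum_congr rfl h1, sum_comm]
  have h2 : ∀ T ∈ Pr.powerset, (∑ h ∈ Icc 1 b,
      if T ⊆ h.primeFactors then ∏ p ∈ T, (K / (p : ℝ)) else 0) ≤ b * ∏ p ∈ T, (K / (p : ℝ) ^ 2) := by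
    intro T hT
    rw [mem_powerset] at hT
    have hTp : ∀ p ∈ T, p.Prime := fun p hp => (mem_filter.1 (hT hp)).2
    rw [← sum_filter, sum_const, nsmul_eq_mul]
    have hpos : 0 < ∏ p ∈ T, p := prod_pos (fun p hp => (hTp p hp).pos)
    have hcard : (((Icc 1 b).filter (fun h => T ⊆ h.primeFactors)).card : ℝ) ≤ b / ((∏ p ∈ T, p : ℕ) : ℝ) := by
      have hsub : (Icc 1 b).filter (fun h => T ⊆ h.primeFactors) ⊆
          (Ioc 0 b).filter (fun h => (∏ p ∈ T, p) ∣ h) := by
        intro h hh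
        rw [mem_filter, mem_Icc] at hh
        rw [mem_filter, mem_Ioc]
        refine ⟨by omega, ?_⟩
        exact (prod_dvd_prod_of_subset _ _ _ hh.2).trans (Nat.prod_primeFactors_dvd h)
      have h3 := card_le_card hsub
      rw [Nat.Ioc_filter_dvd_card_eq_div] at h3
      calc (((Icc 1 b).filter (fun h => T ⊆ h.primeFactors)).card : ℝ) ≤ ((b / ∏ p ∈ T, p : ℕ) : ℝ) := by
            exact_mod_cast h3
        _ ≤ _ := Nat.cast_div_le
    have hprod0 : 0 ≤ ∏ p ∈ T, (K / (p : ℝ)) := prod_nonneg (fun p _ => by positivity)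
    calc _ ≤ (b / ((∏ p ∈ T, p : ℕ) : ℝ)) * ∏ p ∈ T, (K / (p : ℝ)) :=
          mul_le_mul_of_nonneg_right hcard hprod0
      _ = b * ∏ p ∈ T, (K / (p : ℝ) ^ 2) := by
        rw [Nat.cast_prod, div_mul_eq_mul_div, mul_div_assoc, ← prod_div_distrib]
        congr 1
        apply prod_congr rfl
        intro p _
        rw [div_div, sq]
  refine (sum_le_sum h2).trans ?_
  rw [← mul_sum, ← prod_one_add]
  apply mul_le_mul_of_nonneg_left _ (Nat.cast_nonneg b)
  have h3 : ∏ p ∈ Pr, (1 + K / (p : ℝ) ^ 2) ≤ Real.exp (∑ p ∈ Pr, K / (p : ℝ) ^ 2) := by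
    rw [Real.exp_sum]
    apply prod_le_prod
    · intro p _; positivity
    · intro p _
      rw [add_comm]
      exact Real.add_one_le_exp _
  refine h3.trans ?_
  rw [Real.exp_le_exp]
  have h4 : ∑ p ∈ Pr, K / (p : ℝ) ^ 2 = K * ∑ p ∈ Pr, ((p : ℝ) ^ 2)⁻¹ := by
    rw [mul_sum]
    apply sum_congr rfl
    intro p _
    rw [div_eq_mul_inv]
  rw [h4]
  have h5 : ∑ p ∈ Pr, ((p : ℝ) ^ 2)⁻¹ ≤ ∑ p ∈ Ioo 1 (b + 1), ((p : ℝ) ^ 2)⁻¹ := by
    apply sum_le_sum_of_subset_of_nonneg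
    · intro p hp
      rw [hPr, mem_filter, mem_Icc] at hp
      rw [mem_Ioo]
      have := hp.2.one_lt
      omega
    · intro p _ _; positivity
  have h6 := sum_Ioo_inv_sq_le (α := ℝ) 1 (b + 1)
  have h7 : (2 : ℝ) / (((1 : ℕ) : ℝ) + 1) = 1 := by norm_num
  rw [h7] at h6
  nlinarith

/-- number of pairs `(p, q)` with `p + e q = n` -/
def Gn (e : ℕ) (P Q : Finset ℕ) (n : ℕ) : ℕ := ((P ×ˢ Q).filter (fun z => z.1 + e * z.2 = n)).card

lemma sum_Gn (e : ℕ) (P Q : Finset ℕ) (M : ℕ) (h : ∀ p ∈ P, ∀ q ∈ Q, p + e * q < M) :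
    ∑ n ∈ range M, Gn e P Q n = P.card * Q.card := by
  rw [← card_product]
  symm
  apply card_eq_sum_card_fiberwise
  intro z hz
  rw [Finset.mem_coe, mem_product] at hz
  rw [Finset.mem_coe, mem_range]
  exact h _ hz.1 _ hz.2

/-- second moment -/
lemma sum_Gn_sq (e : ℕ) (P Q : Finset ℕ) (N M : ℕ)
    (hP : ∀ p ∈ P, p.Prime ∧ p < N) (hQ : ∀ q ∈ Q, q.Prime ∧ q < N) :
    ∑ n ∈ range M, (Gn e P Q n) ^ 2 ≤
      P.card * Q.card + 2 * ∑ h ∈ Icc 1 N, pairs N (e * h) * pairs N h := by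
  set S : Finset ((ℕ × ℕ) × (ℕ × ℕ)) := ((P ×ˢ Q) ×ˢ (P ×ˢ Q)).filter
    (fun u => u.1.1 + e * u.1.2 = u.2.1 + e * u.2.2) with hS
  have h1 : ∑ n ∈ range M, (Gn e P Q n) ^ 2 ≤ S.card := by
    have e1 : ∑ n ∈ range M, (Gn e P Q n) ^ 2 =
        ((range M).sigma (fun n => ((P ×ˢ Q).filter (fun z => z.1 + e * z.2 = n)) ×ˢ
          ((P ×ˢ Q).filter (fun z => z.1 + e * z.2 = n)))).card := by
      rw [card_sigma]
      apply sum_congr rfl
      intro n _
      rw [card_product, sq]; rfl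
    rw [e1]
    apply card_le_card_of_injOn (fun u => u.2)
    · intro u hu
      rw [Finset.mem_coe, mem_sigma, mem_product, mem_filter, mem_filter] at hu
      rw [Finset.mem_coe, hS, mem_filter, mem_product]
      exact ⟨⟨hu.2.1.1, hu.2.2.1⟩, by rw [hu.2.1.2, hu.2.2.2]⟩
    · intro u hu v hv huv
      rw [Finset.mem_coe, mem_sigma, mem_product, mem_filter, mem_filter] at hu hv
      obtain ⟨a, b⟩ := u
      obtain ⟨c, d⟩ := v
      simp only at huv hu hv
      subst huv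
      have : a = c := by rw [← hu.2.1.2, ← hv.2.1.2]
      subst this
      rfl
  have hsig : ∀ (U : Finset ((ℕ × ℕ) × (ℕ × ℕ))), (∀ u ∈ U, u ∈ S ∧ u.1.2 < u.2.2) →
      U.card ≤ ∑ h ∈ Icc 1 N, pairs N (e * h) * pairs N h := by
    intro U hU
    have h2 : ∑ h ∈ Icc 1 N, pairs N (e * h) * pairs N h =
        ((Icc 1 N).sigma (fun h => ((range N).filter (fun n => n.Prime ∧ (n + e * h).Prime)) ×ˢ
          ((range N).filter (fun n => n.Prime ∧ (n + h).Prime)))).card := by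
      rw [card_sigma]
      apply sum_congr rfl
      intro h _
      rw [card_product]; rfl
    rw [h2]
    apply card_le_card_of_injOn (fun u => (⟨u.2.2 - u.1.2, (u.2.1, u.1.2)⟩ : Sigma (fun _ : ℕ => ℕ × ℕ)))
    · intro u hu
      obtain ⟨h3, h4⟩ := hU u hu
      rw [hS, mem_filter, mem_product, mem_product, mem_product] at h3
      obtain ⟨⟨⟨h5, h6⟩, h7, h8⟩, h9⟩ := h3
      rw [Finset.mem_coe, mem_sigma, mem_product, mem_filter, mem_filter, mem_Icc, mem_range, mem_range]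
      simp only
      have h10 : u.1.2 + (u.2.2 - u.1.2) = u.2.2 := by omega
      have h11 : u.2.1 + e * (u.2.2 - u.1.2) = u.1.1 := by
        have : e * u.2.2 = e * u.1.2 + e * (u.2.2 - u.1.2) := by rw [← mul_add, h10]
        omega
      rw [h10, h11]
      have h12 := (hQ _ h8).2
      exact ⟨⟨by omega, by omega⟩, ⟨(hP _ h7).2, (hP _ h7).1, (hP _ h5).1⟩,
        (hQ _ h6).2, (hQ _ h6).1, (hQ _ h8).1⟩
    · intro u hu v hv huv
      obtain ⟨h3, h4⟩ := hU u hu
      obtain ⟨h5, h6⟩ := hU v hv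
      rw [hS, mem_filter] at h3 h5
      simp only [Sigma.mk.injEq, heq_eq_eq, Prod.mk.injEq] at huv
      obtain ⟨h7, h8, h9⟩ := huv
      have e1 : u.2.2 = v.2.2 := by omega
      have e2 : u.1.1 = v.1.1 := by
        have := h3.2
        have := h5.2
        rw [e1, h8, h9] at h3
        omega
      exact Prod.ext (Prod.ext e2 h9) (Prod.ext h8 e1)
  set D := S.filter (fun u => u.1.2 = u.2.2) with hD
  set L := S.filter (fun u => u.1.2 < u.2.2) with hL
  set G := S.filter (fun u => u.2.2 < u.1.2) with hG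
  have hSsub : S ⊆ D ∪ (L ∪ G) := by
    intro u hu
    rw [mem_union, mem_union]
    rcases lt_trichotomy u.1.2 u.2.2 with h | h | h
    · right; left; exact mem_filter.2 ⟨hu, h⟩
    · left; exact mem_filter.2 ⟨hu, h⟩
    · right; right; exact mem_filter.2 ⟨hu, h⟩
  have hDcard : D.card ≤ P.card * Q.card := by
    rw [← card_product]
    apply card_le_card_of_injOn (fun u => u.1)
    · intro u hu
      rw [Finset.mem_coe, hD, mem_filter, hS, mem_filter, mem_product] at hu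
      exact hu.1.1.1
    · intro u hu v hv huv
      rw [Finset.mem_coe, hD, mem_filter, hS, mem_filter] at hu hv
      simp only at huv
      have e1 : u.2.2 = v.2.2 := by rw [← hu.2, ← hv.2, huv]
      have e2 : u.2.1 = v.2.1 := by
        have a1 := hu.1.2
        have a2 := hv.1.2
        rw [huv] at a1
        rw [e1] at a1
        omega
      exact Prod.ext huv (Prod.ext e2 e1)
  have hLcard := hsig L (fun u hu => ⟨(mem_filter.1 hu).1, (mem_filter.1 hu).2⟩)
  have hGcard : G.card ≤ ∑ h ∈ Icc 1 N, pairs N (e * h) * pairs N h := by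
    have h2 : G.card = (G.image Prod.swap).card := by
      rw [card_image_of_injective _ Prod.swap_injective]
    rw [h2]
    apply hsig
    intro u hu
    rw [mem_image] at hu
    obtain ⟨r, hr, rfl⟩ := hu
    rw [hG, mem_filter, hS, mem_filter, mem_product] at hr
    refine ⟨?_, hr.2⟩
    rw [hS, mem_filter, mem_product]
    exact ⟨⟨hr.1.1.2, hr.1.1.1⟩, hr.1.2.symm⟩
  have h3 := card_le_card hSsub
  have h4 := card_union_le D (L ∪ G)
  have h5 := card_union_le L G
  omega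

lemma Dh_two_mul {h : ℕ} (h0 : h ≠ 0) (hh : 2 ∣ h) : Dh (2 * h) = Dh h := by
  unfold Dh
  have : (2 * h).primeFactors = h.primeFactors := by
    rw [Nat.primeFactors_mul (by norm_num) h0, Nat.Prime.primeFactors Nat.prime_two]
    rw [union_eq_right, singleton_subset_iff]
    exact Nat.mem_primeFactors.2 ⟨Nat.prime_two, hh, h0⟩
  rw [this]

/-- bound for the sum of products of pair counts -/
lemma sum_pairs_pairs (e : ℕ) (he : e = 1 ∨ e = 2) (N y : ℕ) (hy : 2 ≤ y) :
    ∑ h ∈ Icc 1 N, (pairs N (e * h) : ℝ) * pairs N h ≤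
      (N : ℝ) ^ 2 + 2 * Real.exp 30 * (N : ℝ) ^ 3 / (Real.log y) ^ 4 + 18 * N * (y : ℝ) ^ 24 := by
  have hlog : 0 < Real.log y := Real.log_pos (by exact_mod_cast hy)
  have h1 : ∀ h ∈ Icc 1 N, (pairs N (e * h) : ℝ) * pairs N h ≤ N +
      (2 * (N : ℝ) ^ 2 / (Real.log y) ^ 4 * ∏ p ∈ h.primeFactors, (1 + 30 / (p : ℝ)) + 18 * (y : ℝ) ^ 24) := by
    intro h hh
    rw [mem_Icc] at hh
    have hprod : 0 ≤ ∏ p ∈ h.primeFactors, (1 + 30 / (p : ℝ)) := prod_nonneg (fun p _ => by positivity)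
    have hrest : 0 ≤ 2 * (N : ℝ) ^ 2 / (Real.log y) ^ 4 * ∏ p ∈ h.primeFactors, (1 + 30 / (p : ℝ)) +
      18 * (y : ℝ) ^ 24 := by positivity
    by_cases h2 : 2 ∣ h
    · have a1 := pairs_even N h y h2 (by omega) hy
      have a2 : (pairs N (e * h) : ℝ) ≤ N * ((Dh h)⁻¹ ^ 2) / (Real.log y) ^ 2 + 3 * (y : ℝ) ^ 12 := by
        rcases he with rfl | rfl
        · rw [one_mul]; exact a1
        · have := pairs_even N (2 * h) y (Dvd.intro _ rfl) (by omega) hy
          rwa [Dh_two_mul (by omega) h2] at this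
      have a3 := Dh_inv_sq_le h
      have a4 : ((Dh h)⁻¹ ^ 2) ^ 2 ≤ ∏ p ∈ h.primeFactors, (1 + 30 / (p : ℝ)) := by
        calc ((Dh h)⁻¹ ^ 2) ^ 2 ≤ (∏ p ∈ h.primeFactors, (1 + 6 / (p : ℝ))) ^ 2 := by
              apply pow_le_pow_left₀ (by positivity) a3
          _ ≤ _ := by
              rw [← prod_pow]
              apply prod_le_prod
              · intro p _; positivity
              · intro p hp
                have hp' := Nat.prime_of_mem_primeFactors hp
                have hp2 : (2 : ℝ) ≤ p := by exact_mod_cast hp'.two_le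
                have hp0 : (0 : ℝ) < p := by linarith
                have e1 : (1 + 6 / (p : ℝ)) ^ 2 = 1 + 12 / p + 36 / (p * p) := by
                  field_simp; ring
                have e2 : 36 / ((p : ℝ) * p) ≤ 18 / p := by
                  rw [div_le_div_iff₀ (by positivity) hp0]
                  nlinarith
                have e3 : (30 : ℝ) / p = 12 / p + 18 / p := by ring
                rw [e1, e3]; linarith
      set A := N * ((Dh h)⁻¹ ^ 2) / (Real.log y) ^ 2 with hA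
      set B := 3 * (y : ℝ) ^ 12 with hB
      have hA0 : 0 ≤ A := by positivity
      have hB0 : 0 ≤ B := by positivity
      have a5 : (pairs N (e * h) : ℝ) * pairs N h ≤ (A + B) * (A + B) :=
        mul_le_mul a2 a1 (Nat.cast_nonneg _) (by positivity)
      have a6 : (A + B) * (A + B) ≤ 2 * A ^ 2 + 2 * B ^ 2 := by nlinarith [sq_nonneg (A - B)]
      have a7 : 2 * A ^ 2 = 2 * (N : ℝ) ^ 2 / (Real.log y) ^ 4 * ((Dh h)⁻¹ ^ 2) ^ 2 := by
        rw [hA]; field_simp
      have a8 : 2 * A ^ 2 ≤ 2 * (N : ℝ) ^ 2 / (Real.log y) ^ 4 * ∏ p ∈ h.primeFactors, (1 + 30 / (p : ℝ)) := by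
        rw [a7]
        apply mul_le_mul_of_nonneg_left a4 (by positivity)
      have a9 : 2 * B ^ 2 = 18 * (y : ℝ) ^ 24 := by rw [hB]; ring
      have hN0 : (0 : ℝ) ≤ N := Nat.cast_nonneg _
      linarith
    · have a1 : (pairs N h : ℝ) ≤ 1 := by exact_mod_cast pairs_odd N h h2
      have a2 : (pairs N (e * h) : ℝ) ≤ N := by
        have : pairs N (e * h) ≤ N := by
          unfold pairs
          exact (card_filter_le _ _).trans (by rw [card_range])
        exact_mod_cast this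
      calc (pairs N (e * h) : ℝ) * pairs N h ≤ N * 1 :=
            mul_le_mul a2 a1 (Nat.cast_nonneg _) (Nat.cast_nonneg _)
        _ ≤ _ := by linarith
  refine (sum_le_sum h1).trans ?_
  rw [sum_add_distrib, sum_add_distrib, sum_const, sum_const, nsmul_eq_mul, nsmul_eq_mul, Nat.card_Icc,
    Nat.add_sub_cancel, ← mul_sum]
  have h2 := sum_prod_le_gen 30 (by norm_num) N
  have h3 : 2 * (N : ℝ) ^ 2 / (Real.log y) ^ 4 * ∑ h ∈ Icc 1 N, ∏ p ∈ h.primeFactors, (1 + 30 / (p : ℝ)) ≤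
      2 * (N : ℝ) ^ 2 / (Real.log y) ^ 4 * (N * Real.exp 30) :=
    mul_le_mul_of_nonneg_left h2 (by positivity)
  have h4 : 2 * (N : ℝ) ^ 2 / (Real.log y) ^ 4 * (N * Real.exp 30) =
      2 * Real.exp 30 * (N : ℝ) ^ 3 / (Real.log y) ^ 4 := by
    field_simp
  rw [h4] at h3
  nlinarith

/-- Paley–Zygmund -/
lemma paley (I : Finset ℕ) (f : ℕ → ℝ) (N T V : ℝ) (hN : 0 < N) (hI : (I.card : ℝ) ≤ N)
    (hT : T ≤ ∑ i ∈ I, f i) (hT0 : 0 ≤ T) (hV : ∑ i ∈ I, f i ^ 2 ≤ V) :
    T ^ 2 / 4 ≤ ((I.filter (fun i => T / (2 * N) ≤ f i)).card : ℝ) * V := by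
  set J := I.filter (fun i => T / (2 * N) ≤ f i) with hJ
  have h1 : T / 2 ≤ ∑ i ∈ J, f i := by
    have e1 : ∑ i ∈ I, f i = ∑ i ∈ J, f i + ∑ i ∈ I.filter (fun i => ¬ T / (2 * N) ≤ f i), f i :=
      (sum_filter_add_sum_filter_not _ _ _).symm
    have e2 : ∑ i ∈ I.filter (fun i => ¬ T / (2 * N) ≤ f i), f i ≤ T / 2 := by
      calc _ ≤ ∑ i ∈ I.filter (fun i => ¬ T / (2 * N) ≤ f i), T / (2 * N) :=
            sum_le_sum (fun i hi => (not_le.1 (mem_filter.1 hi).2).le)
        _ = ((I.filter (fun i => ¬ T / (2 * N) ≤ f i)).card : ℝ) * (T / (2 * N)) := by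
            rw [sum_const, nsmul_eq_mul]
        _ ≤ N * (T / (2 * N)) := by
            apply mul_le_mul_of_nonneg_right _ (by positivity)
            refine le_trans ?_ hI
            exact_mod_cast card_filter_le _ _
        _ = T / 2 := by field_simp
    linarith
  have h2 : (∑ i ∈ J, f i) ^ 2 ≤ (J.card : ℝ) * ∑ i ∈ J, f i ^ 2 := sq_sum_le_card_mul_sum_sq
  have h3 : ∑ i ∈ J, f i ^ 2 ≤ V := by
    refine le_trans ?_ hV
    exact sum_le_sum_of_subset_of_nonneg (filter_subset _ _) (fun i _ _ => sq_nonneg _)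
  calc T ^ 2 / 4 = (T / 2) ^ 2 := by ring
    _ ≤ (∑ i ∈ J, f i) ^ 2 := by
        apply pow_le_pow_left₀ (by linarith) h1
    _ ≤ (J.card : ℝ) * ∑ i ∈ J, f i ^ 2 := h2
    _ ≤ _ := by
        apply mul_le_mul_of_nonneg_left h3 (Nat.cast_nonneg _)

end Pool.Agent.H.MP_0ec261_nt
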