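import Pool.Agent.H.MP_0ec261_nt.Pos

/-!
A positive proportion of the even, and of the odd, integers `n` has `a(n) ≥ c n / (log n)^2`.
-/

open Finset Filter
open Pool.Agent.H.MP_711652_nt

namespace Pool.Agent.H.MP_0ec261_nt

/-- the larger primes -/
def bigP (N : ℕ) : Finset ℕ := (Ioc (N / 32) (N / 2)).filter Nat.Prime

/-- the smaller primes -/
def smallQ (N : ℕ) : Finset ℕ := (Ioc 2 (N / 32)).filter Nat.Prime

lemma ev_log (K : ℝ) (hK : 0 < K) (k : ℕ) : ∀ᶠ N : ℕ in atTop, K * (Real.log N) ^ k ≤ N := by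
  have h1 := (Real.isLittleO_pow_log_id_atTop (n := k)).bound (c := K⁻¹) (by positivity)
  have h2 := tendsto_natCast_atTop_atTop (R := ℝ) |>.eventually h1
  filter_upwards [h2, eventually_ge_atTop 1] with X hX hX1
  have hlog : 0 ≤ Real.log X := Real.log_nonneg (by exact_mod_cast hX1)
  rw [Real.norm_of_nonneg (by positivity), id, Real.norm_of_nonneg (by positivity)] at hX
  calc K * (Real.log X) ^ k ≤ K * (K⁻¹ * X) := by gcongr
    _ = X := by field_simp

lemma card_PQ : ∀ᶠ N : ℕ in atTop, (N : ℝ) / (10 * Real.log N) ≤ (bigP N).card ∧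
    (N : ℝ) / (100 * Real.log N) ≤ (smallQ N).card := by
  have e1 : ∀ᶠ N : ℕ in atTop, (1000 : ℝ) ≤ Real.log N :=
    (Real.tendsto_log_atTop.comp tendsto_natCast_atTop_atTop).eventually_ge_atTop _
  filter_upwards [e1, ev_log 10000 (by norm_num) 2, eventually_ge_atTop 1] with N hL hLN hN1
  set L := Real.log N with hLdef
  have hL0 : 0 < L := by linarith
  have hN0 : (0 : ℝ) < N := by exact_mod_cast hN1
  have hNbig : (10000 : ℝ) * L ≤ N := by nlinarith
  have hNbig2 : (10000000 : ℝ) ≤ N := by nlinarith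
  have hNbig3 : 10000000 ≤ N := by exact_mod_cast hNbig2
  set A := N / 2 with hA
  set B := N / 32 with hB
  have hA1 : (A : ℝ) ≤ N / 2 := Nat.cast_div_le
  have hA2 : (N : ℝ) / 2 - 1 ≤ A := by
    have : N ≤ 2 * A + 1 := by omega
    have : (N : ℝ) ≤ 2 * A + 1 := by exact_mod_cast this
    linarith
  have hB1 : (B : ℝ) ≤ N / 32 := Nat.cast_div_le
  have hB2 : (N : ℝ) / 32 - 1 ≤ B := by
    have : N ≤ 32 * B + 31 := by omega
    have : (N : ℝ) ≤ 32 * B + 31 := by exact_mod_cast this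
    linarith
  have hl2 : Real.log 2 < 0.6931471808 := Real.log_two_lt_d9
  have hl2' : 0.6931471803 < Real.log 2 := Real.log_two_gt_d9
  have hl4 : Real.log 4 < 1.3864 := by
    have : Real.log 4 = 2 * Real.log 2 := by
      rw [show (4 : ℝ) = 2 ^ 2 by norm_num, Real.log_pow]; norm_num
    linarith
  -- lower bounds
  have low : ∀ D : ℕ, (2 : ℕ) ≤ D → D + 1 ≤ N → ((D : ℝ) * 0.693 - L) / L ≤ Nat.primeCounting D := by
    intro D hD hDN
    have hD0 : (1 : ℝ) < D := by exact_mod_cast hD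
    have hlogD : 0 < Real.log D := Real.log_pos hD0
    have hlogD2 : Real.log D ≤ L := Real.log_le_log (by linarith) (by exact_mod_cast (by omega : D ≤ N))
    have hlogD3 : Real.log (D + 1) ≤ L := by
      apply Real.log_le_log (by linarith)
      exact_mod_cast hDN
    have h5 := Chebyshev.pi_ge D
    by_cases hneg : (D : ℝ) * 0.693 - L ≤ 0
    · calc ((D : ℝ) * 0.693 - L) / L ≤ 0 := div_nonpos_of_nonpos_of_nonneg hneg hL0.le
        _ ≤ _ := Nat.cast_nonneg _
    · push Not at hneg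
      refine le_trans ?_ h5
      calc ((D : ℝ) * 0.693 - L) / L ≤ ((D : ℝ) * 0.693 - L) / Real.log D := by gcongr
        _ ≤ (D * Real.log 2 - Real.log (D + 1)) / Real.log D := by
            apply div_le_div_of_nonneg_right _ hlogD.le
            nlinarith
  have hpA := low A (by omega) (by omega)
  have hpB := low B (by omega) (by omega)
  -- upper bound
  have hBup : (Nat.primeCounting B : ℝ) ≤ 0.11 * N / L := by
    have hB0 : (1 : ℝ) < B := by linarith
    have hB0' : (0 : ℝ) < B := by linarith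
    have h5 := Chebyshev.pi_le_log4_mul_div (x := (B : ℝ)) hB0
    rw [Nat.floor_natCast, Real.log_sqrt hB0'.le] at h5
    have hlogB : 0.9 * L ≤ Real.log B := by
      have e1 : (N : ℝ) / 64 ≤ B := by linarith
      have e2 : Real.log ((N : ℝ) / 64) ≤ Real.log B := Real.log_le_log (by positivity) e1
      rw [Real.log_div hN0.ne' (by norm_num)] at e2
      have e3 : Real.log 64 = 6 * Real.log 2 := by
        rw [show (64 : ℝ) = 2 ^ 6 by norm_num, Real.log_pow]; norm_num
      rw [e3] at e2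
      linarith
    have h6 : Real.log 4 * B / (Real.log B / 2) ≤ 0.097 * N / L := by
      have hlogB0 : 0 < Real.log B := by linarith
      rw [div_le_div_iff₀ (by positivity) hL0]
      have e1 : Real.log 4 * B * L ≤ 1.3864 * (N / 32) * L := by gcongr
      have e2 : 0.097 * N * (0.45 * L) ≤ 0.097 * N * (Real.log B / 2) := by
        apply mul_le_mul_of_nonneg_left _ (by positivity)
        linarith
      nlinarith [mul_pos hN0 hL0]
    have h7 : Real.sqrt B ≤ 0.01 * N / L := by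
      have e1 : Real.sqrt B ≤ Real.sqrt N := Real.sqrt_le_sqrt (by linarith)
      have e2 : Real.sqrt N ≤ 0.01 * N / L := by
        rw [le_div_iff₀ hL0]
        have e3 : 100 * L ≤ Real.sqrt N := by
          apply Real.le_sqrt_of_sq_le
          nlinarith
        have e4 : Real.sqrt N * Real.sqrt N = N := Real.mul_self_sqrt hN0.le
        nlinarith [Real.sqrt_nonneg (N : ℝ)]
      linarith
    have h8 : (0.097 : ℝ) * N / L + 0.01 * N / L ≤ 0.11 * N / L := by
      rw [← add_div]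
      apply div_le_div_of_nonneg_right _ hL0.le
      linarith
    linarith
  have cP : Nat.primeCounting A ≤ Nat.primeCounting B + (bigP N).card := by
    rw [← primes_card, ← primes_card]
    refine le_trans (card_le_card ?_) (card_union_le _ _)
    intro p hp
    rw [mem_filter, mem_range] at hp
    rw [mem_union, mem_filter, mem_range, bigP, mem_filter, mem_Ioc]
    by_cases h : p < B + 1
    · left; exact ⟨h, hp.2⟩
    · right; exact ⟨by omega, hp.2⟩
  have cQ : Nat.primeCounting B ≤ 1 + (smallQ N).card := by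
    rw [← primes_card]
    have : ((range (B + 1)).filter Nat.Prime) ⊆ {2} ∪ smallQ N := by
      intro p hp
      rw [mem_filter, mem_range] at hp
      rw [mem_union, mem_singleton, smallQ, mem_filter, mem_Ioc]
      have := hp.2.two_le
      by_cases h : p = 2
      · left; exact h
      · right; exact ⟨by omega, hp.2⟩
    refine le_trans (card_le_card this) ((card_union_le _ _).trans ?_)
    rw [card_singleton]
  have cP' : (Nat.primeCounting A : ℝ) ≤ Nat.primeCounting B + (bigP N).card := by exact_mod_cast cP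
  have cQ' : (Nat.primeCounting B : ℝ) ≤ 1 + (smallQ N).card := by exact_mod_cast cQ
  have hpA2 : 0.34 * N / L ≤ ((A : ℝ) * 0.693 - L) / L := by
    apply div_le_div_of_nonneg_right _ hL0.le
    nlinarith
  have hpB2 : 0.02 * N / L ≤ ((B : ℝ) * 0.693 - L) / L := by
    apply div_le_div_of_nonneg_right _ hL0.le
    nlinarith
  set v := (N : ℝ) / L with hv
  have hv1 : 10000 ≤ v := by
    rw [hv, le_div_iff₀ hL0]; exact hNbig
  have e1 : 0.34 * (N : ℝ) / L = 0.34 * v := by rw [hv]; ring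
  have e2 : 0.11 * (N : ℝ) / L = 0.11 * v := by rw [hv]; ring
  have e3 : 0.02 * (N : ℝ) / L = 0.02 * v := by rw [hv]; ring
  have e4 : (N : ℝ) / (10 * L) = 0.1 * v := by rw [hv]; field_simp; norm_num
  have e5 : (N : ℝ) / (100 * L) = 0.01 * v := by rw [hv]; field_simp; norm_num
  rw [e1] at hpA2
  rw [e2] at hBup
  rw [e3] at hpB2
  rw [e4, e5]
  constructor
  · linarith
  · linarith

/-- the parity of the numbers represented -/
def Par (e n : ℕ) : Prop := (e = 1 ∧ Even n) ∨ (e = 2 ∧ Odd n)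

lemma Gn_pos_par {e N n : ℕ} (he : e = 1 ∨ e = 2) (hN : 100 ≤ N) (h : 0 < Gn e (bigP N) (smallQ N) n) : Par e n := by
  unfold Gn at h
  rw [card_pos] at h
  obtain ⟨z, hz⟩ := h
  rw [mem_filter, mem_product, bigP, smallQ, mem_filter, mem_filter, mem_Ioc, mem_Ioc] at hz
  obtain ⟨⟨⟨⟨h1, h2⟩, h3⟩, ⟨h4, h5⟩, h6⟩, h7⟩ := hz
  have o1 : Odd z.1 := h3.odd_of_ne_two (by omega)
  have o2 : Odd z.2 := h6.odd_of_ne_two (by omega)
  rcases he with rfl | rfl
  · left
    refine ⟨rfl, ?_⟩
    rw [← h7, one_mul]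
    exact o1.add_odd o2
  · right
    refine ⟨rfl, ?_⟩
    rw [← h7]
    exact o1.add_even (even_two_mul _)

open Classical in
lemma Gn_le_rN {e N n : ℕ} (he : e = 1 ∨ e = 2) (hN : 100 ≤ N) : Gn e (bigP N) (smallQ N) n ≤ rN n := by
  rcases Nat.eq_zero_or_pos (Gn e (bigP N) (smallQ N) n) with h | h
  · rw [h]; exact Nat.zero_le _
  have hpar := Gn_pos_par he hN h
  unfold Gn rN
  apply card_le_card_of_injOn (fun z => z.2)
  · intro z hz
    rw [Finset.mem_coe, mem_filter, mem_product, bigP, smallQ, mem_filter, mem_filter, mem_Ioc, mem_Ioc] at hz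
    obtain ⟨⟨⟨⟨h1, h2⟩, h3⟩, ⟨h4, h5⟩, h6⟩, h7⟩ := hz
    rw [Finset.mem_coe, mem_filter, mem_range]
    beta_reduce
    rcases hpar with ⟨rfl, hp⟩ | ⟨rfl, hp⟩
    · have e1 : n - z.2 = z.1 := by omega
      refine ⟨by omega, h6, by omega, Or.inr ⟨hp, ?_, ?_⟩⟩
      · rw [e1]; exact h3
      · rw [e1]; omega
    · have e1 : n - 2 * z.2 = z.1 := by omega
      refine ⟨by omega, h6, by omega, Or.inl ⟨hp, ?_, ?_⟩⟩
      · rw [e1]; exact h3
      · rw [e1]; omega
  · intro u hu v hv huv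
    rw [Finset.mem_coe, mem_filter] at hu hv
    simp only at huv
    have h1 := hu.2
    have h2 := hv.2
    rw [huv] at h1
    exact Prod.ext (by omega) huv

/-- the constant of the second moment -/
noncomputable def C2 : ℝ := 1 + 4 * Real.exp 30 * 52 ^ 4

open Classical in
/-- many integers of each parity have many representations -/
theorem many_rN : ∀ᶠ N : ℕ in atTop, ∀ e : ℕ, (e = 1 ∨ e = 2) →
    (N : ℝ) / (4000000 * C2) ≤ (((Icc 1 N).filter (fun n => Par e n ∧
      (N : ℝ) / (4000 * (Real.log N) ^ 2) ≤ rN n)).card : ℝ) := by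
  have e1 : ∀ᶠ N : ℕ in atTop, (1000 : ℝ) ≤ Real.log N :=
    (Real.tendsto_log_atTop.comp tendsto_natCast_atTop_atTop).eventually_ge_atTop _
  filter_upwards [e1, card_PQ, ev_log 39 (by norm_num) 4, eventually_ge_atTop 100] with N hL hPQ hL4 hN1
  intro e he
  obtain ⟨hP, hQ⟩ := hPQ
  set L := Real.log N with hLdef
  have hL0 : 0 < L := by linarith
  have hN100 : (100 : ℝ) ≤ N := by exact_mod_cast hN1
  have hN0 : (0 : ℝ) < N := by linarith
  have hC2 : 1 ≤ C2 := by
    unfold C2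
    have : 0 < Real.exp 30 := Real.exp_pos _
    nlinarith
  -- the sieve parameter
  set t : ℝ := (N : ℝ) ^ ((1 : ℝ) / 26) with ht
  set y := ⌊t⌋₊ with hy
  have ht0 : 0 < t := Real.rpow_pos_of_pos hN0 _
  have hlogt : Real.log t = L / 26 := by
    rw [ht, Real.log_rpow hN0]; ring
  have ht4 : 4 ≤ t := by
    have h5 : (8 : ℝ) ≤ Real.log t := by rw [hlogt]; linarith
    have h6 := Real.log_le_sub_one_of_pos ht0
    linarith
  have hyt : (y : ℝ) ≤ t := Nat.floor_le ht0.le
  have hty : t / 2 ≤ y := by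
    have := Nat.lt_floor_add_one t
    have h7 : t < (y : ℝ) + 1 := this
    linarith
  have hy2 : 2 ≤ y := by
    have : (2 : ℝ) ≤ y := by linarith
    exact_mod_cast this
  have hlogy : L / 52 ≤ Real.log y := by
    have h5 : Real.sqrt t ≤ y := by
      refine le_trans ?_ hty
      rw [Real.sqrt_le_left (by linarith)]
      nlinarith
    have h6 : Real.log (Real.sqrt t) ≤ Real.log y := Real.log_le_log (Real.sqrt_pos.2 ht0) h5
    rw [Real.log_sqrt ht0.le, hlogt] at h6
    linarith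
  have hy24 : (y : ℝ) ^ 24 ≤ N := by
    have h5 : t ^ 26 = N := by
      rw [ht, ← Real.rpow_natCast, ← Real.rpow_mul hN0.le]
      norm_num
    have h6 : (y : ℝ) ^ 24 ≤ t ^ 24 := by gcongr
    have h7 : t ^ 24 ≤ t ^ 26 := pow_le_pow_right₀ (by linarith) (by norm_num)
    linarith
  -- primes
  have hPp : ∀ p ∈ bigP N, p.Prime ∧ p < N := by
    intro p hp
    rw [bigP, mem_filter, mem_Ioc] at hp
    exact ⟨hp.2, by omega⟩
  have hQp : ∀ q ∈ smallQ N, q.Prime ∧ q < N := by
    intro p hp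
    rw [smallQ, mem_filter, mem_Ioc] at hp
    exact ⟨hp.2, by omega⟩
  have hPc : (bigP N).card ≤ N := by
    have : bigP N ⊆ range N := fun p hp => mem_range.2 (hPp p hp).2
    exact (card_le_card this).trans (by rw [card_range])
  have hQc : (smallQ N).card ≤ N := by
    have : smallQ N ⊆ range N := fun p hp => mem_range.2 (hQp p hp).2
    exact (card_le_card this).trans (by rw [card_range])
  have hsum := sum_Gn e (bigP N) (smallQ N) (N + 1) (by
    intro p hp q hq
    rw [bigP, mem_filter, mem_Ioc] at hp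
    rw [smallQ, mem_filter, mem_Ioc] at hq
    rcases he with rfl | rfl <;> omega)
  have hsq := sum_Gn_sq e (bigP N) (smallQ N) N (N + 1) hPp hQp
  have hpp := sum_pairs_pairs e he N y hy2
  set V : ℝ := C2 * (N : ℝ) ^ 3 / L ^ 4 with hV
  have hV1 : ∑ n ∈ range (N + 1), ((Gn e (bigP N) (smallQ N) n : ℕ) : ℝ) ^ 2 ≤ V := by
    have a1 : ∑ n ∈ range (N + 1), ((Gn e (bigP N) (smallQ N) n : ℕ) : ℝ) ^ 2 ≤
        ((bigP N).card : ℝ) * (smallQ N).card + 2 * ∑ h ∈ Icc 1 N, (pairs N (e * h) : ℝ) * pairs N h := by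
      exact_mod_cast hsq
    have a2 : ((bigP N).card : ℝ) * (smallQ N).card ≤ N * N := by
      exact_mod_cast Nat.mul_le_mul hPc hQc
    have a3 : 2 * Real.exp 30 * (N : ℝ) ^ 3 / (Real.log y) ^ 4 ≤ 2 * Real.exp 30 * (N : ℝ) ^ 3 / (L / 52) ^ 4 := by
      apply div_le_div_of_nonneg_left (by positivity) (by positivity)
      exact pow_le_pow_left₀ (by positivity) hlogy 4
    have a4 : 2 * Real.exp 30 * (N : ℝ) ^ 3 / (L / 52) ^ 4 = 2 * Real.exp 30 * 52 ^ 4 * ((N : ℝ) ^ 3 / L ^ 4) := by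
      field_simp
    have a5 : 18 * (N : ℝ) * (y : ℝ) ^ 24 ≤ 18 * N * N := by gcongr
    have a6 : 39 * (N : ℝ) ^ 2 ≤ (N : ℝ) ^ 3 / L ^ 4 := by
      rw [le_div_iff₀ (by positivity)]
      calc 39 * (N : ℝ) ^ 2 * L ^ 4 = (N : ℝ) ^ 2 * (39 * L ^ 4) := by ring
        _ ≤ (N : ℝ) ^ 2 * N := by gcongr
        _ = _ := by ring
    have a7 : V = (N : ℝ) ^ 3 / L ^ 4 + 2 * (2 * Real.exp 30 * 52 ^ 4 * ((N : ℝ) ^ 3 / L ^ 4)) := by
      rw [hV, C2]; ring
    rw [a4] at a3
    rw [a7]
    nlinarith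
  have hT1 : (N : ℝ) ^ 2 / (1000 * L ^ 2) ≤ ∑ n ∈ range (N + 1), ((Gn e (bigP N) (smallQ N) n : ℕ) : ℝ) := by
    have a1 : ∑ n ∈ range (N + 1), ((Gn e (bigP N) (smallQ N) n : ℕ) : ℝ) = ((bigP N).card : ℝ) * (smallQ N).card := by
      exact_mod_cast hsum
    rw [a1]
    calc (N : ℝ) ^ 2 / (1000 * L ^ 2) = (N : ℝ) / (10 * L) * (N / (100 * L)) := by
          field_simp; norm_num
      _ ≤ _ := mul_le_mul hP hQ (by positivity) (Nat.cast_nonneg _)
  have hpal := paley (range (N + 1)) (fun n => ((Gn e (bigP N) (smallQ N) n : ℕ) : ℝ)) (2 * N)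
    ((N : ℝ) ^ 2 / (1000 * L ^ 2)) V (by positivity) (by rw [card_range]; push_cast; linarith) hT1
    (by positivity) hV1
  set J := (range (N + 1)).filter (fun n => (N : ℝ) ^ 2 / (1000 * L ^ 2) / (2 * (2 * N)) ≤
    ((Gn e (bigP N) (smallQ N) n : ℕ) : ℝ)) with hJ
  have e2 : (N : ℝ) ^ 2 / (1000 * L ^ 2) / (2 * (2 * N)) = N / (4000 * L ^ 2) := by
    field_simp; norm_num
  have hJsub : J ⊆ (Icc 1 N).filter (fun n => Par e n ∧ (N : ℝ) / (4000 * L ^ 2) ≤ rN n) := by
    intro n hn
    rw [hJ, mem_filter, mem_range, e2] at hn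
    have hpos : (0 : ℝ) < N / (4000 * L ^ 2) := by positivity
    have hg : 0 < Gn e (bigP N) (smallQ N) n := by
      have : (0 : ℝ) < (Gn e (bigP N) (smallQ N) n : ℕ) := lt_of_lt_of_le hpos hn.2
      exact_mod_cast this
    have hle : ((Gn e (bigP N) (smallQ N) n : ℕ) : ℝ) ≤ rN n := by exact_mod_cast Gn_le_rN he hN1
    rw [mem_filter, mem_Icc]
    refine ⟨⟨?_, by omega⟩, Gn_pos_par he hN1 hg, hn.2.trans hle⟩
    rcases Nat.eq_zero_or_pos n with h0 | h0
    · exfalso
      subst h0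
      unfold Gn at hg
      rw [card_pos] at hg
      obtain ⟨z, hz⟩ := hg
      rw [mem_filter, mem_product] at hz
      have := (hPp _ hz.1.1).1.pos
      omega
    · exact h0
  have hcard : (J.card : ℝ) ≤ (((Icc 1 N).filter (fun n => Par e n ∧
      (N : ℝ) / (4000 * L ^ 2) ≤ rN n)).card : ℝ) := by exact_mod_cast card_le_card hJsub
  refine le_trans ?_ hcard
  have hVpos : 0 < V := by rw [hV]; positivity
  have e3 : ((N : ℝ) ^ 2 / (1000 * L ^ 2)) ^ 2 / 4 = N / (4000000 * C2) * V := by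
    rw [hV]
    have : C2 ≠ 0 := by positivity
    field_simp
    norm_num
  rw [e3] at hpal
  exact le_of_mul_le_mul_right hpal hVpos

lemma ev_exp (K : ℝ) (hK : 0 < K) : ∀ᶠ w : ℝ in atTop, K * w ^ 4 ≤ Real.exp (w / 200) := by
  have h1 := Real.tendsto_pow_mul_exp_neg_atTop_nhds_zero 4
  have h2 : Tendsto (fun w : ℝ => w / 200) atTop atTop := tendsto_id.atTop_div_const (by norm_num)
  have h3 := h1.comp h2
  have h4 : ∀ᶠ w : ℝ in atTop, (w / 200) ^ 4 * Real.exp (-(w / 200)) < 1 / (K * 200 ^ 4) :=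
    h3.eventually (gt_mem_nhds (by positivity))
  filter_upwards [h4, eventually_ge_atTop (1 : ℝ)] with w hw hw1
  have e2 : (w / 200) ^ 4 * Real.exp (-(w / 200)) * Real.exp (w / 200) = (w / 200) ^ 4 := by
    rw [mul_assoc, ← Real.exp_add]; simp
  have e3 : (w / 200) ^ 4 ≤ 1 / (K * 200 ^ 4) * Real.exp (w / 200) := by
    rw [← e2]
    exact mul_le_mul_of_nonneg_right hw.le (Real.exp_pos _).le
  calc K * w ^ 4 = (K * 200 ^ 4) * (w / 200) ^ 4 := by ring
    _ ≤ (K * 200 ^ 4) * (1 / (K * 200 ^ 4) * Real.exp (w / 200)) := by gcongr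
    _ = _ := by field_simp

open Classical in
/-- **Positive proportion.** -/
theorem many_aN : ∃ c : ℝ, 0 < c ∧ ∃ N₀ : ℕ, ∀ N : ℕ, N₀ ≤ N →
    (c * N ≤ (((Icc 1 N).filter (fun n => Even n ∧ c * N / (Real.log N) ^ 2 ≤ aN n)).card : ℝ)) ∧
    (c * N ≤ (((Icc 1 N).filter (fun n => Odd n ∧ c * N / (Real.log N) ^ 2 ≤ aN n)).card : ℝ)) := by
  have hC2 : 1 ≤ C2 := by
    unfold C2
    have : 0 < Real.exp 30 := Real.exp_pos _
    nlinarith
  obtain ⟨N₁, h1⟩ := almost_all
  have ev1 := tendsto_w.eventually (ev_exp (8000000 * C2) (by positivity))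
  have e1 : ∀ᶠ N : ℕ in atTop, (1000 : ℝ) ≤ Real.log N :=
    (Real.tendsto_log_atTop.comp tendsto_natCast_atTop_atTop).eventually_ge_atTop _
  obtain ⟨N₀, h0⟩ := (ev1.and (e1.and (many_rN.and ((eventually_ge_atTop N₁).and
    (eventually_ge_atTop 100))))).exists_forall_of_atTop
  refine ⟨1 / (8000000 * C2), by positivity, N₀, fun N hN => ?_⟩
  obtain ⟨a1, a2, a3, a4, a5⟩ := h0 N hN
  have h2 := h1 N a4
  set L := Real.log N with hL
  set w := Real.sqrt L with hw
  set E := Real.exp (-(w / 200)) with hE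
  have hL0 : 0 < L := by linarith
  have hN100 : (100 : ℝ) ≤ N := by exact_mod_cast a5
  have hN0 : (0 : ℝ) < N := by linarith
  have hw2 : w ^ 2 = L := Real.sq_sqrt hL0.le
  have hw4 : w ^ 4 = L ^ 2 := by rw [← hw2]; ring
  rw [hw4] at a1
  have hEle : E ≤ 1 / (8000000 * C2 * L ^ 2) := by
    rw [hE, Real.exp_neg, inv_eq_one_div]
    exact one_div_le_one_div_of_le (by positivity) a1
  have hE1 : E ≤ 1 / (8000 * L ^ 2) := by
    refine hEle.trans (one_div_le_one_div_of_le (by positivity) ?_)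
    have : 8000 * L ^ 2 ≤ 8000000 * 1 * L ^ 2 := by nlinarith [sq_nonneg L]
    refine this.trans ?_
    gcongr
  have hE2 : E ≤ 1 / (8000000 * C2) := by
    refine hEle.trans (one_div_le_one_div_of_le (by positivity) ?_)
    have : (1 : ℝ) ≤ L ^ 2 := by nlinarith
    nlinarith
  set B := (Icc 1 N).filter (fun n => (N : ℝ) * E < |2 * (aN n : ℝ) - rN n|) with hB
  have key : ∀ e : ℕ, (e = 1 ∨ e = 2) → 1 / (8000000 * C2) * N ≤
      (((Icc 1 N).filter (fun n => Par e n ∧ 1 / (8000000 * C2) * N / L ^ 2 ≤ aN n)).card : ℝ) := by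
    intro e he
    have b1 := a3 e he
    set J := (Icc 1 N).filter (fun n => Par e n ∧ (N : ℝ) / (4000 * L ^ 2) ≤ rN n) with hJ
    have hsub : J ⊆ B ∪ (Icc 1 N).filter (fun n => Par e n ∧ 1 / (8000000 * C2) * N / L ^ 2 ≤ aN n) := by
      intro n hn
      rw [hJ, mem_filter] at hn
      obtain ⟨c1, c2, c3⟩ := hn
      rw [mem_union]
      by_cases hb : n ∈ B
      · left; exact hb
      · right
        rw [hB, mem_filter] at hb
        have c4 : |2 * (aN n : ℝ) - rN n| ≤ N * E := by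
          by_contra hcon
          push Not at hcon
          exact hb ⟨c1, hcon⟩
        have c5 := (abs_le.1 c4).1
        have c6 : (N : ℝ) * E ≤ N / (8000 * L ^ 2) := by
          calc (N : ℝ) * E ≤ N * (1 / (8000 * L ^ 2)) := by gcongr
            _ = _ := by ring
        have c7 : (N : ℝ) / (4000 * L ^ 2) = N / (8000 * L ^ 2) + N / (8000 * L ^ 2) := by
          field_simp; norm_num
        have c8 : (N : ℝ) / (8000 * L ^ 2) ≤ 2 * aN n := by linarith
        rw [mem_filter]
        refine ⟨c1, c2, ?_⟩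
        have c9 : 1 / (8000000 * C2) * N / L ^ 2 ≤ (1 / 2) * ((N : ℝ) / (8000 * L ^ 2)) := by
          have : 1 / (8000000 * C2) * N / L ^ 2 = 1 / (8000000 * C2) * (N / L ^ 2) := by ring
          rw [this]
          have d1 : (1 / 2) * ((N : ℝ) / (8000 * L ^ 2)) = 1 / 16000 * (N / L ^ 2) := by
            field_simp; norm_num
          rw [d1]
          apply mul_le_mul_of_nonneg_right _ (by positivity)
          apply one_div_le_one_div_of_le (by norm_num)
          nlinarith
        linarith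
    have b2 := (card_le_card hsub).trans (card_union_le _ _)
    have b3 : (J.card : ℝ) ≤ B.card +
        (((Icc 1 N).filter (fun n => Par e n ∧ 1 / (8000000 * C2) * N / L ^ 2 ≤ aN n)).card : ℝ) := by
      exact_mod_cast b2
    have b4 : (B.card : ℝ) ≤ 1 / (8000000 * C2) * N := by
      calc (B.card : ℝ) ≤ N * E := h2
        _ ≤ N * (1 / (8000000 * C2)) := by gcongr
        _ = _ := by ring
    have b5 : (N : ℝ) / (4000000 * C2) = 1 / (8000000 * C2) * N + 1 / (8000000 * C2) * N := by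
      field_simp; norm_num
    linarith
  constructor
  · have := key 1 (Or.inl rfl)
    refine this.trans ?_
    have hs : (Icc 1 N).filter (fun n => Par 1 n ∧ 1 / (8000000 * C2) * N / L ^ 2 ≤ aN n) ⊆
        (Icc 1 N).filter (fun n => Even n ∧ 1 / (8000000 * C2) * N / L ^ 2 ≤ aN n) := by
      intro n hn
      rw [mem_filter] at hn ⊢
      refine ⟨hn.1, ?_, hn.2.2⟩
      rcases hn.2.1 with h | h
      · exact h.2
      · exact absurd h.1 (by norm_num)
    exact_mod_cast card_le_card hs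
  · have := key 2 (Or.inr rfl)
    refine this.trans ?_
    have hs : (Icc 1 N).filter (fun n => Par 2 n ∧ 1 / (8000000 * C2) * N / L ^ 2 ≤ aN n) ⊆
        (Icc 1 N).filter (fun n => Odd n ∧ 1 / (8000000 * C2) * N / L ^ 2 ≤ aN n) := by
      intro n hn
      rw [mem_filter] at hn ⊢
      refine ⟨hn.1, ?_, hn.2.2⟩
      rcases hn.2.1 with h | h
      · exact absurd h.1 (by norm_num)
      · exact h.2
    exact_mod_cast card_le_card hs

end Pool.Agent.H.MP_0ec261_nt
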