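import Pool.Agent.H.MP_0ec261_nt.TypeII

/-!
The second moment sums of the type II estimate.
-/

open Finset NumberTheorySymbols

namespace Pool.Agent.H.MP_0ec261_nt

/-- correlation of two points -/
noncomputable def FF (I : Finset ℕ) (u v : ℤ) : ℝ := ∑ r ∈ I, (J(2 * u | r) : ℝ) * J(2 * v | r)

lemma sum_Icc_int (X : ℕ) (f : ℤ → ℝ) (h0 : f 0 = 0) :
    ∑ u ∈ Icc (1 : ℤ) X, f u = ∑ n ∈ range (X + 1), f n := by
  rw [sum_range_succ']
  simp only [Nat.cast_zero, h0, add_zero]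
  symm
  apply sum_nbij' (fun n : ℕ => ((n + 1 : ℕ) : ℤ)) (fun u : ℤ => (u - 1).toNat)
  · intro n hn
    rw [mem_range] at hn
    rw [mem_Icc]
    omega
  · intro u hu
    rw [mem_Icc] at hu
    rw [mem_range]
    omega
  · intro n _
    simp
  · intro u hu
    rw [mem_Icc] at hu
    omega
  · intro n _
    rfl

lemma FF_le (I : Finset ℕ) (u v : ℤ) : |FF I u v| ≤ I.card := by
  unfold FF
  calc _ ≤ ∑ r ∈ I, |(J(2 * u | r) : ℝ) * J(2 * v | r)| := abs_sum_le_sum_abs _ _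
    _ ≤ ∑ r ∈ I, 1 := by
        apply sum_le_sum
        intro r _
        rw [abs_mul]
        exact mul_le_one₀ (abs_J_real _ _) (abs_nonneg _) (abs_J_real _ _)
    _ = _ := by simp

lemma inner_J {X R K r r' : ℕ} (hr : r.Prime ∧ R ≤ r ∧ r < R + K) (hr' : r'.Prime ∧ R ≤ r' ∧ r' < R + K)
    (hne : r ≠ r') (hR : 3 ≤ R) (hKR : K ≤ R) (hRX : R * R ≤ X) :
    |∑ u ∈ Icc (1 : ℤ) X, (J(2 * u | r) : ℝ) * J(2 * u | r')| ≤
      4 * (X + 1) / Real.sqrt R + 2 * R := by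
  have hr2 : r ≠ 2 := by omega
  have hr2' : r' ≠ 2 := by omega
  rw [sum_Icc_int]
  · have e1 : ∑ n ∈ range (X + 1), (J(2 * (n : ℤ) | r) : ℝ) * J(2 * (n : ℤ) | r') =
        ((J(2 | r) : ℝ) * J(2 | r')) * ∑ n ∈ range (X + 1), ((J(n | r) * J(n | r') : ℤ) : ℝ) := by
      rw [mul_sum]
      apply sum_congr rfl
      intro n _
      rw [jacobiSym.mul_left, jacobiSym.mul_left]
      push_cast
      ring
    rw [e1, abs_mul]
    have h1 : |((J(2 | r) : ℤ) : ℝ) * J(2 | r')| ≤ 1 := by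
      rw [abs_mul]
      exact mul_le_one₀ (abs_J_real _ _) (abs_nonneg _) (abs_J_real _ _)
    have h2 : r * r' ≤ 4 * (X + 1) := by
      have : r * r' ≤ (2 * R) * (2 * R) := Nat.mul_le_mul (by omega) (by omega)
      have e : (2 * R) * (2 * R) = 4 * (R * R) := by ring
      omega
    have h3 := short_sum hr.1 hr'.1 hr2 hr2' hne (by omega : 1 ≤ R) hr.2.1 hr'.2.1 h2
    push_cast at h3 ⊢
    calc _ ≤ 1 * |∑ n ∈ range (X + 1), (J((n : ℤ) | r) : ℝ) * (J((n : ℤ) | r') : ℝ)| :=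
          mul_le_mul_of_nonneg_right h1 (abs_nonneg _)
      _ ≤ _ := by rw [one_mul]; exact h3
  · have : J(0 | r) = 0 := jacobiSym.zero_left hr.1.one_lt
    simp [this]

lemma sum_FF_sq {X R K : ℕ} {I : Finset ℕ} (hI : ∀ r ∈ I, r.Prime ∧ R ≤ r ∧ r < R + K) (hR : 3 ≤ R)
    (hKR : K ≤ R) (hRX : R * R ≤ X) :
    ∑ p ∈ Icc (1 : ℤ) X ×ˢ Icc (1 : ℤ) X, (FF I p.1 p.2) ^ 2 ≤
      I.card * (X : ℝ) ^ 2 + (I.card : ℝ) ^ 2 * (4 * (X + 1) / Real.sqrt R + 2 * R) ^ 2 := by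
  set S : ℝ := 4 * (X + 1) / Real.sqrt R + 2 * R with hS
  have e0 : ∑ p ∈ Icc (1 : ℤ) X ×ˢ Icc (1 : ℤ) X, (FF I p.1 p.2) ^ 2 =
      ∑ r ∈ I, ∑ r' ∈ I, (∑ u ∈ Icc (1 : ℤ) X, (J(2 * u | r) : ℝ) * J(2 * u | r')) ^ 2 := by
    rw [sum_product]
    have e1 : ∀ u v : ℤ, (FF I u v) ^ 2 = ∑ r ∈ I, ∑ r' ∈ I,
        ((J(2 * u | r) : ℝ) * J(2 * u | r')) * ((J(2 * v | r) : ℝ) * J(2 * v | r')) := by
      intro u v
      unfold FF
      rw [sq, sum_mul_sum]
      apply sum_congr rfl; intro r _; apply sum_congr rfl; intro r' _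
      ring
    simp_rw [e1]
    have e2 : ∀ u : ℤ, ∑ v ∈ Icc (1 : ℤ) X, ∑ r ∈ I, ∑ r' ∈ I,
        ((J(2 * u | r) : ℝ) * J(2 * u | r')) * ((J(2 * v | r) : ℝ) * J(2 * v | r')) =
        ∑ r ∈ I, ∑ r' ∈ I, ((J(2 * u | r) : ℝ) * J(2 * u | r')) *
          ∑ v ∈ Icc (1 : ℤ) X, ((J(2 * v | r) : ℝ) * J(2 * v | r')) := by
      intro u
      rw [sum_comm]
      apply sum_congr rfl; intro r _
      rw [sum_comm]
      apply sum_congr rfl; intro r' _
      rw [mul_sum]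
    simp_rw [e2]
    rw [sum_comm]
    apply sum_congr rfl; intro r _
    rw [sum_comm]
    apply sum_congr rfl; intro r' _
    rw [← sum_mul, sq]
  rw [e0]
  have h1 : ∀ r ∈ I, ∀ r' ∈ I, (∑ u ∈ Icc (1 : ℤ) X, (J(2 * u | r) : ℝ) * J(2 * u | r')) ^ 2 ≤
      (if r = r' then (X : ℝ) ^ 2 else 0) + S ^ 2 := by
    intro r hr r' hr'
    by_cases he : r = r'
    · rw [if_pos he]
      have h2 : |∑ u ∈ Icc (1 : ℤ) X, (J(2 * u | r) : ℝ) * J(2 * u | r')| ≤ X := by
        calc _ ≤ ∑ u ∈ Icc (1 : ℤ) X, |(J(2 * u | r) : ℝ) * J(2 * u | r')| := abs_sum_le_sum_abs _ _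
          _ ≤ ∑ u ∈ Icc (1 : ℤ) X, 1 := by
              apply sum_le_sum
              intro u _
              rw [abs_mul]
              exact mul_le_one₀ (abs_J_real _ _) (abs_nonneg _) (abs_J_real _ _)
          _ = _ := by simp
      have h3 := pow_le_pow_left₀ (abs_nonneg _) h2 2
      rw [sq_abs] at h3
      have h4 := sq_nonneg S
      linarith
    · rw [if_neg he, zero_add]
      have h2 := inner_J (hI r hr) (hI r' hr') he hR hKR hRX
      have h3 := pow_le_pow_left₀ (abs_nonneg _) h2 2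
      rw [sq_abs] at h3
      exact h3
  calc _ ≤ ∑ r ∈ I, ∑ r' ∈ I, ((if r = r' then (X : ℝ) ^ 2 else 0) + S ^ 2) :=
        sum_le_sum (fun r hr => sum_le_sum (fun r' hr' => h1 r hr r' hr'))
    _ = _ := by
        simp_rw [sum_add_distrib, sum_ite_eq]
        rw [sum_ite_mem, inter_self]
        simp only [sum_const, nsmul_eq_mul]
        ring

/-- second moment of the windows -/
noncomputable def WW (c : ℤ → ℝ) (𝒦 : Finset ℕ) (X : ℕ) (h : ℤ) (r : ℕ) : ℝ :=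
  ∑ n ∈ Icc (1 : ℤ) X, (∑ k ∈ 𝒦, gg c r (n + h * k)) ^ 2

lemma WW_nonneg (c : ℤ → ℝ) (𝒦 : Finset ℕ) (X : ℕ) (h : ℤ) (r : ℕ) : 0 ≤ WW c 𝒦 X h r :=
  sum_nonneg (fun _ _ => sq_nonneg _)

lemma sum_WW_r {X : ℕ} {c : ℤ → ℝ} (𝒦 I : Finset ℕ) (h : ℤ) :
    ∑ r ∈ I, WW c 𝒦 X h r =
      ∑ n ∈ Icc (1 : ℤ) X, ∑ q ∈ 𝒦 ×ˢ 𝒦, (c (n + h * q.1) * c (n + h * q.2)) *
        FF I (n + h * q.1) (n + h * q.2) := by
  unfold WW
  rw [sum_comm]
  apply sum_congr rfl
  intro n _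
  have e1 : ∀ r, (∑ k ∈ 𝒦, gg c r (n + h * k)) ^ 2 = ∑ q ∈ 𝒦 ×ˢ 𝒦,
      (c (n + h * q.1) * c (n + h * q.2)) * ((J(2 * (n + h * q.1) | r) : ℝ) * J(2 * (n + h * q.2) | r)) := by
    intro r
    rw [sq, sum_mul_sum, ← sum_product']
    apply sum_congr rfl
    intro q _
    unfold gg
    ring
  simp_rw [e1]
  rw [sum_comm]
  apply sum_congr rfl
  intro q _
  unfold FF
  rw [mul_sum]

/-- signed divisors -/
def sdiv (m : ℕ) : Finset ℤ :=
  (m.divisors.image (fun d : ℕ => (d : ℤ))) ∪ (m.divisors.image (fun d : ℕ => -(d : ℤ)))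

lemma card_sdiv (m : ℕ) : (sdiv m).card ≤ 2 * m.divisors.card := by
  unfold sdiv
  refine (card_union_le _ _).trans ?_
  have h1 : (m.divisors.image (fun d : ℕ => (d : ℤ))).card ≤ m.divisors.card := card_image_le
  have h2 : (m.divisors.image (fun d : ℕ => -(d : ℤ))).card ≤ m.divisors.card := card_image_le
  omega

lemma mem_sdiv {m : ℕ} (hm : m ≠ 0) {h : ℤ} (hh : h ∣ (m : ℤ)) : h ∈ sdiv m := by
  unfold sdiv
  rw [mem_union, mem_image, mem_image]
  rcases le_total 0 h with h0 | h0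
  · left
    refine ⟨h.toNat, ?_, Int.toNat_of_nonneg h0⟩
    rw [Nat.mem_divisors]
    refine ⟨?_, hm⟩
    rw [← Int.natCast_dvd_natCast, Int.toNat_of_nonneg h0]
    exact hh
  · right
    refine ⟨(-h).toNat, ?_, ?_⟩
    · rw [Nat.mem_divisors]
      refine ⟨?_, hm⟩
      rw [← Int.natCast_dvd_natCast, Int.toNat_of_nonneg (by omega)]
      exact (neg_dvd).2 hh
    · rw [Int.toNat_of_nonneg (by omega)]
      ring

lemma sum_WW {X M : ℕ} {c : ℤ → ℝ} (hc : ∀ n, |c n| ≤ 1) (hc0 : ∀ n, c n ≠ 0 → n ∈ Icc (1 : ℤ) X)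
    (𝒦 I : Finset ℕ) (h𝒦 : 𝒦.card ≤ M) (ℋ : Finset ℤ) (hℋ : ∀ h ∈ ℋ, h ≠ 0) :
    ∑ h ∈ ℋ, ∑ r ∈ I, WW c 𝒦 X h r ≤ (ℋ.card : ℝ) * X * 𝒦.card * I.card +
      ∑ p ∈ (Icc (1 : ℤ) X ×ˢ Icc (1 : ℤ) X).filter (fun p => p.1 ≠ p.2),
        ((2 * M : ℝ) * ((p.1 - p.2).natAbs.divisors.card : ℝ)) * |FF I p.1 p.2| := by
  classical
  set P := Icc (1 : ℤ) X with hP
  -- pointwise bound
  have hb : ∀ u v : ℤ, (c u * c v) * FF I u v ≤ if (u ∈ P ∧ v ∈ P) then |FF I u v| else 0 := by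
    intro u v
    by_cases hu : u ∈ P ∧ v ∈ P
    · rw [if_pos hu]
      calc (c u * c v) * FF I u v ≤ |(c u * c v) * FF I u v| := le_abs_self _
        _ = |c u * c v| * |FF I u v| := abs_mul _ _
        _ ≤ 1 * |FF I u v| := by
            apply mul_le_mul_of_nonneg_right _ (abs_nonneg _)
            rw [abs_mul]
            exact mul_le_one₀ (hc u) (abs_nonneg _) (hc v)
        _ = _ := one_mul _
    · rw [if_neg hu]
      have : c u * c v = 0 := by
        by_contra hne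
        apply hu
        have hne' := mul_ne_zero_iff.1 hne
        exact ⟨hc0 u hne'.1, hc0 v hne'.2⟩
      rw [this, zero_mul]
  set T0 := (ℋ ×ˢ P) ×ˢ (𝒦 ×ˢ 𝒦) with hT0
  have e1 : ∑ h ∈ ℋ, ∑ r ∈ I, WW c 𝒦 X h r ≤
      ∑ q ∈ T0, if (q.1.2 + q.1.1 * q.2.1 ∈ P ∧ q.1.2 + q.1.1 * q.2.2 ∈ P) then
        |FF I (q.1.2 + q.1.1 * q.2.1) (q.1.2 + q.1.1 * q.2.2)| else 0 := by
    rw [hT0, sum_product (s := ℋ ×ˢ P) (t := 𝒦 ×ˢ 𝒦), sum_product (s := ℋ) (t := P)]
    apply sum_le_sum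
    intro h _
    rw [sum_WW_r]
    apply sum_le_sum
    intro n _
    apply sum_le_sum
    intro q _
    exact hb _ _
  refine e1.trans ?_
  rw [← sum_filter_add_sum_filter_not T0 (fun q => q.2.1 = q.2.2)]
  apply add_le_add
  · -- diagonal
    calc _ ≤ ∑ q ∈ T0.filter (fun q => q.2.1 = q.2.2), (I.card : ℝ) := by
          apply sum_le_sum
          intro q _
          split_ifs
          · exact FF_le _ _ _
          · positivity
      _ = ((T0.filter (fun q => q.2.1 = q.2.2)).card : ℝ) * I.card := by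
          rw [sum_const, nsmul_eq_mul]
      _ ≤ ((ℋ.card * X * 𝒦.card : ℕ) : ℝ) * I.card := by
          apply mul_le_mul_of_nonneg_right _ (Nat.cast_nonneg _)
          have : (T0.filter (fun q => q.2.1 = q.2.2)).card ≤ ((ℋ ×ˢ P) ×ˢ 𝒦).card := by
            apply card_le_card_of_injOn (fun q => (q.1, q.2.1))
            · intro q hq
              simp only [hT0, coe_filter, Set.mem_setOf_eq, mem_product] at hq
              simp only [coe_product, Set.mem_prod, mem_coe]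
              exact ⟨hq.1.1, hq.1.2.1⟩
            · rintro ⟨a, b, b'⟩ hq ⟨a', d, d'⟩ hq' he
              simp only [hT0, coe_filter, Set.mem_setOf_eq] at hq hq'
              simp only [Prod.mk.injEq] at he ⊢
              have h1 := hq.2
              have h2 := hq'.2
              refine ⟨he.1, he.2, ?_⟩
              rw [← h1, ← h2]; exact he.2
          rw [card_product, card_product] at this
          have h3 : P.card = X := by rw [hP, Int.card_Icc]; omega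
          rw [h3] at this
          exact_mod_cast this
      _ = _ := by push_cast; ring
  · -- off-diagonal
    rw [← sum_filter]
    set T := (T0.filter (fun q => ¬ q.2.1 = q.2.2)).filter (fun q : (ℤ × ℤ) × (ℕ × ℕ) =>
      q.1.2 + q.1.1 * q.2.1 ∈ P ∧ q.1.2 + q.1.1 * q.2.2 ∈ P) with hT
    refine sum_comp_le T ((P ×ˢ P).filter (fun p => p.1 ≠ p.2))
      (fun q : (ℤ × ℤ) × (ℕ × ℕ) => (q.1.2 + q.1.1 * q.2.1, q.1.2 + q.1.1 * q.2.2)) ?_
      (fun p => (2 * M : ℝ) * ((p.1 - p.2).natAbs.divisors.card : ℝ)) ?_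
      (fun p => |FF I p.1 p.2|) ?_
    · intro q hq
      rw [hT, mem_filter, mem_filter, hT0, mem_product, mem_product, mem_product] at hq
      rw [mem_filter, mem_product]
      refine ⟨hq.2, ?_⟩
      simp only
      intro he
      have h0 := hℋ _ hq.1.1.1.1
      have h1 : q.1.1 * (q.2.1 : ℤ) = q.1.1 * (q.2.2 : ℤ) := by linarith
      have h2 := mul_left_cancel₀ h0 h1
      exact hq.1.2 (by exact_mod_cast h2)
    · intro p hp
      rw [mem_filter] at hp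
      have hne : (p.1 - p.2).natAbs ≠ 0 := by
        rw [Int.natAbs_ne_zero]
        exact sub_ne_zero.2 hp.2
      have h1 : (T.filter (fun q : (ℤ × ℤ) × (ℕ × ℕ) =>
          (q.1.2 + q.1.1 * q.2.1, q.1.2 + q.1.1 * q.2.2) = p)).card ≤
          (𝒦 ×ˢ sdiv (p.1 - p.2).natAbs).card := by
        apply card_le_card_of_injOn (fun q => (q.2.1, q.1.1))
        · intro q hq
          simp only [coe_filter, Set.mem_setOf_eq, hT, mem_filter, hT0, mem_product] at hq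
          simp only [coe_product, Set.mem_prod, mem_coe]
          refine ⟨hq.1.1.1.2.1, ?_⟩
          apply mem_sdiv hne
          rw [Int.dvd_natAbs, ← hq.2]
          exact ⟨q.2.1 - q.2.2, by simp only; ring⟩
        · rintro ⟨⟨a, b⟩, d, e⟩ hq ⟨⟨a', b'⟩, d', e'⟩ hq' he
          simp only [coe_filter, Set.mem_setOf_eq, hT, mem_filter, hT0, mem_product] at hq hq'
          simp only [Prod.mk.injEq] at he
          obtain ⟨rfl, rfl⟩ := he
          have h2 := hq.2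
          have h3 := hq'.2
          rw [← h3, Prod.mk.injEq] at h2
          have h4 : b = b' := by linarith [h2.1]
          subst h4
          have h0 := hℋ _ hq.1.1.1.1.1
          have h5 : a * (e : ℤ) = a * (e' : ℤ) := by linarith [h2.2]
          have h6 := mul_left_cancel₀ h0 h5
          have h7 : e = e' := by exact_mod_cast h6
          rw [h7]
      rw [card_product] at h1
      have h2 := h1.trans (Nat.mul_le_mul h𝒦 (card_sdiv _))
      have h3 : ((((T.filter (fun q : (ℤ × ℤ) × (ℕ × ℕ) =>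
          (q.1.2 + q.1.1 * q.2.1, q.1.2 + q.1.1 * q.2.2) = p)).card : ℕ)) : ℝ) ≤
          ((M * (2 * (p.1 - p.2).natAbs.divisors.card) : ℕ) : ℝ) := by exact_mod_cast h2
      push_cast at h3
      calc _ ≤ _ := h3
        _ = _ := by ring
    · intro p; exact abs_nonneg _

end Pool.Agent.H.MP_0ec261_nt
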